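import Pool.Agent.TH4.HS.Sh

/-!
# Fibres of the discriminant of `f + t`
-/

namespace Pool.Agent.TH4.HS

open Polynomial Finset

variable {f : ℤ[X]} {n : ℕ}

/-- the monic polynomial with roots `- f(c)`, `c` the critical points of `f` -/
noncomputable def Qp (f : ℤ[X]) : ℂ[X] :=
  ((derivative (fC f)).roots.map fun c => X + C ((fC f).eval c)).prod

theorem Qp_monic (f : ℤ[X]) : (Qp f).Monic :=
  monic_multiset_prod_of_monic _ _ fun c _ => monic_X_add_C _

theorem Qp_natDegree (hf : f.Monic) (hd : f.natDegree = n) (hn : 2 ≤ n) :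
    (Qp f).natDegree = n - 1 := by
  unfold Qp
  rw [natDegree_multiset_prod_of_monic _ (fun p hp => by
    rw [Multiset.mem_map] at hp
    obtain ⟨c, -, rfl⟩ := hp
    exact monic_X_add_C _), Multiset.map_map]
  have h1 : (derivative (fC f)).roots.map (natDegree ∘ fun c => X + C ((fC f).eval c)) =
      (derivative (fC f)).roots.map fun _ => 1 :=
    Multiset.map_congr rfl fun c _ => natDegree_X_add_C _
  rw [h1, Multiset.map_const', Multiset.sum_replicate, smul_eq_mul, mul_one,
    ← (IsAlgClosed.splits (derivative (fC f))).natDegree_eq_card_roots]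
  exact (natDegree_deriv hf hd hn).1

theorem Qp_eval (f : ℤ[X]) (z : ℂ) :
    (Qp f).eval z = ((derivative (fC f)).roots.map fun c => (fC f).eval c + z).prod := by
  unfold Qp
  rw [eval_multiset_prod, Multiset.map_map]
  congr 1
  refine Multiset.map_congr rfl fun c _ => ?_
  simp [add_comm]

theorem discr_sq (hf : f.Monic) (hd : f.natDegree = n) (hn : 2 ≤ n) (t : ℤ) :
    (((f + C t).discr : ℤ) : ℂ) ^ 2 = ((n : ℂ) ^ n * (Qp f).eval (t : ℂ)) ^ 2 := by
  have h := congrArg (fun z => z ^ 2) (discr_eq hf hd hn t)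
  simp only [mul_pow] at h
  have e1 : ∀ m : ℕ, (((-1 : ℂ) ^ m) ^ 2) = 1 := fun m => by
    rw [← pow_mul, mul_comm, pow_mul]; simp
  rw [e1, e1, one_mul, one_mul] at h
  rw [mul_pow, Qp_eval]
  exact h

/-- every value is taken at most `2 (n - 1)` times -/
theorem card_fibre (hf : f.Monic) (hd : f.natDegree = n) (hn : 2 ≤ n) (m : ℕ) (Z : Finset ℤ)
    (hZ : ∀ t ∈ Z, (f + C t).discr.natAbs = m) : Z.card ≤ 2 * (n - 1) := by
  classical
  set G : ℂ[X] := (C ((n : ℂ) ^ n) * Qp f) ^ 2 - C ((m : ℂ) ^ 2) with hG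
  have hn0 : ((n : ℂ) ^ n) ≠ 0 := pow_ne_zero _ (by exact_mod_cast (by omega : n ≠ 0))
  have h1 : ((C ((n : ℂ) ^ n) * Qp f) ^ 2).natDegree = 2 * (n - 1) := by
    rw [natDegree_pow, natDegree_C_mul hn0, Qp_natDegree hf hd hn]
  have h2 : G.natDegree = 2 * (n - 1) := by rw [hG, natDegree_sub_C, h1]
  have h3 : G ≠ 0 := by
    intro h0
    rw [h0, natDegree_zero] at h2
    omega
  have h4 : Z.image (fun t : ℤ => (t : ℂ)) ⊆ G.roots.toFinset := by
    intro z hz
    rw [mem_image] at hz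
    obtain ⟨t, ht, rfl⟩ := hz
    rw [Multiset.mem_toFinset, mem_roots h3, IsRoot.def, hG]
    have h5 := discr_sq hf hd hn t
    have h6 : (((f + C t).discr : ℤ) : ℂ) ^ 2 = (m : ℂ) ^ 2 := by
      have h7 : (f + C t).discr ^ 2 = (m : ℤ) ^ 2 := by
        rw [← hZ t ht, Int.natCast_natAbs, sq_abs]
      exact_mod_cast congrArg (fun z : ℤ => (z : ℂ)) h7
    rw [eval_sub, eval_pow, eval_mul, eval_C, eval_C, ← h5, h6, sub_self]
  have h5 : (Z.image (fun t : ℤ => (t : ℂ))).card = Z.card :=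
    card_image_of_injective _ Int.cast_injective
  rw [← h5]
  calc _ ≤ G.roots.toFinset.card := card_le_card h4
    _ ≤ Multiset.card G.roots := Multiset.toFinset_card_le _
    _ ≤ G.natDegree := card_roots' _
    _ = _ := h2

theorem discr_le (hf : f.Monic) (hd : f.natDegree = n) (hn : 2 ≤ n) {X : ℝ} (hX : 0 < X)
    (hc : ∀ i, i < n → |((f.coeff i : ℤ) : ℝ)| ≤ X ^ (n - i)) {t : ℤ} (ht : |(t : ℝ)| ≤ X ^ n) :
    ((f + C t).discr.natAbs : ℝ) ≤ n ^ n * (3 * 2 ^ n * X ^ n) ^ (n - 1) := by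
  have h1 : ‖(Qp f).eval (t : ℂ)‖ ≤ (3 * 2 ^ n * X ^ n) ^ (n - 1) := by
    rw [Qp_eval]
    have h2 : ∀ s : Multiset ℂ, (∀ c ∈ s, ‖(fC f).eval c + (t : ℂ)‖ ≤ 3 * 2 ^ n * X ^ n) →
        ‖(s.map fun c => (fC f).eval c + (t : ℂ)).prod‖ ≤
          (3 * 2 ^ n * X ^ n) ^ (Multiset.card s) := by
      intro s
      induction s using Multiset.induction_on with
      | empty => simp
      | cons a s ih =>
        intro h
        rw [Multiset.map_cons, Multiset.prod_cons, norm_mul, Multiset.card_cons, pow_succ, mul_comm]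
        exact mul_le_mul (ih fun c hc => h c (Multiset.mem_cons_of_mem hc))
          (h a (Multiset.mem_cons_self a s)) (norm_nonneg _) (by positivity)
    have h3 : Multiset.card (derivative (fC f)).roots = n - 1 := by
      rw [← (IsAlgClosed.splits (derivative (fC f))).natDegree_eq_card_roots]
      exact (natDegree_deriv hf hd hn).1
    rw [← h3]
    apply h2
    intro c hcr
    have h4 : derivative (fC f) ≠ 0 := by
      intro h0
      have := (natDegree_deriv hf hd hn).1
      rw [h0, natDegree_zero] at this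
      omega
    exact value_le hf hd hn hX hc ((mem_roots h4).mp hcr) ht
  have h2 := congrArg norm (discr_sq hf hd hn t)
  rw [norm_pow, norm_pow] at h2
  have h3 := (pow_left_inj₀ (norm_nonneg _) (norm_nonneg _) two_ne_zero).mp h2
  rw [norm_mul, norm_pow, Complex.norm_natCast] at h3
  have h4 : ‖(((f + C t).discr : ℤ) : ℂ)‖ = ((f + C t).discr.natAbs : ℝ) := by
    rw [Complex.norm_intCast, Nat.cast_natAbs, Int.cast_abs]
  rw [← h4, h3]
  exact mul_le_mul_of_nonneg_left h1 (by positivity)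

end Pool.Agent.TH4.HS
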