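import Pool.Agent.TH4.HS.Glob
import Pool.Agent.TH4.HS.Fib

/-!
# The curves `y² = x^n + t`, `t` squarefree
-/

namespace Pool.Agent.TH4.HS

open Polynomial NumberField IsDedekindDomain WithZero Pool.Agent.W318

variable (v : HeightOneSpectrum (𝓞 ℚ))

theorem absW_two (h2 : pv v ≠ 2) : absW v (2 : ℚ) = 1 := by
  have h3 : ¬ (pv v : ℤ) ∣ (2 : ℤ) := by
    intro h4
    have h5 : pv v ∣ 2 := by exact_mod_cast h4
    exact h2 ((Nat.prime_dvd_prime_iff_eq (pv_prime v) Nat.prime_two).mp h5)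
  have := absW_int_eq_one v h3
  simpa using this

/-- at an odd prime some form equivalent to `F` is integral with minimal discriminant -/
theorem exists_form {g : ℕ} (hg : 2 ≤ g) {F : ℚ[X]} (hF : IsHyp g F) (h2 : pv v ≠ 2) :
    ∃ G : ℚ[X], Eqv (g + 1) F G ∧ IntP v G ∧
      absW v (discN (g + 1 + (g + 1)) G) = 2 ^ (-(minExp g F v : ℤ)) := by
  obtain ⟨f, f₂, hM, hn⟩ := exists_min_model hF v
  obtain ⟨φ⟩ := hM.iso
  have hbr := bridge hg hF.1 hF.2 hM.upper φ
  have hgood' : GoodForm (g + 1) (4 * f + f₂ ^ 2) := hbr.good (by omega) hF.good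
  refine ⟨4 * f + f₂ ^ 2, hbr, int_comb v hM.int hM.int₂, ?_⟩
  have hA2 := absW_two v h2
  have hn' := absW_exp v hn
  have h4 : (1 / 4 : ℚ) ≠ 0 := by norm_num
  rw [modelDisc_eq, four_mul_form, discN_C_mul (by omega) h4 hgood'.2, map_mul, map_mul,
    map_pow, map_pow, hA2] at hn'
  have h5 : absW v (1 / 4 : ℚ) = 1 := by
    have : (1 / 4 : ℚ) = (2 * 2)⁻¹ := by norm_num
    rw [this, map_inv₀, map_mul, hA2]
    norm_num
  rw [h5] at hn'
  simpa using hn'

/-- an equation with small discriminant is minimal -/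
theorem minExp_ge {g : ℕ} (hg : 2 ≤ g) {F : ℚ[X]} (hF : IsHyp g F) (hmon : F.Monic)
    (h2 : pv v ≠ 2) {k : ℕ} (hk : absW v F.discr = 2 ^ (-(k : ℤ))) (hk' : k < 4 * g + 2) :
    k ≤ minExp g F v := by
  obtain ⟨G, ⟨a, b, c, d, l, hdet, hl, hG⟩, hint, hdisc⟩ := exists_form v hg hF h2
  have h1 := abs_discN_act (by omega : 2 ≤ g + 1) hF.good hdet hl
  rw [← hG, discN_monic hmon] at h1
  have h3 := congrArg (absW v) h1
  have hN : 2 * (g + 1 + (g + 1) - 1) = 4 * g + 2 := by omega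
  rw [absW_abs, hdisc, map_mul, absW_abs, map_pow, hN, hk] at h3
  have hne : l ^ 2 * |a * d - b * c| ^ (g + 1) ≠ 0 :=
    mul_ne_zero (pow_ne_zero _ hl) (pow_ne_zero _ (abs_ne_zero.mpr hdet))
  obtain ⟨j, hj⟩ := absW_pow2 v hne
  rw [hj, ← zpow_natCast, ← zpow_mul, ← zpow_add₀ (by norm_num : (2 : ℝ) ≠ 0)] at h3
  have h4 := zpow_right_injective₀ (by norm_num : (0 : ℝ) < 2) (by norm_num) h3
  have h5 : (minExp g F v : ℤ) = k - j * (4 * g + 2) := by push_cast at h4; linarith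
  have h6 : j ≤ 0 := by
    by_contra hcon
    push Not at hcon
    have h7 : (0 : ℤ) ≤ minExp g F v := Int.natCast_nonneg _
    have h8 : (k : ℤ) < 4 * g + 2 := by exact_mod_cast hk'
    nlinarith
  have h7 : j * (4 * (g : ℤ) + 2) ≤ 0 := mul_nonpos_of_nonpos_of_nonneg h6 (by positivity)
  have : (k : ℤ) ≤ minExp g F v := by linarith
  exact_mod_cast this

/-- `|disc (x^n + t)| = n^n |t|^(n-1)` -/
theorem discr_pow (n : ℕ) (hn : 2 ≤ n) (t : ℤ) :
    ((X ^ n : ℤ[X]) + C t).discr.natAbs = n ^ n * t.natAbs ^ (n - 1) := by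
  have h1 := discr_sq (f := (X ^ n : ℤ[X])) (monic_X_pow n) (natDegree_X_pow n) hn t
  have h2 : (Qp (X ^ n : ℤ[X])).eval (t : ℂ) = (t : ℂ) ^ (n - 1) := by
    rw [Qp_eval]
    have e1 : fC (X ^ n : ℤ[X]) = X ^ n := by unfold fC; simp
    have e2 : derivative (X ^ n : ℂ[X]) = C (n : ℂ) * X ^ (n - 1) := by
      rw [derivative_X_pow]
    have hn0 : (n : ℂ) ≠ 0 := by exact_mod_cast (by omega : n ≠ 0)
    rw [e1, e2, roots_C_mul _ hn0, roots_X_pow, Multiset.map_nsmul, Multiset.map_singleton,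
      Multiset.prod_nsmul, Multiset.prod_singleton]
    congr 1
    simp
    omega
  rw [h2] at h1
  have h3 : ((X ^ n : ℤ[X]) + C t).discr ^ 2 = ((n : ℤ) ^ n * t ^ (n - 1)) ^ 2 := by
    exact_mod_cast h1
  have h4 := Int.natAbs_eq_iff_sq_eq.mpr h3
  rw [h4, Int.natAbs_mul, Int.natAbs_pow, Int.natAbs_pow, Int.natAbs_natCast]

section

variable {g n : ℕ} {t : ℤ}

theorem absW_natAbs (m : ℤ) : absW v ((m.natAbs : ℕ) : ℚ) = absW v (m : ℚ) := by
  have h1 : ((m.natAbs : ℕ) : ℚ) = |(m : ℚ)| := by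
    rw [Nat.cast_natAbs, Int.cast_abs]
  rw [h1, absW_abs]

theorem discr_map_eq (n : ℕ) (t : ℤ) :
    (((X ^ n : ℤ[X]) + C t).map (Int.castRingHom ℚ)).discr =
      ((((X ^ n : ℤ[X]) + C t).discr : ℤ) : ℚ) :=
  discr_map_of_injective (Int.castRingHom ℚ) (RingHom.injective_int _) _

theorem absW_discr (hn : 2 ≤ n) :
    absW v (((X ^ n : ℤ[X]) + C t).map (Int.castRingHom ℚ)).discr =
      absW v (n : ℚ) ^ n * absW v (t : ℚ) ^ (n - 1) := by
  rw [discr_map_eq, ← absW_natAbs, discr_pow n hn t]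
  push_cast
  rw [map_mul, map_pow, map_pow]
  congr 2
  exact absW_natAbs v t

theorem monic_pow_add (hn : 1 ≤ n) : ((X ^ n : ℤ[X]) + C t).Monic :=
  monic_X_pow_add (lt_of_le_of_lt degree_C_le (by exact_mod_cast (by omega : 0 < n)))

theorem natDegree_pow_add (hn : 1 ≤ n) : ((X ^ n : ℤ[X]) + C t).natDegree = n := by
  rw [natDegree_add_C, natDegree_X_pow]

theorem isHyp_pow (hn : n = 2 * g + 1 ∨ n = 2 * g + 2) (hg : 2 ≤ g) (ht : t ≠ 0) :
    IsHyp g (((X ^ n : ℤ[X]) + C t).map (Int.castRingHom ℚ)) := by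
  refine isHyp_of hn (monic_pow_add (by omega)) (natDegree_pow_add (by omega)) ?_
  intro h0
  have h1 := discr_pow n (by omega) t
  rw [h0, Int.natAbs_zero] at h1
  have h2 : n ^ n * t.natAbs ^ (n - 1) ≠ 0 :=
    mul_ne_zero (pow_ne_zero _ (by omega)) (pow_ne_zero _ (Int.natAbs_ne_zero.mpr ht))
  exact h2 h1.symm

/-- the minimal discriminant at a prime exactly dividing `t` -/
theorem minExp_pow (hn : n = 2 * g + 1 ∨ n = 2 * g + 2) (hg : 2 ≤ g) (ht : t ≠ 0)
    (h2 : pv v ≠ 2) (hpn : ¬ pv v ∣ n) (h1 : (pv v : ℤ) ∣ t) (h3 : ¬ (pv v : ℤ) ^ 2 ∣ t) :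
    n - 1 ≤ minExp g (((X ^ n : ℤ[X]) + C t).map (Int.castRingHom ℚ)) v := by
  refine minExp_ge v hg (isHyp_pow hn hg ht) ((monic_pow_add (by omega)).map _) h2 ?_ (by omega)
  rw [absW_discr v (by omega)]
  have e1 : absW v (n : ℚ) = 1 := by
    have := absW_int_eq_one v (m := (n : ℤ)) (by exact_mod_cast hpn)
    simpa using this
  have e2 : absW v (t : ℚ) = 2 ^ (-1 : ℤ) := by
    obtain ⟨j, hj⟩ := absW_pow2 v (x := (t : ℚ)) (by exact_mod_cast ht)
    have h4 := (absW_int_le v t 1).mpr (by simpa using h1)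
    have h5 : ¬ absW v (t : ℚ) ≤ 2 ^ (-((2 : ℕ) : ℤ)) := fun h => h3 ((absW_int_le v t 2).mp h)
    rw [hj] at h4 h5
    rw [zpow_le_zpow_iff_right₀ (by norm_num)] at h4 h5
    rw [hj]
    congr 1
    push_cast at h4 h5
    omega
  rw [e1, e2, one_pow, one_mul, ← zpow_natCast, ← zpow_mul]
  congr 1
  ring

/-- bad primes divide `2 n t` -/
theorem pv_dvd_of_bad (hn : n = 2 * g + 1 ∨ n = 2 * g + 2) (hg : 2 ≤ g) (ht : t ≠ 0)
    (hb : minExp g (((X ^ n : ℤ[X]) + C t).map (Int.castRingHom ℚ)) v ≠ 0) :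
    pv v ∣ 2 * n * t.natAbs := by
  by_contra hcon
  apply hb
  set F := ((X ^ n : ℤ[X]) + C t).map (Int.castRingHom ℚ) with hF
  have hFh : IsHyp g F := isHyp_pow hn hg ht
  have hmon : F.Monic := (monic_pow_add (by omega)).map _
  have h2 : pv v ≠ 2 := fun h => hcon (by rw [h]; exact (dvd_mul_right 2 n).mul_right _)
  have hpn : ¬ (pv v : ℤ) ∣ (n : ℤ) := fun h => hcon
    (((Int.natCast_dvd_natCast.mp h).mul_left 2).mul_right _)
  have hpt : ¬ (pv v : ℤ) ∣ t := fun h => hcon ((Int.natCast_dvd.mp h).mul_left _)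
  have hint : ∀ i, v.valuation ℚ (F.coeff i) ≤ 1 := by
    intro i
    rw [hF, coeff_map]
    exact val_int_le_one v _
  obtain ⟨s, hs⟩ := exists_two_exp (K := ℚ) v
  have hs0 : s = 0 := by
    have h3 := absW_exp v hs
    rw [absW_two v h2] at h3
    have h4 : ((2 : ℝ) ^ (0 : ℤ)) = 2 ^ (-(s : ℤ)) := by rw [zpow_zero]; exact h3
    have := zpow_right_injective₀ (by norm_num : (0 : ℝ) < 2) (by norm_num) h4
    have h5 : (0 : ℤ) = -(s : ℤ) := this
    omega
  subst hs0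
  obtain ⟨k, hk, _, hle⟩ := minExp_le hFh v (Eqv.refl (by have := hFh.2; omega)) hint hs
  rw [discN_monic hmon] at hk
  have hk0 : k = 0 := by
    have h3 := absW_exp v hk
    rw [hF, absW_discr v (by omega), absW_int_eq_one v hpt, one_pow, mul_one] at h3
    have e1 : absW v (n : ℚ) = 1 := by
      have := absW_int_eq_one v hpn
      simpa using this
    rw [e1, one_pow] at h3
    have h4 : ((2 : ℝ) ^ (0 : ℤ)) = 2 ^ (-(k : ℤ)) := by rw [zpow_zero]; exact h3
    have := zpow_right_injective₀ (by norm_num : (0 : ℝ) < 2) (by norm_num) h4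
    have h5 : (0 : ℤ) = -(k : ℤ) := this
    omega
  omega

/-- the conductor of `y² = x^n + t` -/
theorem badNorm_pow (hn : n = 2 * g + 1 ∨ n = 2 * g + 2) (hg : 2 ≤ g) (ht : t ≠ 0) :
    badNorm g (((X ^ n : ℤ[X]) + C t).map (Int.castRingHom ℚ)) ≤ 2 * n * t.natAbs := by
  classical
  set F := ((X ^ n : ℤ[X]) + C t).map (Int.castRingHom ℚ) with hF
  have hFh : IsHyp g F := isHyp_pow hn hg ht
  set S := (finite_bad hFh).toFinset with hS
  rw [badNorm_eq (g := g) (F := F) S (fun v => by rw [hS, Set.Finite.mem_toFinset]; rfl)]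
  have h6 : ∏ v ∈ S, Ideal.absNorm v.asIdeal = ∏ v ∈ S, pv v :=
    Finset.prod_congr rfl fun v _ => by rw [absNorm_eq]
  rw [h6]
  apply Nat.le_of_dvd
  · exact Nat.pos_of_ne_zero (mul_ne_zero (by omega) (Int.natAbs_ne_zero.mpr ht))
  · have h7 : ∏ v ∈ S, pv v = ∏ p ∈ S.image pv, p :=
      (Finset.prod_image (f := fun p => p) fun v _ w _ h => pv_inj h).symm
    rw [h7]
    apply Finset.prod_primes_dvd
    · intro p hp
      rw [Finset.mem_image] at hp
      obtain ⟨v, -, rfl⟩ := hp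
      exact (pv_prime v).prime
    · intro p hp
      rw [Finset.mem_image] at hp
      obtain ⟨v, hv, rfl⟩ := hp
      rw [hS, Set.Finite.mem_toFinset] at hv
      exact pv_dvd_of_bad v hn hg ht hv

/-- the minimal discriminant of `y² = x^n + t`, `t` squarefree -/
theorem discNorm_pow (hn : n = 2 * g + 1 ∨ n = 2 * g + 2) (hg : 2 ≤ g) (ht : Squarefree t.natAbs) :
    t.natAbs ^ (n - 1) ≤ (2 * n) ^ (n - 1) *
      discNorm g (((X ^ n : ℤ[X]) + C t).map (Int.castRingHom ℚ)) := by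
  classical
  have ht0 : t ≠ 0 := fun h => ht.ne_zero (by rw [h]; rfl)
  set F := ((X ^ n : ℤ[X]) + C t).map (Int.castRingHom ℚ) with hF
  have hFh : IsHyp g F := isHyp_pow hn hg ht0
  set m := t.natAbs with hm
  set c1 := m.primeFactors.filter fun p => ¬ p ∣ 2 * n with hc1
  set c2 := m.primeFactors.filter fun p => p ∣ 2 * n with hc2
  have hmeq : m = (∏ p ∈ c2, p) * ∏ p ∈ c1, p := by
    rw [hc1, hc2, Finset.prod_filter_mul_prod_filter_not]
    exact (Nat.prod_primeFactors_of_squarefree ht).symm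
  have hc2le : ∏ p ∈ c2, p ≤ 2 * n := by
    apply Nat.le_of_dvd (by omega)
    apply Finset.prod_primes_dvd
    · intro p hp
      exact (Nat.prime_of_mem_primeFactors (Finset.mem_filter.mp hp).1).prime
    · intro p hp
      exact (Finset.mem_filter.mp hp).2
  have hc1p : ∀ p ∈ c1, p.Prime := fun p hp =>
    Nat.prime_of_mem_primeFactors (Finset.mem_filter.mp hp).1
  have hmin : ∀ p (hp : p ∈ c1), n - 1 ≤ minExp g F (vp p (hc1p p hp)) := by
    intro p hp
    have hpp := hc1p p hp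
    obtain ⟨hp1, hp2⟩ := Finset.mem_filter.mp hp
    have hpt : p ∣ m := Nat.dvd_of_mem_primeFactors hp1
    refine minExp_pow (vp p hpp) hn hg ht0 ?_ ?_ ?_ ?_
    · rw [pv_vp]
      rintro rfl
      exact hp2 (dvd_mul_right 2 n)
    · rw [pv_vp]
      exact fun h => hp2 (h.mul_left 2)
    · rw [pv_vp]
      exact Int.natCast_dvd.mpr hpt
    · rw [pv_vp]
      intro h
      have h1 : p ^ 2 ∣ m := by
        have h2 := Int.natAbs_dvd_natAbs.mpr h
        rwa [Int.natAbs_pow, Int.natAbs_natCast] at h2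
      have h2 := ht p (by rw [← sq]; exact h1)
      exact hpp.one_lt.ne' (Nat.isUnit_iff.mp h2)
  set S := (finite_bad hFh).toFinset with hS
  have hd := discNorm_eq (g := g) (F := F) S (fun v hv => by
    rw [hS, Set.Finite.mem_toFinset]; exact hv)
  have hinj : Function.Injective fun p : {x // x ∈ c1} => vp p.1 (hc1p p.1 p.2) := by
    intro p q h
    have := congrArg pv h
    simp only [pv_vp] at this
    exact Subtype.ext this
  have h1 : (∏ p ∈ c1, p) ^ (n - 1) ≤ discNorm g F := by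
    rw [← Finset.prod_pow, ← Finset.prod_attach]
    calc ∏ p ∈ c1.attach, (p : ℕ) ^ (n - 1)
        ≤ ∏ p ∈ c1.attach, (pv (vp p.1 (hc1p p.1 p.2))) ^ minExp g F (vp p.1 (hc1p p.1 p.2)) := by
          refine Finset.prod_le_prod' fun p _ => ?_
          rw [pv_vp]
          exact Nat.pow_le_pow_right (hc1p p.1 p.2).pos (hmin p.1 p.2)
      _ = ∏ v ∈ c1.attach.map ⟨_, hinj⟩, pv v ^ minExp g F v := by
          rw [Finset.prod_map]; rfl
      _ ≤ ∏ v ∈ S, pv v ^ minExp g F v := by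
          refine Finset.prod_le_prod_of_subset_of_one_le' (fun v hv => ?_)
            fun v _ _ => Nat.one_le_pow _ _ (pv_prime v).pos
          rw [Finset.mem_map] at hv
          obtain ⟨p, -, rfl⟩ := hv
          rw [hS, Set.Finite.mem_toFinset]
          have h2 := hmin p.1 p.2
          intro h3
          have h4 : minExp g F (vp p.1 (hc1p p.1 p.2)) = 0 := h3
          omega
      _ = discNorm g F := by
          rw [hd]
          exact Finset.prod_congr rfl fun v _ => by rw [absNorm_eq]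
  calc m ^ (n - 1) = (∏ p ∈ c2, p) ^ (n - 1) * (∏ p ∈ c1, p) ^ (n - 1) := by
        conv_lhs => rw [hmeq, mul_pow]
    _ ≤ (2 * n) ^ (n - 1) * discNorm g F :=
        Nat.mul_le_mul (Nat.pow_le_pow_left hc2le _) h1

end

end Pool.Agent.TH4.HS
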