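import Mathlib

/-!
# At least a quarter of the integers are squarefree
-/

namespace Pool.Agent.TH4.HS

open Finset

theorem sum_inv_sq (M : ℕ) (hM : 2 ≤ M) : ∑ d ∈ Icc 2 M, (1 : ℝ) / (d : ℝ) ^ 2 ≤ 3 / 4 - 1 / M := by
  induction M, hM using Nat.le_induction with
  | base => norm_num
  | succ M hM ih =>
    rw [Finset.sum_Icc_succ_top (by omega)]
    have hM0 : (0 : ℝ) < M := by exact_mod_cast (by omega : 0 < M)
    have h1 : (1 : ℝ) / ((M + 1 : ℕ) : ℝ) ^ 2 ≤ 1 / M - 1 / ((M + 1 : ℕ) : ℝ) := by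
      push_cast
      rw [div_sub_div _ _ hM0.ne' (by positivity), div_le_div_iff₀ (by positivity) (by positivity)]
      nlinarith
    linarith

theorem sq_count (N : ℕ) : (N : ℝ) / 4 ≤ (((Ioc 0 N).filter fun m => Squarefree m).card : ℝ) := by
  classical
  rcases Nat.lt_or_ge N 2 with hN | hN
  · interval_cases N
    · simp
    · have : (Ioc 0 1).filter (fun m => Squarefree m) = {1} := by
        ext m
        rw [mem_filter, mem_Ioc, mem_singleton]
        constructor
        · rintro ⟨⟨h1, h2⟩, -⟩; omega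
        · rintro rfl; exact ⟨⟨by norm_num, le_rfl⟩, squarefree_one⟩
      rw [this, card_singleton]
      norm_num
  have hN0 : (0 : ℝ) < N := by exact_mod_cast (by omega : 0 < N)
  have h1 : ((Ioc 0 N).filter fun m => Squarefree m).card +
      ((Ioc 0 N).filter fun m => ¬ Squarefree m).card = N := by
    rw [card_filter_add_card_filter_not, Nat.card_Ioc, Nat.sub_zero]
  have h2 : (Ioc 0 N).filter (fun m => ¬ Squarefree m) ⊆
      (Icc 2 N).biUnion fun d => (Ioc 0 N).filter fun m => d ^ 2 ∣ m := by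
    intro m hm
    rw [mem_filter, mem_Ioc] at hm
    obtain ⟨⟨hm0, hmN⟩, hm⟩ := hm
    rw [Nat.squarefree_iff_prime_squarefree] at hm
    push Not at hm
    obtain ⟨p, hp, hpm⟩ := hm
    rw [mem_biUnion]
    refine ⟨p, ?_, ?_⟩
    · rw [mem_Icc]
      exact ⟨hp.two_le, (Nat.le_of_dvd hm0 ((dvd_mul_right p p).trans hpm)).trans hmN⟩
    · rw [mem_filter, mem_Ioc, sq]
      exact ⟨⟨hm0, hmN⟩, hpm⟩
  have h3 : (((Ioc 0 N).filter fun m => ¬ Squarefree m).card : ℝ) ≤ 3 / 4 * N := by
    calc (((Ioc 0 N).filter fun m => ¬ Squarefree m).card : ℝ)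
        ≤ ∑ d ∈ Icc 2 N, (((Ioc 0 N).filter fun m => d ^ 2 ∣ m).card : ℝ) := by
          exact_mod_cast (card_le_card h2).trans card_biUnion_le
      _ ≤ ∑ d ∈ Icc 2 N, (N : ℝ) * (1 / (d : ℝ) ^ 2) := by
          refine sum_le_sum fun d hd => ?_
          rw [Nat.Ioc_filter_dvd_card_eq_div]
          refine (Nat.cast_div_le).trans ?_
          push_cast
          rw [mul_one_div]
      _ ≤ N * (3 / 4) := by
          rw [← mul_sum]
          apply mul_le_mul_of_nonneg_left _ hN0.le
          refine (sum_inv_sq N hN).trans ?_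
          have : (0 : ℝ) ≤ 1 / N := by positivity
          linarith
      _ = 3 / 4 * N := by ring
  have h4 : (((Ioc 0 N).filter fun m => Squarefree m).card : ℝ) +
      (((Ioc 0 N).filter fun m => ¬ Squarefree m).card : ℝ) = N := by exact_mod_cast h1
  linarith

end Pool.Agent.TH4.HS
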