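import Pool.Agent.TH4.HS.Main
import Pool.Agent.TH4.HS.Sharp
import Pool.Agent.TH4.HS.Sqf

/-!
# The exponent `n - 1` is optimal
-/

namespace Pool.Agent.TH4.HS

open Polynomial Finset Pool.Agent.W318 Filter

theorem exists_T0 {n : ℕ} {κ c : ℝ} (hn : 2 ≤ n) (hκ : κ < (n : ℝ) - 1) (hc : 0 < c) :
    ∃ T0 : ℕ, 1 ≤ T0 ∧ ∀ m : ℕ, T0 ≤ m →
      c * ((2 * n * m : ℕ) : ℝ) ^ (max κ 0) * (2 * n : ℝ) ^ (n - 1) < (m : ℝ) ^ (n - 1) := by
  set κ' := max κ 0 with hκ'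
  have hn' : (2 : ℝ) ≤ n := by exact_mod_cast hn
  have h1 : κ' < (n : ℝ) - 1 := max_lt hκ (by linarith)
  have h2 : Tendsto (fun m : ℕ => (m : ℝ) ^ ((n : ℝ) - 1 - κ')) atTop atTop :=
    (tendsto_rpow_atTop (by linarith)).comp tendsto_natCast_atTop_atTop
  obtain ⟨T, hT⟩ := eventually_atTop.mp
    (h2.eventually_gt_atTop (c * (2 * n : ℝ) ^ κ' * (2 * n : ℝ) ^ (n - 1)))
  refine ⟨max T 1, le_max_right _ _, fun m hm => ?_⟩
  have hm1 : T ≤ m := (le_max_left _ _).trans hm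
  have hm0 : (0 : ℝ) < m := by
    have : 1 ≤ m := (le_max_right T 1).trans hm
    exact_mod_cast this
  have h3 := hT m hm1
  have h4 : (m : ℝ) ^ (n - 1) = (m : ℝ) ^ ((n : ℝ) - 1 - κ') * (m : ℝ) ^ κ' := by
    rw [← Real.rpow_add hm0, ← Real.rpow_natCast, Nat.cast_sub (by omega)]
    congr 1
    push_cast
    ring
  have h5 : ((2 * n * m : ℕ) : ℝ) ^ κ' = (2 * n : ℝ) ^ κ' * (m : ℝ) ^ κ' := by
    push_cast
    rw [Real.mul_rpow (by positivity) hm0.le]
  rw [h4, h5]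
  have h6 : 0 < (m : ℝ) ^ κ' := Real.rpow_pos_of_pos hm0 _
  calc c * ((2 * n : ℝ) ^ κ' * (m : ℝ) ^ κ') * (2 * n : ℝ) ^ (n - 1)
      = (c * (2 * n : ℝ) ^ κ' * (2 * n : ℝ) ^ (n - 1)) * (m : ℝ) ^ κ' := by ring
    _ < _ := mul_lt_mul_of_pos_right h3 h6

/-- for `κ < n - 1` the inequality fails for all large squarefree `t` -/
theorem not_good_pow {g n : ℕ} (hg : 2 ≤ g) (hn : n = 2 * g + 1 ∨ n = 2 * g + 2) {κ c : ℝ}
    (hc : 0 < c) {m : ℕ} (hm : Squarefree m)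
    (h : c * ((2 * n * m : ℕ) : ℝ) ^ (max κ 0) * (2 * n : ℝ) ^ (n - 1) < (m : ℝ) ^ (n - 1)) :
    ¬ Good g c κ (((X ^ n : ℤ[X]) + C (m : ℤ)).map (Int.castRingHom ℚ)) := by
  rintro ⟨-, h1⟩
  set F := ((X ^ n : ℤ[X]) + C (m : ℤ)).map (Int.castRingHom ℚ) with hF
  have ht0 : (m : ℤ) ≠ 0 := by exact_mod_cast hm.ne_zero
  have h2 := discNorm_pow (t := (m : ℤ)) hn hg (by rw [Int.natAbs_natCast]; exact hm)
  have h3 := badNorm_pow (t := (m : ℤ)) hn hg ht0
  rw [Int.natAbs_natCast] at h2 h3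
  have h4 : ((m ^ (n - 1) : ℕ) : ℝ) ≤ (((2 * n) ^ (n - 1) * discNorm g F : ℕ) : ℝ) := by
    exact_mod_cast h2
  push_cast at h4
  have hb0 : (1 : ℝ) ≤ badNorm g F := by
    have : badNorm g F ≠ 0 := by
      classical
      have hFh : IsHyp g F := isHyp_pow hn hg ht0
      rw [badNorm_eq (g := g) (F := F) (finite_bad hFh).toFinset (fun v => by
        rw [Set.Finite.mem_toFinset]; rfl)]
      exact Finset.prod_ne_zero_iff.mpr fun v _ => by
        rw [absNorm_eq]; exact (pv_prime v).ne_zero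
    exact_mod_cast Nat.one_le_iff_ne_zero.mpr this
  have h5 : (badNorm g F : ℝ) ^ κ ≤ ((2 * n * m : ℕ) : ℝ) ^ (max κ 0) :=
    (Real.rpow_le_rpow_of_exponent_le hb0 (le_max_left κ 0)).trans
      (Real.rpow_le_rpow (by positivity) (by exact_mod_cast h3) (le_max_right κ 0))
  have h6 : (m : ℝ) ^ (n - 1) ≤ (2 * n : ℝ) ^ (n - 1) * (c * ((2 * n * m : ℕ) : ℝ) ^ (max κ 0)) := by
    refine h4.trans (mul_le_mul_of_nonneg_left ?_ (by positivity))
    exact h1.trans (mul_le_mul_of_nonneg_left h5 hc.le)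
  linarith

/-- **Optimality.** For `κ < n - 1` a positive proportion of the curves `y² = x^n + t` violates
the inequality. -/
theorem sharp {g n : ℕ} (hg : 2 ≤ g) (hn : n = 2 * g + 1 ∨ n = 2 * g + 2) {κ c : ℝ}
    (hκ : κ < (n : ℝ) - 1) (hc : 0 < c) :
    ∃ B₀ : ℝ, ∀ B : ℝ, B₀ ≤ B → B ^ n / 8 ≤
      ({t : ℤ | |(t : ℝ)| ≤ B ^ n ∧
        ¬ Good g c κ (((X ^ n : ℤ[X]) + C t).map (Int.castRingHom ℚ))}.ncard : ℝ) := by
  classical
  obtain ⟨T0, hT1, hT0⟩ := exists_T0 (n := n) (by omega) hκ hc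
  have hT1' : (1 : ℝ) ≤ T0 := by exact_mod_cast hT1
  refine ⟨8 * T0 + 2, fun B hB => ?_⟩
  have hB1 : 1 ≤ B := by linarith
  have hBn : B ≤ B ^ n := by
    calc B = B ^ 1 := (pow_one B).symm
      _ ≤ B ^ n := pow_le_pow_right₀ hB1 (by omega)
  set N := ⌊B ^ n⌋₊ with hN
  have hNle : (N : ℝ) ≤ B ^ n := Nat.floor_le (by positivity)
  have hNge : B ^ n < N + 1 := Nat.lt_floor_add_one _
  set Z := ((Ioc 0 N).filter fun m => Squarefree m).filter fun m => T0 ≤ m with hZ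
  have hZc : (N : ℝ) / 4 - T0 ≤ (Z.card : ℝ) := by
    have h1 := sq_count N
    have h2 : ((Ioc 0 N).filter fun m => Squarefree m).card =
        Z.card + (((Ioc 0 N).filter fun m => Squarefree m).filter fun m => ¬ T0 ≤ m).card := by
      rw [hZ, card_filter_add_card_filter_not]
    have h3 : (((Ioc 0 N).filter fun m => Squarefree m).filter fun m => ¬ T0 ≤ m).card ≤ T0 := by
      calc _ ≤ (range T0).card := card_le_card fun m hm => by
            rw [mem_filter] at hm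
            rw [mem_range]
            omega
        _ = T0 := card_range _
    have h4 : (((Ioc 0 N).filter fun m => Squarefree m).card : ℝ) ≤ Z.card + T0 := by
      rw [h2]; push_cast
      have : ((((Ioc 0 N).filter fun m => Squarefree m).filter fun m => ¬ T0 ≤ m).card : ℝ) ≤ T0 := by
        exact_mod_cast h3
      linarith
    linarith
  set S : Set ℤ := {t : ℤ | |(t : ℝ)| ≤ B ^ n ∧
        ¬ Good g c κ (((X ^ n : ℤ[X]) + C t).map (Int.castRingHom ℚ))} with hS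
  have hfin : S.Finite := by
    refine (Set.finite_Icc (-(N : ℤ)) N).subset fun t ht => ?_
    have h1 : |(t : ℝ)| ≤ B ^ n := ht.1
    have h2 : t.natAbs ≤ N := by
      apply Nat.le_floor
      rw [Nat.cast_natAbs, Int.cast_abs]
      exact h1
    rw [Set.mem_Icc]
    omega
  have hsub : ((Z.image fun m : ℕ => (m : ℤ)) : Set ℤ) ⊆ S := by
    intro t ht
    rw [Finset.mem_coe, mem_image] at ht
    obtain ⟨m, hm, rfl⟩ := ht
    rw [hZ, mem_filter, mem_filter, mem_Ioc] at hm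
    obtain ⟨⟨⟨hm0, hmN⟩, hms⟩, hmT⟩ := hm
    refine ⟨?_, not_good_pow hg hn hc hms (hT0 m hmT)⟩
    rw [Int.cast_natCast, Nat.abs_cast]
    exact le_trans (by exact_mod_cast hmN) hNle
  have hcard : (Z.card : ℝ) ≤ (S.ncard : ℝ) := by
    have h1 := Set.ncard_le_ncard hsub hfin
    rw [Set.ncard_coe_finset, card_image_of_injective _ Nat.cast_injective] at h1
    exact_mod_cast h1
  linarith

end Pool.Agent.TH4.HS
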