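import Mathlib

/-!
# Residue classes of the parameter
-/

namespace Pool.Agent.TH4.HS

open Polynomial Finset

/-- Taylor expansion and divisibility -/
theorem taylor_dvd {P : ℤ[X]} {p : ℤ} {k : ℕ} {r s : ℤ} (hrs : p ∣ s - r)
    (h : ∀ j < k, p ^ (k - j) ∣ (hasseDeriv j P).eval r) : p ^ k ∣ P.eval s := by
  have e1 : P.eval s = (taylor r P).eval (s - r) := by
    rw [taylor_eval]; ring_nf
  rw [e1, eval_eq_sum_range]
  refine Finset.dvd_sum fun j _ => ?_
  rw [taylor_coeff]
  by_cases hj : j < k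
  · have h1 := mul_dvd_mul (h j hj) (pow_dvd_pow_of_dvd hrs j)
    rwa [← pow_add, Nat.sub_add_cancel hj.le] at h1
  · push Not at hj
    exact Dvd.dvd.mul_left ((pow_dvd_pow p hj).trans (pow_dvd_pow_of_dvd hrs j)) _

/-- a residue `s` modulo `p` with `f'(s) = 0` modulo `p` and `f (s) + t = 0` modulo `p ^ k` -/
def Hit (f : ℤ[X]) (k p : ℕ) (t : ℤ) : Prop :=
  ∃ s : ℕ, s < p ∧ (p : ℤ) ∣ (derivative f).eval (s : ℤ) ∧ (p : ℤ) ^ k ∣ f.eval (s : ℤ) + t

theorem hit_of {f : ℤ[X]} {t : ℤ} {k p : ℕ} (hp : 0 < p) (hk : 2 ≤ k) {r : ℤ}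
    (h : ∀ j < k, (p : ℤ) ^ (k - j) ∣ (hasseDeriv j (f + C t)).eval r) : Hit f k p t := by
  have hp' : (0 : ℤ) < p := by exact_mod_cast hp
  have hs0 : 0 ≤ r % p := Int.emod_nonneg _ hp'.ne'
  have hsp : r % p < p := Int.emod_lt_of_pos _ hp'
  obtain ⟨s, hs⟩ := Int.eq_ofNat_of_zero_le hs0
  have hrs : (p : ℤ) ∣ (s : ℤ) - r := by
    rw [← hs]
    have := Int.emod_add_mul_ediv r p
    exact ⟨-(r / p), by linarith⟩
  refine ⟨s, ?_, ?_, ?_⟩
  · have : (s : ℤ) < p := by rw [← hs]; exact hsp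
    exact_mod_cast this
  · have h1 := h 1 (by omega)
    rw [hasseDeriv_one', derivative_add, derivative_C, add_zero] at h1
    have h2 : (p : ℤ) ∣ (derivative f).eval r :=
      (dvd_pow_self _ (by omega : k - 1 ≠ 0)).trans h1
    have h3 : (s : ℤ) - r ∣ (derivative f).eval (s : ℤ) - (derivative f).eval r :=
      sub_dvd_eval_sub _ _ _
    have h4 := dvd_add (hrs.trans h3) h2
    simpa using h4
  · have h1 := taylor_dvd hrs h
    rwa [eval_add, eval_C] at h1

/-- the residues modulo `p` at which `f'` vanishes -/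
noncomputable def Zr (f : ℤ[X]) (p : ℕ) : Finset ℕ :=
  (range p).filter fun s => (p : ℤ) ∣ (derivative f).eval (s : ℤ)

theorem card_Zr {f : ℤ[X]} (hf : f.Monic) {n : ℕ} (hd : f.natDegree = n) (hn : 1 ≤ n) {p : ℕ}
    (hp : p.Prime) : (Zr f p).card ≤ n := by
  classical
  by_cases hpn : p ∣ n
  · refine (card_le_card (filter_subset _ _)).trans ?_
    rw [card_range]
    exact Nat.le_of_dvd hn hpn
  · have : Fact p.Prime := ⟨hp⟩
    set Q : (ZMod p)[X] := (derivative f).map (Int.castRingHom (ZMod p)) with hQ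
    have hcoef : Q.coeff (n - 1) ≠ 0 := by
      rw [hQ, coeff_map, coeff_derivative]
      have h1 : n - 1 + 1 = n := by omega
      have h2 : f.coeff n = 1 := by rw [← hd]; exact hf.coeff_natDegree
      rw [h1, h2]
      have h3 : ((Int.castRingHom (ZMod p)) (1 * (((n - 1 : ℕ) : ℤ) + 1))) = ((n : ℕ) : ZMod p) := by
        have : (((n - 1 : ℕ) : ℤ) + 1) = ((n : ℕ) : ℤ) := by push_cast [Nat.cast_sub hn]; ring
        rw [this, one_mul]
        simp
      rw [h3, Ne, ZMod.natCast_eq_zero_iff]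
      exact hpn
    have hQ0 : Q ≠ 0 := by
      rintro h
      rw [h] at hcoef
      simp at hcoef
    have hQd : Q.natDegree ≤ n := by
      refine (natDegree_map_le).trans ((natDegree_derivative_le f).trans ?_)
      omega
    have h4 : (Zr f p).card ≤ Q.roots.toFinset.card := by
      refine Finset.card_le_card_of_injOn (fun s : ℕ => (s : ZMod p)) ?_ ?_
      · intro s hs
        have hs' := Finset.mem_coe.mp hs
        unfold Zr at hs'
        rw [mem_filter] at hs'
        rw [Finset.mem_coe, Multiset.mem_toFinset, mem_roots hQ0, IsRoot.def]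
        have h5 := (ZMod.intCast_zmod_eq_zero_iff_dvd _ p).mpr hs'.2
        have h6 : Q.eval ((s : ℕ) : ZMod p) = (((derivative f).eval (s : ℤ) : ℤ) : ZMod p) := by
          have := Polynomial.eval_intCast_map (Int.castRingHom (ZMod p)) (derivative f) (s : ℤ)
          rw [hQ]
          simp
        rw [h6]
        exact h5
      · intro s hs s' hs' hss
        have h5 := Finset.mem_coe.mp hs
        have h6 := Finset.mem_coe.mp hs'
        unfold Zr at h5 h6
        rw [mem_filter, mem_range] at h5 h6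
        have h7 := (ZMod.natCast_eq_natCast_iff' s s' p).mp hss
        rwa [Nat.mod_eq_of_lt h5.1, Nat.mod_eq_of_lt h6.1] at h7
    exact h4.trans ((Multiset.toFinset_card_le _).trans ((card_roots' Q).trans hQd))

/-- number of integers of an interval in a residue class -/
theorem card_class (T : ℤ) (hT : 0 ≤ T) {q : ℕ} (hq : 0 < q) (x : ℤ) :
    (((Icc (-T) T).filter fun t => (q : ℤ) ∣ t - x).card : ℝ) ≤ (2 * T + 1) / q + 1 := by
  have hq' : (0 : ℤ) < q := by exact_mod_cast hq
  have h1 := Int.Ioc_filter_modEq_card (-T - 1) T hq' x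
  have h2 : ((Ioc (-T - 1) T).filter fun t => t ≡ x [ZMOD q]) =
      (Icc (-T) T).filter fun t => (q : ℤ) ∣ t - x := by
    ext t
    rw [mem_filter, mem_filter, mem_Ioc, mem_Icc]
    constructor
    · rintro ⟨h3, h4⟩
      exact ⟨⟨by omega, h3.2⟩, h4.symm.dvd⟩
    · rintro ⟨h3, h4⟩
      exact ⟨⟨by omega, h3.2⟩, (Int.modEq_iff_dvd.mpr h4).symm⟩
  rw [h2] at h1
  have hqQ : (0 : ℚ) < q := by exact_mod_cast hq
  have hTQ : (0 : ℚ) ≤ (T : ℚ) := by exact_mod_cast hT
  have h3 : ((((Icc (-T) T).filter fun t => (q : ℤ) ∣ t - x).card : ℤ) : ℚ) ≤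
      (2 * T + 1) / q + 1 := by
    rw [h1]
    rw [Int.cast_max, max_le_iff]
    constructor
    · push_cast
      have h4 := Int.floor_le (((T : ℚ) - x) / ((q : ℤ) : ℚ))
      have h5 := Int.lt_floor_add_one (((-T - 1 : ℤ) - x : ℚ) / ((q : ℤ) : ℚ))
      push_cast at h4 h5
      have h6 : ((T : ℚ) - x) / q - (-(T : ℚ) - 1 - x) / q = (2 * T + 1) / q := by
        field_simp; ring
      linarith
    · push_cast
      positivity
  have h4 : (((((Icc (-T) T).filter fun t => (q : ℤ) ∣ t - x).card : ℤ) : ℚ) : ℝ) ≤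
      (((2 * T + 1) / q + 1 : ℚ) : ℝ) := by exact_mod_cast h3
  push_cast at h4
  exact h4

/-- number of integers which hit all primes dividing `A` -/
theorem card_hits {f : ℤ[X]} (hf : f.Monic) {n : ℕ} (hd : f.natDegree = n) (hn : 1 ≤ n) (k : ℕ)
    (T : ℤ) (hT : 0 ≤ T) {A : ℕ} (hA : Squarefree A) (Z : Finset ℤ) (hZ : ∀ t ∈ Z, |t| ≤ T ∧
      ∀ p ∈ A.primeFactors, Hit f k p t) :
    (Z.card : ℝ) ≤ (n : ℝ) ^ A.primeFactors.card * ((2 * T + 1) / (A : ℝ) ^ k + 1) := by
  classical
  have hA0 : 0 < A := Nat.pos_of_ne_zero hA.ne_zero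
  set U := A.primeFactors.pi (fun p => Zr f p) with hU
  have hsub : Z ⊆ U.biUnion (fun s => Z.filter fun t => ∀ p (hp : p ∈ A.primeFactors),
      (p : ℤ) ^ k ∣ f.eval (s p hp : ℤ) + t) := by
    intro t ht
    have h1 := (hZ t ht).2
    choose! s hs using h1
    rw [mem_biUnion]
    refine ⟨fun p hp => s p, ?_, ?_⟩
    · rw [hU, Finset.mem_pi]
      intro p hp
      unfold Zr
      rw [mem_filter, mem_range]
      exact ⟨(hs p hp).1, (hs p hp).2.1⟩
    · rw [mem_filter]
      exact ⟨ht, fun p hp => (hs p hp).2.2⟩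
  have hpart : ∀ s ∈ U, ((Z.filter fun t => ∀ p (hp : p ∈ A.primeFactors),
      (p : ℤ) ^ k ∣ f.eval (s p hp : ℤ) + t).card : ℝ) ≤ (2 * T + 1) / (A : ℝ) ^ k + 1 := by
    intro s _
    set W := Z.filter fun t => ∀ p (hp : p ∈ A.primeFactors),
      (p : ℤ) ^ k ∣ f.eval (s p hp : ℤ) + t with hW
    have hTR : (0 : ℝ) ≤ (T : ℝ) := by exact_mod_cast hT
    rcases W.eq_empty_or_nonempty with h0 | ⟨x, hx⟩
    · rw [h0, card_empty, Nat.cast_zero]
      positivity
    · have h1 : W ⊆ (Icc (-T) T).filter fun t => ((A ^ k : ℕ) : ℤ) ∣ t - x := by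
        intro t ht
        rw [hW, mem_filter] at ht hx
        rw [mem_filter, mem_Icc]
        refine ⟨abs_le.mp (hZ t ht.1).1, ?_⟩
        have h2 : ((A ^ k : ℕ) : ℤ) = ∏ p ∈ A.primeFactors, (p : ℤ) ^ k := by
          rw [Finset.prod_pow]
          have h3 := Nat.prod_primeFactors_of_squarefree hA
          push_cast
          congr 1
          conv_lhs => rw [← h3]
          push_cast
          rfl
        rw [h2]
        apply Finset.prod_dvd_of_coprime
        · intro p hp q hq hpq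
          have hp' := Nat.prime_of_mem_primeFactors (Finset.mem_coe.mp hp)
          have hq' := Nat.prime_of_mem_primeFactors (Finset.mem_coe.mp hq)
          apply IsCoprime.pow
          exact Nat.isCoprime_iff_coprime.mpr ((Nat.coprime_primes hp' hq').mpr hpq)
        · intro p hp
          have h4 := dvd_sub (ht.2 p hp) (hx.2 p hp)
          have h5 : f.eval (s p hp : ℤ) + t - (f.eval (s p hp : ℤ) + x) = t - x := by ring
          rwa [h5] at h4
      have h2 := card_class T hT (pow_pos hA0 k) x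
      push_cast at h2
      refine le_trans ?_ h2
      have h3 := card_le_card h1
      push_cast at h3
      exact_mod_cast h3
  have hTR : (0 : ℝ) ≤ (T : ℝ) := by exact_mod_cast hT
  calc (Z.card : ℝ) ≤ ((U.biUnion (fun s => Z.filter fun t => ∀ p (hp : p ∈ A.primeFactors),
      (p : ℤ) ^ k ∣ f.eval (s p hp : ℤ) + t)).card : ℝ) := by exact_mod_cast card_le_card hsub
    _ ≤ ∑ s ∈ U, ((Z.filter fun t => ∀ p (hp : p ∈ A.primeFactors),
      (p : ℤ) ^ k ∣ f.eval (s p hp : ℤ) + t).card : ℝ) := by exact_mod_cast card_biUnion_le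
    _ ≤ ∑ s ∈ U, ((2 * T + 1) / (A : ℝ) ^ k + 1) := Finset.sum_le_sum hpart
    _ = U.card * ((2 * T + 1) / (A : ℝ) ^ k + 1) := by rw [sum_const, nsmul_eq_mul]
    _ ≤ (n : ℝ) ^ A.primeFactors.card * ((2 * T + 1) / (A : ℝ) ^ k + 1) := by
        refine mul_le_mul_of_nonneg_right ?_ (by positivity)
        rw [hU, Finset.card_pi]
        have h1 : ∏ p ∈ A.primeFactors, (Zr f p).card ≤ ∏ p ∈ A.primeFactors, n :=
          Finset.prod_le_prod' fun p hp => card_Zr hf hd hn (Nat.prime_of_mem_primeFactors hp)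
        rw [prod_const] at h1
        exact_mod_cast h1

end Pool.Agent.TH4.HS
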