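import Pool.Agent.TH4.HS.Fib
import Pool.Agent.TH4.HS.Cls
import Pool.Agent.H785R2.ABC.A12
import Pool.Agent.H785R2.ABC.A345

/-!
# Two counting lemmas
-/

namespace Pool.Agent.TH4.HS

open Polynomial Finset
open Pool.Agent.H785R2.ABC (rad)

variable {f : ℤ[X]} {n : ℕ}

/-- few `t` for which the radical of the discriminant is small -/
theorem count_rad (hf : f.Monic) (hd : f.natDegree = n) (hn : 2 ≤ n) (M : ℕ) (R : ℝ) (Z : Finset ℤ)
    (hZ : ∀ t ∈ Z, (f + C t).discr ≠ 0 ∧ (f + C t).discr.natAbs ≤ M ∧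
      (rad (f + C t).discr.natAbs : ℝ) ≤ R) :
    Z.card ≤ 2 * (n - 1) * ((Icc 1 M).filter fun d => (rad d : ℝ) ≤ R).card := by
  classical
  refine card_le_mul_card_image_of_maps_to (f := fun t => (f + C t).discr.natAbs) ?_ _ ?_
  · intro t ht
    obtain ⟨h1, h2, h3⟩ := hZ t ht
    rw [mem_filter, mem_Icc]
    exact ⟨⟨Nat.one_le_iff_ne_zero.mpr (Int.natAbs_ne_zero.mpr h1), h2⟩, h3⟩
  · intro m _
    exact card_fibre hf hd hn m _ fun t ht => (mem_filter.mp ht).2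

/-- few `t` which hit all primes of a large squarefree number -/
theorem count_big (hf : f.Monic) (hd : f.natDegree = n) (hn : 1 ≤ n) {k : ℕ} (hk : 1 ≤ k) (T : ℤ)
    (hT : 0 ≤ T) (M : ℕ) (Y : ℝ) (hY : 0 < Y) (Z : Finset ℤ)
    (hZ : ∀ t ∈ Z, |t| ≤ T ∧ ∃ A : ℕ, Squarefree A ∧ A ≤ M ∧ Y < A ∧
      ∀ p ∈ A.primeFactors, Hit f k p t)
    {W : ℝ} (hW : ∀ A ∈ Icc 1 M, (n : ℝ) ^ A.primeFactors.card ≤ W) (hW0 : 0 ≤ W) :
    (Z.card : ℝ) ≤ W * ((2 * T + 1) / Y ^ (k - 1) * (∑ A ∈ Icc 1 M, 1 / (A : ℝ)) + M) := by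
  classical
  have hT' : (0 : ℝ) ≤ (T : ℝ) := by exact_mod_cast hT
  set I : Finset ℕ := (Icc 1 M).filter (fun A : ℕ => Squarefree A ∧ Y < (A : ℝ)) with hI
  have hsub : Z ⊆ I.biUnion (fun A => Z.filter fun t => ∀ p ∈ A.primeFactors, Hit f k p t) := by
    intro t ht
    obtain ⟨-, A, h1, h2, h3, h4⟩ := hZ t ht
    rw [mem_biUnion]
    refine ⟨A, ?_, mem_filter.mpr ⟨ht, h4⟩⟩
    rw [hI, mem_filter, mem_Icc]
    exact ⟨⟨Nat.pos_of_ne_zero h1.ne_zero, h2⟩, h1, h3⟩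
  have h1 : (Z.card : ℝ) ≤ ∑ A ∈ I, ((Z.filter fun t => ∀ p ∈ A.primeFactors, Hit f k p t).card : ℝ) := by
    exact_mod_cast (card_le_card hsub).trans card_biUnion_le
  refine h1.trans ?_
  have h2 : ∀ A ∈ I, ((Z.filter fun t => ∀ p ∈ A.primeFactors, Hit f k p t).card : ℝ) ≤
      W * ((2 * T + 1) / Y ^ (k - 1) * (1 / (A : ℝ)) + 1) := by
    intro A hA
    rw [hI, mem_filter] at hA
    obtain ⟨hA1, hA2, hA3⟩ := hA
    have hA0 : (0 : ℝ) < A := hY.trans hA3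
    refine (card_hits hf hd hn k T hT hA2 _ fun t ht => ?_).trans ?_
    · rw [mem_filter] at ht
      exact ⟨(hZ t ht.1).1, ht.2⟩
    · have h3 : (2 * (T : ℝ) + 1) / (A : ℝ) ^ k ≤ (2 * T + 1) / Y ^ (k - 1) * (1 / (A : ℝ)) := by
        rw [div_mul_div_comm, mul_one]
        apply div_le_div_of_nonneg_left (by linarith) (by positivity)
        have h4 : (A : ℝ) ^ k = (A : ℝ) ^ (k - 1) * A := by
          rw [← pow_succ]; congr 1; omega
        rw [h4]
        exact mul_le_mul_of_nonneg_right (pow_le_pow_left₀ hY.le hA3.le _) hA0.le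
      exact mul_le_mul (hW A hA1) (by linarith) (by positivity) hW0
  refine (sum_le_sum h2).trans ?_
  rw [← mul_sum, sum_add_distrib, ← mul_sum]
  apply mul_le_mul_of_nonneg_left _ hW0
  apply add_le_add
  · apply mul_le_mul_of_nonneg_left _ (by positivity)
    exact sum_le_sum_of_subset_of_nonneg (filter_subset _ _) fun A _ _ => by positivity
  · rw [sum_const, nsmul_eq_mul, mul_one]
    have := card_le_card (filter_subset (fun A : ℕ => Squarefree A ∧ Y < (A : ℝ)) (Icc 1 M))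
    rw [Nat.card_Icc, Nat.add_sub_cancel] at this
    exact_mod_cast this

end Pool.Agent.TH4.HS
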