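import Mathlib

/-!
# The discriminant of `f + t` as a function of `t`
-/

namespace Pool.Agent.TH4.HS

open Polynomial Finset

theorem geo {X y : ℝ} (hX : 0 < X) (hy : 2 * X < y) (N : ℕ) :
    ∑ k ∈ range N, X ^ (N - k) * y ^ k < y ^ N := by
  induction N with
  | zero => simp
  | succ N ih =>
    have h1 : ∑ k ∈ range (N + 1), X ^ (N + 1 - k) * y ^ k =
        X * (∑ k ∈ range N, X ^ (N - k) * y ^ k + y ^ N) := by
      rw [sum_range_succ, mul_add, mul_sum]
      congr 1
      · refine sum_congr rfl fun k hk => ?_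
        rw [mem_range] at hk
        have : N + 1 - k = (N - k) + 1 := by omega
        rw [this, pow_succ]; ring
      · have : N + 1 - N = 1 := by omega
        rw [this, pow_one]
    rw [h1]
    have hy0 : 0 < y := by linarith
    have h2 : 0 < y ^ N := pow_pos hy0 N
    calc X * (∑ k ∈ range N, X ^ (N - k) * y ^ k + y ^ N) < X * (y ^ N + y ^ N) := by
          apply mul_lt_mul_of_pos_left _ hX
          linarith
      _ = (2 * X) * y ^ N := by ring
      _ < y * y ^ N := mul_lt_mul_of_pos_right hy h2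
      _ = y ^ (N + 1) := by rw [pow_succ]; ring

variable {f : ℤ[X]} {n : ℕ}

/-- `f` over the complex numbers -/
noncomputable def fC (f : ℤ[X]) : ℂ[X] := f.map (Int.castRingHom ℂ)

theorem natDegree_deriv (hf : f.Monic) (hd : f.natDegree = n) (hn : 2 ≤ n) :
    (derivative (fC f)).natDegree = n - 1 ∧ (derivative (fC f)).leadingCoeff = n := by
  have h1 : (fC f).natDegree = n := by unfold fC; rw [hf.natDegree_map, hd]
  have h2 : (fC f).Monic := hf.map _
  have h3 := degree_derivative (p := fC f) (by omega)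
  have h4 : (derivative (fC f)).natDegree = n - 1 := by
    rw [natDegree_eq_of_degree_eq_some h3, h1]
  refine ⟨h4, ?_⟩
  rw [leadingCoeff, h4, coeff_derivative]
  have h5 : n - 1 + 1 = n := by omega
  have h6 : (fC f).coeff n = 1 := by rw [← h1]; exact h2.coeff_natDegree
  rw [h5, h6, one_mul]
  push_cast [Nat.cast_sub (by omega : 1 ≤ n)]
  ring

/-- roots of the derivative are small -/
theorem root_le (hf : f.Monic) (hd : f.natDegree = n) (hn : 2 ≤ n) {X : ℝ} (hX : 0 < X)
    (hc : ∀ i, i < n → |((f.coeff i : ℤ) : ℝ)| ≤ X ^ (n - i)) {c : ℂ}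
    (hr : (derivative (fC f)).eval c = 0) : ‖c‖ ≤ 2 * X := by
  by_contra hcon
  push Not at hcon
  obtain ⟨h1, h2⟩ := natDegree_deriv hf hd hn
  have h3 : (derivative (fC f)).eval c = ∑ k ∈ range (n - 1), (derivative (fC f)).coeff k * c ^ k +
      n * c ^ (n - 1) := by
    rw [eval_eq_sum_range, h1, sum_range_succ]
    congr 1
    rw [← h2, leadingCoeff, h1]
  rw [hr] at h3
  have h4 : (n : ℂ) * c ^ (n - 1) = -∑ k ∈ range (n - 1), (derivative (fC f)).coeff k * c ^ k := by
    linear_combination -h3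
  have h5 : (n : ℝ) * ‖c‖ ^ (n - 1) ≤ ∑ k ∈ range (n - 1), (n : ℝ) * (X ^ (n - 1 - k) * ‖c‖ ^ k) := by
    have h6 : ‖(n : ℂ) * c ^ (n - 1)‖ = (n : ℝ) * ‖c‖ ^ (n - 1) := by
      rw [norm_mul, norm_pow, Complex.norm_natCast]
    rw [← h6, h4, norm_neg]
    refine (norm_sum_le _ _).trans (sum_le_sum fun k hk => ?_)
    rw [mem_range] at hk
    rw [norm_mul, norm_pow, ← mul_assoc]
    refine mul_le_mul_of_nonneg_right ?_ (by positivity)
    rw [coeff_derivative, norm_mul]
    have h7 : ‖(fC f).coeff (k + 1)‖ ≤ X ^ (n - 1 - k) := by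
      unfold fC
      rw [coeff_map]
      have h8 : ‖(Int.castRingHom ℂ) (f.coeff (k + 1))‖ = |((f.coeff (k + 1) : ℤ) : ℝ)| := by
        simp
      rw [h8]
      have := hc (k + 1) (by omega)
      have h9 : n - (k + 1) = n - 1 - k := by omega
      rwa [h9] at this
    have h8 : ‖((k : ℂ) + 1)‖ ≤ n := by
      have : ((k : ℂ) + 1) = ((k + 1 : ℕ) : ℂ) := by push_cast; ring
      rw [this, Complex.norm_natCast]
      exact_mod_cast (by omega : k + 1 ≤ n)
    calc ‖(fC f).coeff (k + 1)‖ * ‖((k : ℂ) + 1)‖ ≤ X ^ (n - 1 - k) * n :=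
          mul_le_mul h7 h8 (norm_nonneg _) (by positivity)
      _ = n * X ^ (n - 1 - k) := by ring
  rw [← mul_sum] at h5
  have hn0 : (0 : ℝ) < n := by exact_mod_cast (by omega : 0 < n)
  have h6 := le_of_mul_le_mul_left h5 hn0
  have h7 := geo hX hcon (n - 1)
  linarith

/-- the values of `f + t` at the critical points are small -/
theorem value_le (hf : f.Monic) (hd : f.natDegree = n) (hn : 2 ≤ n) {X : ℝ} (hX : 0 < X)
    (hc : ∀ i, i < n → |((f.coeff i : ℤ) : ℝ)| ≤ X ^ (n - i)) {c : ℂ}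
    (hr : (derivative (fC f)).eval c = 0) {t : ℤ} (ht : |(t : ℝ)| ≤ X ^ n) :
    ‖(fC f).eval c + t‖ ≤ 3 * 2 ^ n * X ^ n := by
  have h1 := root_le hf hd hn hX hc hr
  have h2 : (fC f).natDegree = n := by unfold fC; rw [hf.natDegree_map, hd]
  have h3 : (fC f).coeff n = 1 := by rw [← h2]; exact (hf.map _ : (fC f).Monic).coeff_natDegree
  have h4 : ‖(fC f).eval c‖ ≤ ∑ k ∈ range n, X ^ (n - k) * (2 * X) ^ k + (2 * X) ^ n := by
    rw [eval_eq_sum_range, h2, sum_range_succ, h3, one_mul]
    refine (norm_add_le _ _).trans (add_le_add ?_ ?_)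
    · refine (norm_sum_le _ _).trans (sum_le_sum fun k hk => ?_)
      rw [mem_range] at hk
      rw [norm_mul, norm_pow]
      refine mul_le_mul ?_ (pow_le_pow_left₀ (norm_nonneg _) h1 _) (by positivity) (by positivity)
      unfold fC
      rw [coeff_map]
      have h8 : ‖(Int.castRingHom ℂ) (f.coeff k)‖ = |((f.coeff k : ℤ) : ℝ)| := by simp
      rw [h8]
      exact hc k hk
    · rw [norm_pow]
      exact pow_le_pow_left₀ (norm_nonneg _) h1 _
  have h5 : ∑ k ∈ range n, X ^ (n - k) * (2 * X) ^ k ≤ 2 ^ n * X ^ n := by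
    have h6 : ∀ k ∈ range n, X ^ (n - k) * (2 * X) ^ k = 2 ^ k * X ^ n := by
      intro k hk
      rw [mem_range] at hk
      rw [mul_pow]
      have : X ^ n = X ^ (n - k) * X ^ k := by rw [← pow_add]; congr 1; omega
      rw [this]; ring
    rw [sum_congr rfl h6, ← sum_mul]
    refine mul_le_mul_of_nonneg_right ?_ (by positivity)
    have h7 : ∀ m : ℕ, ∑ k ∈ range m, (2 : ℝ) ^ k ≤ 2 ^ m := by
      intro m
      induction m with
      | zero => simp
      | succ m ih => rw [sum_range_succ, pow_succ]; linarith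
    exact h7 n
  have h6 : ‖(t : ℂ)‖ = |(t : ℝ)| := by simp
  have h7 : X ^ n ≤ 2 ^ n * X ^ n := by
    have : (1 : ℝ) ≤ 2 ^ n := one_le_pow₀ (by norm_num)
    nlinarith [pow_pos hX n]
  calc ‖(fC f).eval c + t‖ ≤ ‖(fC f).eval c‖ + ‖(t : ℂ)‖ := norm_add_le _ _
    _ ≤ (∑ k ∈ range n, X ^ (n - k) * (2 * X) ^ k + (2 * X) ^ n) + X ^ n := by
        rw [h6]; exact add_le_add h4 ht
    _ ≤ (2 ^ n * X ^ n + 2 ^ n * X ^ n) + 2 ^ n * X ^ n := by
        rw [mul_pow]; linarith
    _ = 3 * 2 ^ n * X ^ n := by ring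

/-- the discriminant of `f + t` -/
theorem discr_eq (hf : f.Monic) (hd : f.natDegree = n) (hn : 2 ≤ n) (t : ℤ) :
    ((-1 : ℂ) ^ (n * (n - 1) / 2)) * (((f + C t).discr : ℤ) : ℂ) = (-1) ^ (n * (n - 1)) *
      ((n : ℂ) ^ n * ((derivative (fC f)).roots.map fun c => (fC f).eval c + t).prod) := by
  set F : ℂ[X] := fC (f + C t) with hF
  have hFm : (f + C t).Monic := by
    apply hf.add_of_left
    rw [degree_eq_natDegree hf.ne_zero, hd]
    exact lt_of_le_of_lt degree_C_le (by exact_mod_cast (by omega : 0 < n))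
  have hFd : (f + C t).natDegree = n := by rw [natDegree_add_C, hd]
  have h1 : F.natDegree = n := by rw [hF]; unfold fC; rw [hFm.natDegree_map, hFd]
  have h2 : F.Monic := hFm.map _
  have h3 : F = fC f + C (t : ℂ) := by
    rw [hF]; unfold fC
    rw [Polynomial.map_add, Polynomial.map_C]
    simp
  have h4 : derivative F = derivative (fC f) := by rw [h3, derivative_add, derivative_C, add_zero]
  have h5 := resultant_deriv (f := F) (natDegree_pos_iff_degree_pos.mp (by omega))
  obtain ⟨h6, h7⟩ := natDegree_deriv hf hd hn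
  have h8 := resultant_eq_prod_eval (derivative (fC f)) F n h1.le (IsAlgClosed.splits _)
  rw [h4, h1, h2.leadingCoeff, resultant_comm] at h5
  rw [h6, h7] at h8
  rw [h8] at h5
  have h9 : F.discr = (((f + C t).discr : ℤ) : ℂ) := by
    have hdd : 0 < (f + C t).natDegree := by omega
    have e1 := resultant_deriv (natDegree_pos_iff_degree_pos.mp hdd)
    have e2 := resultant_deriv (f := F) (natDegree_pos_iff_degree_pos.mp (by omega))
    have e3 : derivative F = (derivative (f + C t)).map (Int.castRingHom ℂ) := by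
      rw [hF]; unfold fC; rw [derivative_map]
    rw [e3, h1] at e2
    have e4 : F = (f + C t).map (Int.castRingHom ℂ) := hF
    rw [e4, resultant_map_map] at e2
    rw [hFd] at e1
    rw [e1] at e2
    rw [← e4, h2.leadingCoeff, hFm.leadingCoeff] at e2
    simp only [mul_one, map_mul, map_pow, map_neg, map_one] at e2
    exact (mul_left_cancel₀ (pow_ne_zero _ (by norm_num)) e2).symm
  rw [h9, mul_one] at h5
  rw [← h5]
  congr 2
  rw [h3]
  simp

end Pool.Agent.TH4.HS
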