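import Pool.Agent.TH4.HS.Dich
import Pool.Agent.TH4.HS.Sh

/-!
# Critical points of high multiplicity
-/

namespace Pool.Agent.TH4.HS

open Polynomial Finset

variable {f : ℤ[X]} {g n : ℕ}

theorem coeff_comp_affine' {S : Type*} [CommRing S] (F : S[X]) (α β : S) (j : ℕ) :
    (F.comp (C α * X + C β)).coeff j = (hasseDeriv j F).eval β * α ^ j := by
  have h1 : F.comp (C α * X + C β) = (taylor β F).comp (C α * X) := by
    rw [taylor_apply, comp_assoc]
    simp
  rw [h1, comp_C_mul_X_coeff, taylor_coeff]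

/-- `n^n f(x / n)` -/
noncomputable def sc (n : ℕ) (f : ℤ[X]) : ℤ[X] := scaleRoots f (n : ℤ)

theorem sc_coeff (hd : f.natDegree = n) (i : ℕ) :
    (sc n f).coeff i = f.coeff i * (n : ℤ) ^ (n - i) := by
  unfold sc
  rw [coeff_scaleRoots, hd]

theorem sc_comp (hd : f.natDegree = n) :
    (sc n f).comp (C (n : ℤ) * X) = C ((n : ℤ) ^ n) * f := by
  ext i
  rw [comp_C_mul_X_coeff, sc_coeff hd, coeff_C_mul]
  by_cases hi : i ≤ n
  · have : (n : ℤ) ^ n = (n : ℤ) ^ (n - i) * (n : ℤ) ^ i := by rw [← pow_add]; congr 1; omega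
    rw [this]; ring
  · rw [coeff_eq_zero_of_natDegree_lt (by omega)]
    ring

theorem exists_H (hf : f.Monic) (hd : f.natDegree = n) (hn : 2 ≤ n) :
    ∃ H : ℤ[X], H.Monic ∧ H.natDegree = n - 1 ∧ derivative (sc n f) = C (n : ℤ) * H := by
  have hn0 : (n : ℤ) ≠ 0 := by exact_mod_cast (by omega : n ≠ 0)
  have h1 : C (n : ℤ) ∣ derivative (sc n f) := by
    rw [C_dvd_iff_dvd_coeff]
    intro i
    rw [coeff_derivative, sc_coeff hd]
    rcases lt_trichotomy (i + 1) n with h | h | h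
    · have : (n : ℤ) ∣ (n : ℤ) ^ (n - (i + 1)) := dvd_pow_self _ (by omega)
      exact (this.mul_left _).mul_right _
    · have : ((i : ℤ) + 1) = n := by exact_mod_cast h
      rw [this]
      exact dvd_mul_left _ _
    · rw [coeff_eq_zero_of_natDegree_lt (by omega)]
      simp
  obtain ⟨H, hH⟩ := h1
  have hFm : (sc n f).Monic := (monic_scaleRoots_iff _).mpr hf
  have hFd : (sc n f).natDegree = n := by unfold sc; rw [natDegree_scaleRoots, hd]
  have hdeg : (derivative (sc n f)).natDegree = n - 1 := by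
    have := degree_derivative (p := sc n f) (by omega)
    rw [natDegree_eq_of_degree_eq_some this, hFd]
  have hHd : H.natDegree = n - 1 := by
    rw [← hdeg, hH, natDegree_C_mul hn0]
  refine ⟨H, ?_, hHd, hH⟩
  have h2 : (derivative (sc n f)).coeff (n - 1) = n := by
    rw [coeff_derivative]
    have h3 : n - 1 + 1 = n := by omega
    have h4 : (sc n f).coeff n = 1 := by
      have := hFm.coeff_natDegree
      rwa [hFd] at this
    rw [h3, h4]
    push_cast [Nat.cast_sub (by omega : 1 ≤ n)]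
    ring
  rw [hH, coeff_C_mul] at h2
  have h3 : H.coeff (n - 1) = 1 := mul_left_cancel₀ hn0 (by rw [h2, mul_one])
  rw [Monic, leadingCoeff, hHd, h3]

theorem hasse_sc (hd : f.natDegree = n) (j : ℕ) (r : ℤ) :
    (hasseDeriv j (sc n f)).eval (n * r) * (n : ℤ) ^ j = (n : ℤ) ^ n * (hasseDeriv j f).eval r := by
  have h1 : (sc n f).comp (C (n : ℤ) * X + C (n * r)) = (C ((n : ℤ) ^ n) * f).comp (X + C r) := by
    rw [← sc_comp hd, comp_assoc]
    congr 1
    simp [mul_add]
  have h2 := congrArg (fun P => P.coeff j) h1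
  rw [coeff_comp_affine'] at h2
  rw [h2, mul_comp, C_comp, coeff_C_mul]
  congr 1
  have := coeff_comp_affine' f 1 r j
  rw [C_1, one_mul, one_pow, mul_one] at this
  exact this

theorem hasse_H {H : ℤ[X]} (hH : derivative (sc n f) = C (n : ℤ) * H) (d : ℕ) (x : ℤ) :
    (n : ℤ) * (hasseDeriv d H).eval x = (d + 1) * (hasseDeriv (d + 1) (sc n f)).eval x := by
  have h1 := congrArg (fun P => (hasseDeriv d P).eval x) hH
  have h2 : hasseDeriv d (derivative (sc n f)) = (d + 1) • hasseDeriv (d + 1) (sc n f) := by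
    have h3 := LinearMap.congr_fun (hasseDeriv_comp (R := ℤ) d 1) (sc n f)
    rw [LinearMap.comp_apply, hasseDeriv_one', Nat.choose_symm_add, Nat.choose_one_right] at h3
    exact h3
  rw [h2, ← smul_eq_C_mul, LinearMap.map_smul, eval_smul, eval_smul] at h1
  rw [smul_eq_mul, nsmul_eq_mul] at h1
  push_cast at h1
  linarith

theorem hasse_add_C {j : ℕ} (hj : 1 ≤ j) (t : ℤ) : hasseDeriv j (f + C t) = hasseDeriv j f := by
  rw [map_add, hasseDeriv_C _ _ hj, add_zero]

/-- the critical point of high multiplicity modulo `p` -/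
theorem deep_mult {p : ℕ} [hp : Fact p.Prime] (hpn : ¬ p ∣ n) (hd : f.natDegree = n) {H : ℤ[X]}
    (hH : derivative (sc n f) = C (n : ℤ) * H) {t r : ℤ}
    (h : ∀ j ≤ g + 1, (p : ℤ) ^ (g + 2 - j) ∣ (hasseDeriv j (f + C t)).eval r) :
    (X - C (((n * r : ℤ)) : ZMod p)) ^ (g + 1) ∣ H.map (Int.castRingHom (ZMod p)) := by
  have hpi : Prime (p : ℤ) := Nat.prime_iff_prime_int.mp hp.out
  have hpn' : ¬ (p : ℤ) ∣ (n : ℤ) := fun h => hpn (Int.natCast_dvd_natCast.mp h)
  rw [X_sub_C_pow_dvd_iff, X_pow_dvd_iff]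
  intro d hdg
  have h1 := coeff_comp_affine' (H.map (Int.castRingHom (ZMod p))) 1 (((n * r : ℤ)) : ZMod p) d
  rw [C_1, one_mul, one_pow, mul_one] at h1
  rw [h1]
  have h2 : (hasseDeriv d (H.map (Int.castRingHom (ZMod p)))) =
      (hasseDeriv d H).map (Int.castRingHom (ZMod p)) := by
    ext i
    rw [coeff_map, hasseDeriv_coeff, hasseDeriv_coeff, coeff_map]
    simp
  rw [h2]
  have h3 : (((n * r : ℤ)) : ZMod p) = (Int.castRingHom (ZMod p)) (n * r) := rfl
  rw [h3, eval_map, eval₂_hom]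
  have h4 : (p : ℤ) ∣ (hasseDeriv d H).eval (n * r) := by
    have h5 := h (d + 1) (by omega)
    rw [hasse_add_C (by omega)] at h5
    have h6 : (p : ℤ) ∣ (hasseDeriv (d + 1) f).eval r :=
      (dvd_pow_self _ (by omega)).trans h5
    have h7 : (p : ℤ) ∣ (hasseDeriv (d + 1) (sc n f)).eval (n * r) := by
      have h8 : (p : ℤ) ∣ (hasseDeriv (d + 1) (sc n f)).eval (n * r) * (n : ℤ) ^ (d + 1) := by
        rw [hasse_sc hd]
        exact h6.mul_left _
      rcases hpi.dvd_or_dvd h8 with h9 | h9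
      · exact h9
      · exact absurd (hpi.dvd_of_dvd_pow h9) hpn'
    have h8 : (p : ℤ) ∣ (n : ℤ) * (hasseDeriv d H).eval (n * r) := by
      rw [hasse_H hH]
      exact h7.mul_left _
    rcases hpi.dvd_or_dvd h8 with h9 | h9
    · exact absurd h9 hpn'
    · exact h9
  exact (ZMod.intCast_zmod_eq_zero_iff_dvd _ _).mpr h4

/-- case of a rational critical point of high multiplicity -/
theorem deep_tau {p : ℕ} [hp : Fact p.Prime] (hpn : ¬ p ∣ n) (hd : f.natDegree = n)
    (hn : 1 ≤ n) (hng : n ≤ 2 * g + 2) {H : ℤ[X]} (hHm : H.Monic) (hHd : H.natDegree = n - 1)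
    (hH : derivative (sc n f) = C (n : ℤ) * H) {c : ℤ} (hc : (X - C c) ^ (g + 1) ∣ H) {t r : ℤ}
    (h : ∀ j ≤ g + 1, (p : ℤ) ^ (g + 2 - j) ∣ (hasseDeriv j (f + C t)).eval r) :
    (p : ℤ) ^ (g + 2) ∣ (sc n f).eval c + (n : ℤ) ^ n * t := by
  have hn0 : (n : ℤ) ≠ 0 := by exact_mod_cast (by omega : n ≠ 0)
  have h1 := deep_mult (g := g) hpn hd hH h
  set φ := Int.castRingHom (ZMod p) with hφ
  have h2 : (X - C (φ c)) ^ (g + 1) ∣ H.map φ := by
    have := Polynomial.map_dvd φ hc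
    rwa [Polynomial.map_pow, Polynomial.map_sub, map_X, Polynomial.map_C] at this
  have h3 : (p : ℤ) ∣ n * r - c := by
    by_contra hcon
    have h4 : (((n * r : ℤ)) : ZMod p) - φ c ≠ 0 := by
      intro h0
      apply hcon
      have : ((n * r - c : ℤ) : ZMod p) = 0 := by
        rw [Int.cast_sub]
        exact h0
      exact (ZMod.intCast_zmod_eq_zero_iff_dvd _ _).mp this
    have h5 : IsCoprime (X - C (((n * r : ℤ)) : ZMod p)) (X - C (φ c)) :=
      isCoprime_X_sub_C_of_isUnit_sub (isUnit_iff_ne_zero.mpr h4)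
    have h6 := (h5.pow (m := g + 1) (n := g + 1)).mul_dvd h1 h2
    have hHb : (H.map φ).Monic := hHm.map _
    have h7 := natDegree_le_of_dvd h6 hHb.ne_zero
    rw [natDegree_mul (pow_ne_zero _ (X_sub_C_ne_zero _)) (pow_ne_zero _ (X_sub_C_ne_zero _)),
      natDegree_pow, natDegree_pow, natDegree_X_sub_C, natDegree_X_sub_C, hHm.natDegree_map,
      hHd] at h7
    omega
  -- Taylor expansion at `c`
  have h4 : (X - C c) ^ (g + 2) ∣ sc n f - C ((sc n f).eval c) := by
    rw [X_sub_C_pow_dvd_iff, X_pow_dvd_iff]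
    intro j hj
    have e1 := coeff_comp_affine' (sc n f - C ((sc n f).eval c)) 1 c j
    rw [C_1, one_mul, one_pow, mul_one] at e1
    rw [e1]
    rcases Nat.eq_zero_or_pos j with rfl | hj0
    · simp
    · rw [map_sub, hasseDeriv_C _ _ hj0, sub_zero]
      obtain ⟨d, rfl⟩ : ∃ d, j = d + 1 := ⟨j - 1, by omega⟩
      have e2 := hasse_H hH d c
      have e3 : (hasseDeriv d H).eval c = 0 := by
        rw [X_sub_C_pow_dvd_iff, X_pow_dvd_iff] at hc
        have e4 := hc d (by omega)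
        have e5 := coeff_comp_affine' H 1 c d
        rw [C_1, one_mul, one_pow, mul_one] at e5
        rw [← e5]
        exact e4
      rw [e3, mul_zero] at e2
      have e6 : ((d : ℤ) + 1) ≠ 0 := by positivity
      exact (mul_eq_zero.mp e2.symm).resolve_left e6
  obtain ⟨E, hE⟩ := h4
  have h5 := congrArg (fun P => P.eval ((n : ℤ) * r)) hE
  simp only [eval_sub, eval_C, eval_mul, eval_pow, eval_X] at h5
  have h6 : (p : ℤ) ^ (g + 2) ∣ (sc n f).eval ((n : ℤ) * r) - (sc n f).eval c := by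
    rw [h5]
    exact (pow_dvd_pow_of_dvd h3 _).mul_right _
  have h7 : (sc n f).eval ((n : ℤ) * r) = (n : ℤ) ^ n * f.eval r := by
    have := hasse_sc hd 0 r
    rw [pow_zero, mul_one, hasseDeriv_zero', hasseDeriv_zero'] at this
    exact this
  have h8 : (p : ℤ) ^ (g + 2) ∣ f.eval r + t := by
    have := h 0 (by omega)
    rw [hasseDeriv_zero', Nat.sub_zero, eval_add, eval_C] at this
    exact this
  have h9 : (sc n f).eval c + (n : ℤ) ^ n * t =
      (n : ℤ) ^ n * (f.eval r + t) - ((sc n f).eval ((n : ℤ) * r) - (sc n f).eval c) := by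
    rw [h7]; ring
  rw [h9]
  exact dvd_sub (h8.mul_left _) h6

/-- roots of `H` over the complex numbers -/
theorem root_H (hn : 2 ≤ n) (hd : f.natDegree = n) {H : ℤ[X]}
    (hH : derivative (sc n f) = C (n : ℤ) * H) {z : ℂ}
    (hz : (H.map (Int.castRingHom ℂ)).eval z = 0) : (derivative (fC f)).eval (z / n) = 0 := by
  have hn0 : (n : ℂ) ≠ 0 := by exact_mod_cast (by omega : n ≠ 0)
  have h1 := congrArg (fun P => (derivative P).map (Int.castRingHom ℂ)) (sc_comp hd)
  simp only [derivative_comp, hH, derivative_mul, derivative_C, derivative_X, zero_mul, zero_add,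
    mul_one, Polynomial.map_mul, Polynomial.map_C, Polynomial.map_comp, Polynomial.map_X] at h1
  have h2 := congrArg (fun P => P.eval (z / n)) h1
  simp only [eval_mul, eval_C, eval_comp, eval_X] at h2
  have h3 : (Int.castRingHom ℂ) (n : ℤ) * (z / n) = z := by
    simp only [eq_intCast, Int.cast_natCast]
    field_simp
  rw [h3, hz, mul_zero, mul_zero] at h2
  have h4 : (Int.castRingHom ℂ) ((n : ℤ) ^ n) ≠ 0 := by
    simp only [eq_intCast, Int.cast_pow, Int.cast_natCast]
    exact pow_ne_zero _ hn0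
  have h5 := (mul_eq_zero.mp h2.symm).resolve_left h4
  unfold fC
  rw [derivative_map]
  exact h5

/-- the size of `n^n (f(c / n) + t)` -/
theorem tau_le (hf : f.Monic) (hd : f.natDegree = n) (hn : 2 ≤ n) {X : ℝ} (hX : 0 < X)
    (hc : ∀ i, i < n → |((f.coeff i : ℤ) : ℝ)| ≤ X ^ (n - i)) {H : ℤ[X]}
    (hH : derivative (sc n f) = C (n : ℤ) * H) {c : ℤ} (hcr : H.eval c = 0) {t : ℤ}
    (ht : |(t : ℝ)| ≤ X ^ n) :
    (((sc n f).eval c + (n : ℤ) ^ n * t).natAbs : ℝ) ≤ n ^ n * (3 * 2 ^ n * X ^ n) := by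
  have hn0 : (n : ℂ) ≠ 0 := by exact_mod_cast (by omega : n ≠ 0)
  have h1 : (H.map (Int.castRingHom ℂ)).eval ((c : ℤ) : ℂ) = 0 := by
    have : ((c : ℤ) : ℂ) = (Int.castRingHom ℂ) c := rfl
    rw [this, eval_map, eval₂_hom, hcr, map_zero]
  have h2 := value_le hf hd hn hX hc (root_H hn hd hH h1) ht
  have h3 : (((sc n f).eval c : ℤ) : ℂ) = (n : ℂ) ^ n * (fC f).eval ((c : ℂ) / n) := by
    have h4 := congrArg (fun P => (P.map (Int.castRingHom ℂ)).eval ((c : ℂ) / n)) (sc_comp hd)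
    simp only [Polynomial.map_mul, Polynomial.map_C, Polynomial.map_comp, Polynomial.map_X,
      eval_mul, eval_C, eval_comp, eval_X] at h4
    have h5 : (Int.castRingHom ℂ) (n : ℤ) * ((c : ℂ) / n) = (Int.castRingHom ℂ) c := by
      simp only [eq_intCast, Int.cast_natCast]
      field_simp
    rw [h5, eval_map, eval₂_hom] at h4
    unfold fC
    simpa using h4
  have h4 : ((((sc n f).eval c + (n : ℤ) ^ n * t) : ℤ) : ℂ) =
      (n : ℂ) ^ n * ((fC f).eval ((c : ℂ) / n) + t) := by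
    push_cast
    rw [h3]
    ring
  have h5 : (((sc n f).eval c + (n : ℤ) ^ n * t).natAbs : ℝ) =
      ‖((((sc n f).eval c + (n : ℤ) ^ n * t) : ℤ) : ℂ)‖ := by
    rw [Complex.norm_intCast, Nat.cast_natAbs, Int.cast_abs]
  rw [h5, h4, norm_mul, norm_pow, Complex.norm_natCast]
  exact mul_le_mul_of_nonneg_left h2 (by positivity)

/-- the size of the resultant -/
theorem res_le' (hf : f.Monic) (hd : f.natDegree = n) (hn : 2 ≤ n) {X : ℝ} (hX : 1 ≤ X)
    (hc : ∀ i, i < n → |((f.coeff i : ℤ) : ℝ)| ≤ X ^ (n - i)) {H R : ℤ[X]}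
    (hHm : H.Monic) (hHd : H.natDegree = n - 1)
    (hH : derivative (sc n f) = C (n : ℤ) * H) (hRm : R.Monic) (hRH : R ∣ H) :
    ((res R).natAbs : ℝ) ≤ (4 * n * X) ^ (n * n) := by
  have hn' : (2 : ℝ) ≤ n := by exact_mod_cast hn
  have hn0 : (n : ℂ) ≠ 0 := by exact_mod_cast (by omega : n ≠ 0)
  have h1 := res_le hRm (L := 2 * n * X) (by positivity) fun z hz => by
    have h2 : (H.map (Int.castRingHom ℂ)).eval z = 0 := by
      obtain ⟨S, hS⟩ := hRH
      rw [hS, Polynomial.map_mul, eval_mul, hz, zero_mul]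
    have h3 := root_le hf hd hn (by linarith) hc (root_H hn hd hH h2)
    rw [norm_div, Complex.norm_natCast, div_le_iff₀ (by positivity)] at h3
    linarith
  have hRd : R.natDegree ≤ n - 1 := by
    rw [← hHd]; exact natDegree_le_of_dvd hRH hHm.ne_zero
  have h4 : (1 : ℝ) ≤ 4 * n * X := by nlinarith
  refine h1.trans ?_
  have h5 : 2 * (2 * (n : ℝ) * X) = 4 * n * X := by ring
  rw [h5, ← pow_mul]
  apply pow_le_pow_right₀ h4
  exact Nat.mul_le_mul (by omega) (by omega)

end Pool.Agent.TH4.HS
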