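import Pool.Agent.TH4.HS.Cnt
import Pool.Agent.TH4.HS.Crit
import Pool.Agent.TH4.HS.Glob2

/-!
# Few `t` hit all primes of a large squarefree number
-/

namespace Pool.Agent.TH4.HS

open Polynomial Finset

variable {f : ℤ[X]} {g n : ℕ}

theorem card_sqf_div (N : ℕ) :
    (N.divisors.filter fun A => Squarefree A).card ≤ 2 ^ N.primeFactors.card := by
  classical
  rw [← card_powerset]
  apply card_le_card_of_injOn (fun A => A.primeFactors)
  · intro A hA
    rw [mem_coe, mem_filter, Nat.mem_divisors] at hA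
    rw [mem_coe, mem_powerset]
    exact Nat.primeFactors_mono hA.1.1 hA.1.2
  · intro A hA A' hA' h
    rw [mem_coe, mem_filter] at hA hA'
    have h1 := Nat.prod_primeFactors_of_squarefree hA.2
    have h2 := Nat.prod_primeFactors_of_squarefree hA'.2
    have h3 : A.primeFactors = A'.primeFactors := h
    rw [← h1, ← h2, h3]

theorem count_div (hf : f.Monic) (hd : f.natDegree = n) (hn : 1 ≤ n) {k : ℕ} (T : ℤ)
    (hT : 0 ≤ T) (N : ℕ) (hN : N ≠ 0) (Y : ℝ) (hY : 0 < Y) (Z : Finset ℤ)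
    (hZ : ∀ t ∈ Z, |t| ≤ T ∧ ∃ A : ℕ, Squarefree A ∧ A ∣ N ∧ Y < A ∧
      ∀ p ∈ A.primeFactors, Hit f k p t) :
    (Z.card : ℝ) ≤ (2 * n : ℝ) ^ N.primeFactors.card * ((2 * T + 1) / Y ^ k + 1) := by
  classical
  have hT' : (0 : ℝ) ≤ (T : ℝ) := by exact_mod_cast hT
  have hn' : (1 : ℝ) ≤ n := by exact_mod_cast hn
  set I : Finset ℕ := (N.divisors.filter fun A => Squarefree A).filter fun A : ℕ => Y < (A : ℝ) with hI
  have hsub : Z ⊆ I.biUnion (fun A => Z.filter fun t => ∀ p ∈ A.primeFactors, Hit f k p t) := by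
    intro t ht
    obtain ⟨-, A, h1, h2, h3, h4⟩ := hZ t ht
    rw [mem_biUnion]
    refine ⟨A, ?_, mem_filter.mpr ⟨ht, h4⟩⟩
    rw [hI, mem_filter, mem_filter, Nat.mem_divisors]
    exact ⟨⟨⟨h2, hN⟩, h1⟩, h3⟩
  have h1 : (Z.card : ℝ) ≤ ∑ A ∈ I, ((Z.filter fun t => ∀ p ∈ A.primeFactors, Hit f k p t).card : ℝ) := by
    exact_mod_cast (card_le_card hsub).trans card_biUnion_le
  refine h1.trans ?_
  have h2 : ∀ A ∈ I, ((Z.filter fun t => ∀ p ∈ A.primeFactors, Hit f k p t).card : ℝ) ≤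
      (n : ℝ) ^ N.primeFactors.card * ((2 * T + 1) / Y ^ k + 1) := by
    intro A hA
    rw [hI, mem_filter, mem_filter, Nat.mem_divisors] at hA
    obtain ⟨⟨⟨hA1, -⟩, hA2⟩, hA3⟩ := hA
    have hA0 : (0 : ℝ) < A := hY.trans hA3
    refine (card_hits hf hd hn k T hT hA2 _ fun t ht => ?_).trans ?_
    · rw [mem_filter] at ht
      exact ⟨(hZ t ht.1).1, ht.2⟩
    · have h3 : (2 * (T : ℝ) + 1) / (A : ℝ) ^ k ≤ (2 * T + 1) / Y ^ k :=
        div_le_div_of_nonneg_left (by linarith) (by positivity) (pow_le_pow_left₀ hY.le hA3.le _)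
      have h4 : A.primeFactors.card ≤ N.primeFactors.card :=
        card_le_card (Nat.primeFactors_mono hA1 hN)
      exact mul_le_mul (pow_le_pow_right₀ hn' h4) (by linarith) (by positivity) (by positivity)
  refine (sum_le_sum h2).trans ?_
  rw [sum_const, nsmul_eq_mul, mul_pow, mul_assoc]
  have h3 : (I.card : ℝ) ≤ 2 ^ N.primeFactors.card := by
    have := (card_le_card (filter_subset (fun A : ℕ => Y < (A : ℝ))
      (N.divisors.filter fun A => Squarefree A))).trans (card_sqf_div N)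
    exact_mod_cast this
  exact mul_le_mul_of_nonneg_right h3 (by positivity)

/-- the constant -/
noncomputable def K5 (g n : ℕ) : ℝ := (n : ℝ) ^ (g + 2) * ((n : ℝ) ^ n * (3 * 2 ^ n))

theorem one_le_K5 (hn : 1 ≤ n) : 1 ≤ K5 g n := by
  unfold K5
  have h1 : (1 : ℝ) ≤ n := by exact_mod_cast hn
  have h2 : (1 : ℝ) ≤ 3 * 2 ^ n := by
    have : (1 : ℝ) ≤ 2 ^ n := one_le_pow₀ (by norm_num)
    linarith
  exact one_le_mul_of_one_le_of_one_le (one_le_pow₀ h1)
    (one_le_mul_of_one_le_of_one_le (one_le_pow₀ h1) h2)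

/-- either `f` has a rational critical point of high multiplicity, or all the primes in question
divide a fixed number -/
theorem crit_cases (hg : 2 ≤ g) (hn : n = 2 * g + 1 ∨ n = 2 * g + 2) (hf : f.Monic)
    (hd : f.natDegree = n) {B : ℝ} (hB : 1 ≤ B)
    (hcf : ∀ i, i < n → |((f.coeff i : ℤ) : ℝ)| ≤ B ^ (n - i)) :
    (∃ a : ℤ, ∀ t : ℤ, |(t : ℝ)| ≤ B ^ n → a + (n : ℤ) ^ n * t ≠ 0 → ∀ A : ℕ, Squarefree A →
      (∀ p ∈ A.primeFactors, Deep f g p t) → (A : ℝ) ^ (g + 2) ≤ K5 g n * B ^ n) ∨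
    (∃ N : ℕ, N ≠ 0 ∧ (N : ℝ) ≤ n * (4 * n * B) ^ (n * n) ∧ ∀ (t : ℤ) (A : ℕ), Squarefree A →
      (∀ p ∈ A.primeFactors, Deep f g p t) → A ∣ N) := by
  classical
  obtain ⟨H, hHm, hHd, hH⟩ := exists_H hf hd (by omega)
  rcases dichotomy (g := g) (m := n - 1) (by omega) hHm hHd with ⟨c, hc⟩ | ⟨R, hRm, hRH, hHR, hsq⟩
  · left
    refine ⟨(sc n f).eval c, fun t ht hne A hA hdeep => ?_⟩
    have hcr : H.eval c = 0 := by
      obtain ⟨S, hS⟩ := (dvd_pow_self (X - C c) (Nat.succ_ne_zero g)).trans hc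
      rw [hS, eval_mul, eval_sub, eval_X, eval_C, sub_self, zero_mul]
    set τ : ℤ := (sc n f).eval c + (n : ℤ) ^ n * t with hτ
    set c1 := A.primeFactors.filter fun p => ¬ p ∣ n with hc1
    set c2 := A.primeFactors.filter fun p => p ∣ n with hc2
    have hAeq : A = (∏ p ∈ c2, p) * ∏ p ∈ c1, p := by
      rw [hc1, hc2, Finset.prod_filter_mul_prod_filter_not]
      exact (Nat.prod_primeFactors_of_squarefree hA).symm
    have hc2le : ∏ p ∈ c2, p ≤ n := by
      apply Nat.le_of_dvd (by omega)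
      apply Finset.prod_primes_dvd
      · intro p hp
        exact (Nat.prime_of_mem_primeFactors (Finset.mem_filter.mp hp).1).prime
      · intro p hp
        exact (Finset.mem_filter.mp hp).2
    have hc1p : ∀ p ∈ c1, p.Prime := fun p hp =>
      Nat.prime_of_mem_primeFactors (Finset.mem_filter.mp hp).1
    have h1 : (((∏ p ∈ c1, p) ^ (g + 2) : ℕ) : ℤ) ∣ τ := by
      have h2 : (((∏ p ∈ c1, p) ^ (g + 2) : ℕ) : ℤ) = ∏ p ∈ c1, (p : ℤ) ^ (g + 2) := by
        rw [Finset.prod_pow]; push_cast; rfl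
      rw [h2]
      apply Finset.prod_dvd_of_coprime
      · intro p hp q hq hpq
        apply IsCoprime.pow
        exact Nat.isCoprime_iff_coprime.mpr ((Nat.coprime_primes (hc1p p hp) (hc1p q hq)).mpr hpq)
      · intro p hp
        have : Fact p.Prime := ⟨hc1p p hp⟩
        obtain ⟨hp1, hp2⟩ := Finset.mem_filter.mp hp
        obtain ⟨r, hr⟩ := hdeep p hp1
        exact deep_tau hp2 hd (by omega) (by omega) hHm hHd hH hc hr
    have h2 : (∏ p ∈ c1, p) ^ (g + 2) ≤ τ.natAbs :=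
      Nat.le_of_dvd (Nat.pos_of_ne_zero (Int.natAbs_ne_zero.mpr hne)) (Int.natCast_dvd.mp h1)
    have h3 := tau_le hf hd (by omega) (by linarith : 0 < B) hcf hH hcr ht
    have h4 : ((∏ p ∈ c1, p : ℕ) : ℝ) ^ (g + 2) ≤ (n : ℝ) ^ n * (3 * 2 ^ n * B ^ n) := by
      calc ((∏ p ∈ c1, p : ℕ) : ℝ) ^ (g + 2) ≤ (τ.natAbs : ℝ) := by exact_mod_cast h2
        _ ≤ _ := h3
    calc (A : ℝ) ^ (g + 2) = ((∏ p ∈ c2, p : ℕ) : ℝ) ^ (g + 2) * ((∏ p ∈ c1, p : ℕ) : ℝ) ^ (g + 2) := by
          rw [← mul_pow, ← Nat.cast_mul, ← hAeq]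
      _ ≤ (n : ℝ) ^ (g + 2) * ((n : ℝ) ^ n * (3 * 2 ^ n * B ^ n)) := by
          apply mul_le_mul _ h4 (by positivity) (by positivity)
          exact pow_le_pow_left₀ (by positivity) (by exact_mod_cast hc2le) _
      _ = K5 g n * B ^ n := by unfold K5; ring
  · right
    have hRd : 1 ≤ R.natDegree := by
      by_contra hcon
      have h1 : R = 1 := hRm.natDegree_eq_zero.mp (by omega)
      rw [h1, one_pow] at hHR
      have h2 := natDegree_le_of_dvd hHR one_ne_zero
      rw [natDegree_one, hHd] at h2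
      omega
    have hres := res_ne_zero hRm hRd hsq
    refine ⟨n * (res R).natAbs, mul_ne_zero (by omega) (Int.natAbs_ne_zero.mpr hres), ?_, ?_⟩
    · rw [Nat.cast_mul]
      exact mul_le_mul_of_nonneg_left (res_le' hf hd (by omega) hB hcf hHm hHd hH hRm hRH)
        (by positivity)
    · intro t A hA hdeep
      rw [← Nat.prod_primeFactors_of_squarefree hA]
      apply Finset.prod_primes_dvd
      · intro p hp
        exact (Nat.prime_of_mem_primeFactors hp).prime
      · intro p hp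
        have hpp := Nat.prime_of_mem_primeFactors hp
        have : Fact p.Prime := ⟨hpp⟩
        by_cases hpn : p ∣ n
        · exact hpn.mul_right _
        · obtain ⟨r, hr⟩ := hdeep p hp
          have h1 := deep_mult (g := g) hpn hd hH hr
          exact (Int.natCast_dvd.mp (local_mult hRm hHR h1)).mul_left _

end Pool.Agent.TH4.HS
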