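import Pool.Agent.TH4.HS.Loc
import Pool.Agent.W318.LocalIneq

/-!
# Leading coefficients of integral forms with unit discriminant
-/

namespace Pool.Agent.TH4.HS

open Polynomial NumberField IsDedekindDomain WithZero Pool.Agent.W318 Finset

theorem one_of_prod {ι : Type*} [DecidableEq ι] {s : Finset ι} {f : ι → ℝ} (h0 : ∀ i ∈ s, 0 ≤ f i)
    (h1 : ∀ i ∈ s, f i ≤ 1) (hp : 1 ≤ ∏ i ∈ s, f i) {i : ι} (hi : i ∈ s) : f i = 1 := by
  apply le_antisymm (h1 i hi)
  rw [← Finset.mul_prod_erase s f hi] at hp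
  have h2 : ∏ j ∈ s.erase i, f j ≤ 1 :=
    Finset.prod_le_one (fun j hj => h0 j (Finset.mem_of_mem_erase hj))
      fun j hj => h1 j (Finset.mem_of_mem_erase hj)
  have h3 := h0 i hi
  nlinarith

variable (v : HeightOneSpectrum (𝓞 ℚ))

theorem lead_of_unit {h : ℕ} (hh : 2 ≤ h) {G : ℚ[X]} (hG : GoodForm h G) (hint : IntP v G)
    (hd : absW v (discN (h + h) G) = 1) :
    absW v (G.coeff (h + h)) = 1 ∨ absW v (G.coeff (h + h - 1)) = 1 := by
  classical
  obtain ⟨M, _, _, _, _, _, _, hsplit⟩ := exists_bigField (K := ℚ) (L := ℚ) G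
  obtain ⟨W, hW⟩ := exists_prime_over (M := M) v
  set e := v.asIdeal.ramificationIdx' W.asIdeal with he
  have he1 : 1 ≤ e := ram_pos v W
  have hkey : ∀ x : ℚ, absW W (algebraMap ℚ M x) = absW v x ^ e := by
    intro x
    rcases eq_or_ne x 0 with rfl | hx
    · rw [map_zero, map_zero, map_zero, zero_pow (by omega)]
    · obtain ⟨k, hk⟩ := exists_exp v hx
      rw [absW_exp v hk, absW_exp W (absW_liesOver v W hk), ← zpow_natCast, ← zpow_mul]
      congr 1
      ring
  have hle1 : ∀ i, absW v (G.coeff i) ≤ 1 := fun i => (absW_le_one_iff v _).mpr (hint i)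
  have hconc : ∀ i, 1 ≤ absW W ((G.map (algebraMap ℚ M)).coeff i) → absW v (G.coeff i) = 1 := by
    intro i hi
    rw [coeff_map, hkey] at hi
    apply le_antisymm (hle1 i)
    by_contra hcon
    push Not at hcon
    have := pow_lt_one₀ (AbsoluteValue.nonneg _ _) hcon (n := e) (by omega)
    linarith
  set A := absW W with hA
  have hna : IsNonarchimedean A := absW_na W
  obtain ⟨u, α, β, hu, huni, hne, hfac⟩ := exists_factor_form (K := ℚ) (M := M) A
    (by omega : 1 ≤ h) hG.2 hG.1 hsplit
  have hα1 : ∀ i, A (α i) ≤ 1 := fun i => (le_max_left _ _).trans (huni i).le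
  have hβ1 : ∀ i, A (β i) ≤ 1 := fun i => (le_max_right _ _).trans (huni i).le
  have hgn : (G.map (algebraMap ℚ M)).gaussNorm A 1 ≤ 1 := by
    rw [gaussNorm_le_one_iff]
    intro i
    rw [coeff_map, hkey]
    exact pow_le_one₀ (AbsoluteValue.nonneg _ _) (hle1 i)
  have hu1 : A u ≤ 1 := by
    rw [hfac, gaussNorm_prod_lin hna] at hgn
    rw [Finset.prod_congr rfl fun i _ => huni i, Finset.prod_const_one, mul_one] at hgn
    exact hgn
  have hcard : Fintype.card (Fin (h + h)) = h + h := Fintype.card_fin _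
  have hdisc := abs_discN_prod_lin A hu α β hne (by rw [hcard]; omega)
  rw [hcard, ← hfac, discN_map, hkey, hd, one_pow] at hdisc
  have hf0 : ∀ i j, 0 ≤ A (α i * β j - α j * β i) := fun i j => AbsoluteValue.nonneg _ _
  have hf1 : ∀ i j, A (α i * β j - α j * β i) ≤ 1 := by
    intro i j
    rw [sub_eq_add_neg]
    refine (hna _ _).trans (max_le ?_ ?_)
    · rw [map_mul]
      exact mul_le_one₀ (hα1 i) (AbsoluteValue.nonneg _ _) (hβ1 j)
    · rw [AbsoluteValue.map_neg, map_mul]
      exact mul_le_one₀ (hα1 j) (AbsoluteValue.nonneg _ _) (hβ1 i)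
  have hu0 : 0 ≤ A u := AbsoluteValue.nonneg _ _
  have hupow : A u ^ (2 * (h + h - 1)) ≤ 1 := pow_le_one₀ hu0 hu1
  have hP0 : 0 ≤ ∏ i, ∏ j ∈ univ.erase i, A (α i * β j - α j * β i) :=
    Finset.prod_nonneg fun i _ => Finset.prod_nonneg fun j _ => hf0 i j
  have hP1 : ∏ i, ∏ j ∈ univ.erase i, A (α i * β j - α j * β i) ≤ 1 :=
    Finset.prod_le_one (fun i _ => Finset.prod_nonneg fun j _ => hf0 i j)
      fun i _ => Finset.prod_le_one (fun j _ => hf0 i j) fun j _ => hf1 i j
  have hP : 1 ≤ ∏ i, ∏ j ∈ univ.erase i, A (α i * β j - α j * β i) := by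
    rw [hdisc]
    calc _ ≤ 1 * ∏ i, ∏ j ∈ univ.erase i, A (α i * β j - α j * β i) :=
          mul_le_mul_of_nonneg_right hupow hP0
      _ = _ := one_mul _
  have hU : A u = 1 := by
    apply le_antisymm hu1
    by_contra hcon
    push Not at hcon
    have h3 := pow_lt_one₀ hu0 hcon (n := 2 * (h + h - 1)) (by omega)
    have h4 : A u ^ (2 * (h + h - 1)) * ∏ i, ∏ j ∈ univ.erase i, A (α i * β j - α j * β i) ≤
        A u ^ (2 * (h + h - 1)) * 1 := mul_le_mul_of_nonneg_left hP1 (by positivity)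
    rw [← hdisc] at h4
    linarith
  have hone : ∀ i j, i ≠ j → A (α i * β j - α j * β i) = 1 := by
    intro i j hij
    have h3 : ∏ j ∈ univ.erase i, A (α i * β j - α j * β i) = 1 :=
      one_of_prod (s := univ) (f := fun i => ∏ j ∈ univ.erase i, A (α i * β j - α j * β i))
        (fun i _ => Finset.prod_nonneg fun j _ => hf0 i j)
        (fun i _ => Finset.prod_le_one (fun j _ => hf0 i j) fun j _ => hf1 i j) hP (mem_univ i)
    exact one_of_prod (s := univ.erase i) (f := fun j => A (α i * β j - α j * β i))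
      (fun j _ => hf0 i j) (fun j _ => hf1 i j) h3.ge (mem_erase.mpr ⟨hij.symm, mem_univ j⟩)
  by_cases hall : ∀ i, A (α i) = 1
  · left
    apply hconc
    have hα0 : ∀ i ∈ (univ : Finset (Fin (h + h))), α i ≠ 0 := by
      intro i _ h0
      have := hall i
      rw [h0, map_zero] at this
      exact zero_ne_one this
    have h3 := natDegree_prod_lin univ hu α β hα0
    have h4 := leadingCoeff_prod_lin univ (u := u) α β hα0
    rw [card_univ, hcard] at h3
    rw [leadingCoeff, h3] at h4
    rw [hfac, h4, map_mul, map_prod, hU, one_mul, Finset.prod_congr rfl fun i _ => hall i,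
      Finset.prod_const_one]
  · right
    push Not at hall
    obtain ⟨i₀, hi₀⟩ := hall
    have hlt : A (α i₀) < 1 := lt_of_le_of_ne (hα1 i₀) hi₀
    have hj : ∀ j, j ≠ i₀ → A (α j) = 1 ∧ A (β i₀) = 1 := by
      intro j hj
      have h3 := hone i₀ j hj.symm
      have h4 : A (α i₀ * β j) < 1 := by
        rw [map_mul]
        calc A (α i₀) * A (β j) ≤ A (α i₀) * 1 :=
              mul_le_mul_of_nonneg_left (hβ1 j) (AbsoluteValue.nonneg _ _)
          _ < 1 := by rw [mul_one]; exact hlt
      have h5 : 1 ≤ A (α j * β i₀) := by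
        by_contra hcon
        push Not at hcon
        have h6 : A (α i₀ * β j - α j * β i₀) < 1 := by
          rw [sub_eq_add_neg]
          refine lt_of_le_of_lt (hna _ _) (max_lt h4 ?_)
          rwa [AbsoluteValue.map_neg]
        linarith
      rw [map_mul] at h5
      have h6 := hα1 j
      have h7 := hβ1 i₀
      have h8 : 0 ≤ A (α j) := AbsoluteValue.nonneg _ _
      have h9 : 0 ≤ A (β i₀) := AbsoluteValue.nonneg _ _
      constructor
      · apply le_antisymm h6; nlinarith
      · apply le_antisymm h7; nlinarith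
    obtain ⟨j₀, hj₀⟩ : ∃ j : Fin (h + h), j ≠ i₀ := by
      have : 1 < Fintype.card (Fin (h + h)) := by rw [hcard]; omega
      rw [Fintype.one_lt_card_iff_nontrivial] at this
      exact exists_ne i₀
    have hβ₀ : A (β i₀) = 1 := (hj j₀ hj₀).2
    set P' := C u * ∏ i ∈ univ.erase i₀, (C (α i) * X + C (β i)) with hP'
    have hα0 : ∀ i ∈ univ.erase i₀, α i ≠ 0 := by
      intro i hi h0
      have := (hj i (ne_of_mem_erase hi)).1
      rw [h0, map_zero] at this
      exact zero_ne_one this
    have hc' : (univ.erase i₀ : Finset (Fin (h + h))).card = h + h - 1 := by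
      rw [card_erase_of_mem (mem_univ _), card_univ, hcard]
    have h3 := natDegree_prod_lin (univ.erase i₀) hu α β hα0
    have h4 := leadingCoeff_prod_lin (univ.erase i₀) (u := u) α β hα0
    rw [hc'] at h3
    rw [leadingCoeff, h3, ← hP'] at h4
    have h5 : A (P'.coeff (h + h - 1)) = 1 := by
      rw [h4, map_mul, map_prod, hU, one_mul,
        Finset.prod_congr rfl fun i hi => (hj i (ne_of_mem_erase hi)).1, Finset.prod_const_one]
    have h6 : ∀ i, A (P'.coeff i) ≤ 1 := by
      rw [← gaussNorm_le_one_iff, hP', gaussNorm_prod_lin hna,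
        Finset.prod_congr rfl fun i _ => huni i, Finset.prod_const_one, mul_one]
      exact hu1
    have h7 : G.map (algebraMap ℚ M) = (C (α i₀) * X + C (β i₀)) * P' := by
      rw [hfac, ← Finset.mul_prod_erase univ _ (mem_univ i₀), hP']
      ring
    obtain ⟨k, hk⟩ : ∃ k, h + h - 1 = k + 1 := ⟨h + h - 2, by omega⟩
    apply hconc
    rw [h7, hk, add_mul, mul_assoc, coeff_add, coeff_C_mul, coeff_C_mul, coeff_X_mul]
    rw [hk] at h5
    by_contra hcon
    push Not at hcon
    have h8 : A (α i₀ * P'.coeff k) < 1 := by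
      rw [map_mul]
      calc A (α i₀) * A (P'.coeff k) ≤ A (α i₀) * 1 :=
            mul_le_mul_of_nonneg_left (h6 k) (AbsoluteValue.nonneg _ _)
        _ < 1 := by rw [mul_one]; exact hlt
    have h9 : A (β i₀ * P'.coeff (k + 1)) < 1 := by
      have h10 : β i₀ * P'.coeff (k + 1) =
          (α i₀ * P'.coeff k + β i₀ * P'.coeff (k + 1)) + -(α i₀ * P'.coeff k) := by ring
      rw [h10]
      refine lt_of_le_of_lt (hna _ _) (max_lt hcon ?_)
      rwa [AbsoluteValue.map_neg]
    rw [map_mul, hβ₀, h5, mul_one] at h9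
    exact lt_irrefl _ h9

end Pool.Agent.TH4.HS
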