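import Pool.Agent.TH4.HS.Key
import Pool.Agent.TH4.HS.Lead

/-!
# The structure of a non-minimal equation at a prime of good reduction, sharper form
-/

namespace Pool.Agent.TH4.HS

open Polynomial NumberField IsDedekindDomain WithZero Pool.Agent.W318

variable (v : HeightOneSpectrum (𝓞 ℚ))

theorem sq_mul_pow_aux (l d : ℚ) (g : ℕ) :
    l ^ 2 * d ^ (g + 1 + (g + 1)) = (l * d ^ (g + 1)) ^ 2 := by
  rw [mul_pow, ← pow_mul]
  congr 2
  ring

/-- reduction to an affine substitution, with a square factor -/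
theorem exists_affine2 {g : ℕ} (hg : 2 ≤ g) {F : ℚ[X]} (hF : IsHyp g F) (hmon : F.Monic)
    (h2 : pv v ≠ 2) (h0 : minExp g F v = 0) :
    ∃ μ α β : ℚ, μ ≠ 0 ∧ α ≠ 0 ∧ IntP v (C (μ ^ 2) * F.comp (C α * X + C β)) ∧
      (absW v (μ ^ 2) * absW v α ^ (g + 1)) ^ (4 * g + 2) * absW v F.discr = 1 := by
  obtain ⟨G, ⟨a, b, c, d, l, hdet, hl, hG⟩, hint, hdisc⟩ := exists_good_form v hg hF h2 h0
  have hdeg : F.natDegree ≤ g + 1 + (g + 1) := by have := hF.2; omega
  have h1 := abs_discN_act (by omega : 2 ≤ g + 1) hF.good hdet hl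
  rw [← hG, discN_monic hmon] at h1
  have h3 := congrArg (absW v) h1
  rw [absW_abs, hdisc, map_mul, absW_abs, map_pow, map_mul, map_pow, map_pow, absW_abs] at h3
  have hN : 2 * (g + 1 + (g + 1) - 1) = 4 * g + 2 := by omega
  rw [hN] at h3
  have hle : ∀ x : ℚ, absW v x ≤ 1 → v.valuation ℚ x ≤ 1 := fun x hx =>
    (absW_le_one_iff v x).mp hx
  by_cases hcd : absW v c ≤ absW v d
  · have hd : d ≠ 0 := by
      rintro rfl
      rw [map_zero] at hcd
      have hc : c = 0 := by
        have := le_antisymm hcd (AbsoluteValue.nonneg _ _)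
        exact (AbsoluteValue.eq_zero _).mp this
      exact hdet (by rw [hc]; ring)
    have hcd' : absW v (-c / d) ≤ 1 := by
      rw [map_div₀, AbsoluteValue.map_neg]
      exact div_le_one_of_le₀ hcd (AbsoluteValue.nonneg _ _)
    have hI := intP_act v (n := g + 1 + (g + 1)) hint (a := 1) (b := 0) (c := -c / d) (d := 1)
      (by simp) (by simp) (hle _ hcd') (by simp)
    rw [hG, act_C_mul, act_act hdeg hdet (by simp)] at hI
    have e1 : a * 1 + b * (-c / d) = (a * d - b * c) / d := by field_simp; ring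
    have e2 : a * 0 + b * 1 = b := by ring
    have e3 : c * 1 + d * (-c / d) = 0 := by field_simp; ring
    have e4 : c * 0 + d * 1 = d := by ring
    rw [e1, e2, e3, e4, act_affine hd hdeg, ← mul_assoc, ← C_mul] at hI
    refine ⟨l * d ^ (g + 1), (a * d - b * c) / d / d, b / d,
      mul_ne_zero hl (pow_ne_zero _ hd),
      div_ne_zero (div_ne_zero hdet hd) hd, ?_, ?_⟩
    · rw [← sq_mul_pow_aux]; exact hI
    have hd' : absW v d ≠ 0 := by rwa [Ne, AbsoluteValue.eq_zero]
    have e5 : absW v (l ^ 2 * d ^ (g + 1 + (g + 1))) * absW v ((a * d - b * c) / d / d) ^ (g + 1) =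
        absW v l ^ 2 * absW v (a * d - b * c) ^ (g + 1) := by
      rw [map_mul, map_pow, map_pow, map_div₀, map_div₀]
      exact e5aux hd' _
    rw [← sq_mul_pow_aux, e5]
    exact h3.symm
  · push Not at hcd
    have hc : c ≠ 0 := by
      rintro rfl
      rw [map_zero] at hcd
      exact absurd hcd (not_lt.mpr (AbsoluteValue.nonneg _ _))
    have hcd' : absW v (-d / c) ≤ 1 := by
      rw [map_div₀, AbsoluteValue.map_neg]
      exact div_le_one_of_le₀ hcd.le (AbsoluteValue.nonneg _ _)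
    have hI := intP_act v (n := g + 1 + (g + 1)) hint (a := -d / c) (b := 1) (c := 1) (d := 0)
      (hle _ hcd') (by simp) (by simp) (by simp)
    rw [hG, act_C_mul, act_act hdeg hdet (by simp)] at hI
    have e1 : a * (-d / c) + b * 1 = -(a * d - b * c) / c := by field_simp; ring
    have e2 : a * 1 + b * 0 = a := by ring
    have e3 : c * (-d / c) + d * 1 = 0 := by field_simp; ring
    have e4 : c * 1 + d * 0 = c := by ring
    rw [e1, e2, e3, e4, act_affine hc hdeg, ← mul_assoc, ← C_mul] at hI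
    refine ⟨l * c ^ (g + 1), -(a * d - b * c) / c / c, a / c,
      mul_ne_zero hl (pow_ne_zero _ hc),
      div_ne_zero (div_ne_zero (neg_ne_zero.mpr hdet) hc) hc, ?_, ?_⟩
    · rw [← sq_mul_pow_aux]; exact hI
    have hc' : absW v c ≠ 0 := by rwa [Ne, AbsoluteValue.eq_zero]
    have e5 : absW v (l ^ 2 * c ^ (g + 1 + (g + 1))) * absW v (-(a * d - b * c) / c / c) ^ (g + 1) =
        absW v l ^ 2 * absW v (a * d - b * c) ^ (g + 1) := by
      rw [map_mul, map_pow, map_pow, map_div₀, map_div₀, AbsoluteValue.map_neg]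
      exact e5aux hc' _
    rw [← sq_mul_pow_aux, e5]
    exact h3.symm

/-- the key local fact, sharper form -/
theorem local_key2 {g n : ℕ} (hg : 2 ≤ g) (hn : n = 2 * g + 1 ∨ n = 2 * g + 2) {P : ℤ[X]}
    (hP : P.Monic) (hd : P.natDegree = n) (h2 : pv v ≠ 2)
    (hF : IsHyp g (P.map (Int.castRingHom ℚ))) (h0 : minExp g (P.map (Int.castRingHom ℚ)) v = 0)
    (hbad : (pv v : ℤ) ∣ P.discr) :
    (∃ r : ℤ, ∀ j ≤ 2 * g, (pv v : ℤ) ^ (2 * g + 1 - j) ∣ (hasseDeriv j P).eval r) ∧
      (pv v : ℤ) ^ (4 * g + 2) ∣ P.discr := by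
  set F := P.map (Int.castRingHom ℚ) with hFdef
  have hmon : F.Monic := hP.map _
  have hdF : F.natDegree = n := by rw [hFdef, hP.natDegree_map, hd]
  have hintF : IntP v F := by
    intro i
    rw [hFdef, coeff_map]
    exact val_int_le_one v _
  have hna := absW_na v
  obtain ⟨μ, α, β, hμ, hα, hI, hdisc⟩ := exists_affine2 v hg hF hmon h2 h0
  have hdeg : F.natDegree ≤ g + 1 + (g + 1) := by have := hF.2; omega
  -- the leading coefficient
  have hact : C (μ ^ 2) * F.comp (C α * X + C β) =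
      C (μ ^ 2) * act (g + 1 + (g + 1)) α β 0 1 F := by
    rw [act_affine one_ne_zero hdeg]
    simp
  have hdet : α * 1 - β * 0 ≠ 0 := by simpa using hα
  have hEqv : Eqv (g + 1) F (C (μ ^ 2) * F.comp (C α * X + C β)) :=
    ⟨α, β, 0, 1, μ, hdet, hμ, hact⟩
  have hgood : GoodForm (g + 1) (C (μ ^ 2) * F.comp (C α * X + C β)) :=
    hEqv.good (by omega) hF.good
  have hdis1 : absW v (discN (g + 1 + (g + 1)) (C (μ ^ 2) * F.comp (C α * X + C β))) = 1 := by
    have h1 := abs_discN_act (by omega : 2 ≤ g + 1) hF.good hdet hμ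
    rw [← hact, discN_monic hmon] at h1
    generalize C (μ ^ 2) * F.comp (C α * X + C β) = G at h1 ⊢
    have h3 := congrArg (absW v) h1
    have hN : 2 * (g + 1 + (g + 1) - 1) = 4 * g + 2 := by omega
    rw [absW_abs, map_mul, absW_abs, map_pow, map_mul, map_pow (absW v) |α * 1 - β * 0|,
      absW_abs, hN] at h3
    rw [h3, ← hdisc]
    simp
  have hlead := lead_of_unit v (by omega : 2 ≤ g + 1) hgood hI hdis1
  have hdis : F.discr = ((P.discr : ℤ) : ℚ) :=
    discr_map_of_injective (Int.castRingHom ℚ) (RingHom.injective_int _) P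
  rw [hdis] at hdisc
  have hD1 : absW v ((P.discr : ℤ) : ℚ) ≤ 2 ^ (-((1 : ℕ) : ℤ)) :=
    (absW_int_le v _ 1).mpr (by simpa using hbad)
  have hμ2 : μ ^ 2 ≠ 0 := pow_ne_zero _ hμ
  set m := absW v (μ ^ 2) with hm
  set a := absW v α with ha
  have hm0 : 0 < m := AbsoluteValue.pos _ hμ2
  have ha0 : 0 < a := AbsoluteValue.pos _ hα
  have hB0 : 0 < m * a ^ (g + 1) := by positivity
  have hB1 : 1 < m * a ^ (g + 1) := by
    by_contra hcon
    push Not at hcon
    have h3 : (m * a ^ (g + 1)) ^ (4 * g + 2) ≤ 1 := pow_le_one₀ hB0.le hcon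
    have h4 : (m * a ^ (g + 1)) ^ (4 * g + 2) * absW v ((P.discr : ℤ) : ℚ) ≤
        1 * 2 ^ (-((1 : ℕ) : ℤ)) := mul_le_mul h3 hD1 (AbsoluteValue.nonneg _ _) (by norm_num)
    rw [hdisc] at h4
    norm_num at h4
  -- the coefficients
  have hcoe : ∀ j, absW v ((C (μ ^ 2) * F.comp (C α * X + C β)).coeff j) =
      m * (absW v ((hasseDeriv j F).eval β) * a ^ j) := by
    intro j
    rw [coeff_C_mul, coeff_comp_affine, map_mul, map_mul, map_pow (absW v) α j]
  have hco : ∀ j, m * (absW v ((hasseDeriv j F).eval β) * a ^ j) ≤ 1 := by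
    intro j
    rw [← hcoe]
    exact (absW_le_one_iff v _).mpr (hI j)
  have ha1 : a < 1 := by
    by_contra hcon
    push Not at hcon
    have h3 := hco n
    have h4 : (hasseDeriv n F).eval β = 1 := by
      rw [← taylor_coeff, ← hdF, coeff_taylor_natDegree]
      exact hmon.leadingCoeff
    rw [h4, map_one, one_mul] at h3
    have h5 : a ^ (g + 1) ≤ a ^ n := pow_le_pow_right₀ hcon (by omega)
    have h6 : m * a ^ (g + 1) ≤ m * a ^ n := mul_le_mul_of_nonneg_left h5 hm0.le
    linarith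
  have ha2 : a ≤ 2 ^ (-(1 : ℤ)) := by
    have := absW_lt v (x := α) (k := 0) (by simpa using ha1)
    simpa using this
  have hβ1 : absW v β ≤ 1 := by
    by_contra hcon
    push Not at hcon
    have h3 := abs_eval_large v hmon hintF hcon
    have h4 := hco 0
    rw [hasseDeriv_zero, LinearMap.id_apply, pow_zero, mul_one] at h4
    have h5 : m ≤ 1 := by nlinarith
    have h6 : a ^ (g + 1) ≤ 1 := pow_le_one₀ ha0.le ha1.le
    nlinarith
  have hD : ∀ j, absW v ((hasseDeriv j F).eval β) ≤ 1 := by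
    intro j
    have h4 := eval_close v (hasseDeriv j P) (x := β) (y := 0) hβ1 (by simp)
    have h5 : (hasseDeriv j P).map (Int.castRingHom ℚ) = hasseDeriv j F := by
      rw [hFdef, hasseDeriv_map']
    rw [h5] at h4
    have h6 : (hasseDeriv j F).eval 0 = (((hasseDeriv j P).eval 0 : ℤ) : ℚ) := by
      rw [← h5, ← Int.cast_zero, eval_intCast_map]
      rfl
    have h7 : (hasseDeriv j F).eval β =
        ((hasseDeriv j F).eval β - (hasseDeriv j F).eval 0) + (hasseDeriv j F).eval 0 := by ring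
    rw [h7]
    refine (hna _ _).trans (max_le (h4.trans ?_) ?_)
    · simpa using hβ1
    · rw [h6]; exact absW_int_le_one v _
  have hma : 1 ≤ m * a ^ (2 * g + 1) := by
    rcases hlead with h | h
    · rw [hcoe] at h
      have h3 : m * (absW v ((hasseDeriv (g + 1 + (g + 1)) F).eval β) * a ^ (g + 1 + (g + 1))) ≤
          m * (1 * a ^ (g + 1 + (g + 1))) :=
        mul_le_mul_of_nonneg_left (mul_le_mul_of_nonneg_right (hD _) (by positivity)) hm0.le
      have h4 : a ^ (g + 1 + (g + 1)) ≤ a ^ (2 * g + 1) :=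
        pow_le_pow_of_le_one ha0.le ha1.le (by omega)
      have h5 : m * a ^ (g + 1 + (g + 1)) ≤ m * a ^ (2 * g + 1) :=
        mul_le_mul_of_nonneg_left h4 hm0.le
      rw [one_mul] at h3
      linarith
    · rw [hcoe] at h
      have e : g + 1 + (g + 1) - 1 = 2 * g + 1 := by omega
      rw [e] at h
      have h3 : m * (absW v ((hasseDeriv (2 * g + 1) F).eval β) * a ^ (2 * g + 1)) ≤
          m * (1 * a ^ (2 * g + 1)) :=
        mul_le_mul_of_nonneg_left (mul_le_mul_of_nonneg_right (hD _) (by positivity)) hm0.le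
      rw [one_mul] at h3
      linarith
  have hsm : ∀ j ≤ 2 * g, absW v ((hasseDeriv j F).eval β) ≤ 2 ^ (-((2 * g + 1 - j : ℕ) : ℤ)) := by
    intro j hj
    have h3 := hco j
    have h4 : absW v ((hasseDeriv j F).eval β) ≤ a ^ (2 * g + 1 - j) := by
      have h5 : m * a ^ (2 * g + 1) = m * a ^ j * a ^ (2 * g + 1 - j) := by
        rw [mul_assoc, ← pow_add]; congr 2; omega
      rw [h5] at hma
      have h6 : (m * a ^ j) * absW v ((hasseDeriv j F).eval β) ≤
          (m * a ^ j) * a ^ (2 * g + 1 - j) := by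
        calc (m * a ^ j) * absW v ((hasseDeriv j F).eval β)
            = m * (absW v ((hasseDeriv j F).eval β) * a ^ j) := by ring
          _ ≤ 1 := h3
          _ ≤ _ := hma
      exact le_of_mul_le_mul_left h6 (by positivity)
    calc absW v ((hasseDeriv j F).eval β) ≤ a ^ (2 * g + 1 - j) := h4
      _ ≤ ((2 : ℝ) ^ (-(1 : ℤ))) ^ (2 * g + 1 - j) := pow_le_pow_left₀ ha0.le ha2 _
      _ = 2 ^ (-((2 * g + 1 - j : ℕ) : ℤ)) := by
          rw [← zpow_natCast, ← zpow_mul]
          congr 1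
          ring
  constructor
  · obtain ⟨r, hr⟩ := exists_int_close v hβ1 (2 * g + 1)
    refine ⟨r, fun j hj => ?_⟩
    rw [← absW_int_le]
    have h3 : (((hasseDeriv j P).eval r : ℤ) : ℚ) = (hasseDeriv j F).eval (r : ℚ) := by
      rw [hFdef, ← hasseDeriv_map', eval_intCast_map]
      rfl
    have h4 := eval_close v (hasseDeriv j P) (x := (r : ℚ)) (y := β) (absW_int_le_one v r) hβ1
    have h5 : (hasseDeriv j P).map (Int.castRingHom ℚ) = hasseDeriv j F := by
      rw [hFdef, hasseDeriv_map']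
    rw [h5] at h4
    have h6 : absW v ((r : ℚ) - β) ≤ 2 ^ (-((2 * g + 1 : ℕ) : ℤ)) := by
      rw [← AbsoluteValue.map_neg, neg_sub]; exact hr
    rw [h3]
    have h7 : (hasseDeriv j F).eval (r : ℚ) =
        ((hasseDeriv j F).eval (r : ℚ) - (hasseDeriv j F).eval β) + (hasseDeriv j F).eval β := by
      ring
    rw [h7]
    refine (hna _ _).trans (max_le ?_ (hsm j hj))
    refine (h4.trans h6).trans ?_
    exact (zpow_le_zpow_iff_right₀ (by norm_num : (1 : ℝ) < 2)).mpr (by omega)
  · exact (local_key v hg hn hP hd h2 hF h0 hbad).2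

end Pool.Agent.TH4.HS
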