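import Pool.Agent.TH4.HS.Glob2
import Pool.Agent.TH4.HS.Key2

/-!
# The structure of the primes dividing the discriminant, sharper form
-/

namespace Pool.Agent.TH4.HS

open Polynomial NumberField IsDedekindDomain WithZero Pool.Agent.W318
open Pool.Agent.H785R2.ABC (rad)

variable {g n : ℕ} {P : ℤ[X]}

/-- the structure of the primes dividing the discriminant -/
theorem exists_A3 {f : ℤ[X]} (hg : 2 ≤ g) (hn : n = 2 * g + 1 ∨ n = 2 * g + 2) (hf : f.Monic)
    (hd : f.natDegree = n) {t : ℤ} (hD : (f + C t).discr ≠ 0) :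
    ∃ A : ℕ, Squarefree A ∧ (∀ p ∈ A.primeFactors, Hit f (2 * g - 1 + 2) p t ∧ Deep f (2 * g - 1) p t) ∧
      A ^ (4 * g + 2) ≤ (f + C t).discr.natAbs ∧
      rad (f + C t).discr.natAbs ≤
        2 * badNorm g ((f + C t).map (Int.castRingHom ℚ)) * A := by
  classical
  set P := f + C t with hPdef
  have hPm : P.Monic := by
    apply hf.add_of_left
    rw [degree_eq_natDegree hf.ne_zero, hd]
    exact lt_of_le_of_lt degree_C_le (by exact_mod_cast (by omega : 0 < n))
  have hPd : P.natDegree = n := by rw [hPdef, natDegree_add_C, hd]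
  set F := P.map (Int.castRingHom ℚ) with hFdef
  have hF : IsHyp g F := isHyp_of hn hPm hPd hD
  set D := P.discr.natAbs with hDdef
  have hD0 : D ≠ 0 := Int.natAbs_ne_zero.mpr hD
  set e : ℕ → ℕ := fun p => if h : p.Prime then minExp g F (vp p h) else 0 with he
  set cA := D.primeFactors.filter fun p => p ≠ 2 ∧ e p = 0 with hcA
  set cB := D.primeFactors.filter fun p => p ≠ 2 ∧ e p ≠ 0 with hcB
  have hApr : ∀ p ∈ cA, p.Prime := fun p hp =>
    Nat.prime_of_mem_primeFactors (Finset.mem_filter.mp hp).1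
  set A := ∏ p ∈ cA, p with hA
  have hAf : A.primeFactors = cA := Nat.primeFactors_prod hApr
  have hkey : ∀ p ∈ cA, (Hit f (2 * g - 1 + 2) p t ∧ Deep f (2 * g - 1) p t) ∧
      (p : ℤ) ^ (4 * g + 2) ∣ P.discr := by
    intro p hp
    have hpp := hApr p hp
    rw [hcA, Finset.mem_filter] at hp
    obtain ⟨hp1, hp2, hp3⟩ := hp
    rw [he] at hp3
    simp only [hpp, dite_true] at hp3
    have hpd : (pv (vp p hpp) : ℤ) ∣ P.discr := by
      rw [pv_vp]
      exact Int.natCast_dvd.mpr (Nat.dvd_of_mem_primeFactors hp1)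
    obtain ⟨⟨r, hr⟩, h2⟩ := local_key2 (vp p hpp) hg hn hPm hPd (by rw [pv_vp]; exact hp2) hF hp3 hpd
    rw [pv_vp] at h2
    simp only [pv_vp] at hr
    have hr' : ∀ j ≤ 2 * g - 1 + 1,
        (p : ℤ) ^ (2 * g - 1 + 2 - j) ∣ (hasseDeriv j P).eval r := by
      intro j hj
      have e : 2 * g - 1 + 2 - j = 2 * g + 1 - j := by omega
      rw [e]
      exact hr j (by omega)
    refine ⟨⟨?_, ⟨r, hr'⟩⟩, h2⟩
    refine hit_of hpp.pos (by omega) (r := r) fun j hj => ?_
    exact hr' j (by omega)
  refine ⟨A, ?_, ?_, ?_, ?_⟩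
  · rw [hA]
    refine Finset.squarefree_prod_of_pairwise_isCoprime (fun p hp q hq hpq => ?_) fun p hp =>
      (hApr p hp).squarefree
    exact Nat.coprime_iff_isRelPrime.mp
      ((Nat.coprime_primes (hApr p hp) (hApr q hq)).mpr hpq)
  · intro p hp
    rw [hAf] at hp
    exact (hkey p hp).1
  · have h1 : ((A ^ (4 * g + 2) : ℕ) : ℤ) ∣ P.discr := by
      have h2 : ((A ^ (4 * g + 2) : ℕ) : ℤ) = ∏ p ∈ cA, (p : ℤ) ^ (4 * g + 2) := by
        rw [hA, Finset.prod_pow]; push_cast; rfl
      rw [h2]
      apply Finset.prod_dvd_of_coprime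
      · intro p hp q hq hpq
        apply IsCoprime.pow
        exact Nat.isCoprime_iff_coprime.mpr ((Nat.coprime_primes (hApr p hp) (hApr q hq)).mpr hpq)
      · intro p hp
        exact (hkey p hp).2
    exact Nat.le_of_dvd (Nat.pos_of_ne_zero hD0) (Int.natCast_dvd.mp h1)
  · have hB : ∏ p ∈ cB, p ≤ badNorm g F := by
      set S := (finite_bad hF).toFinset with hS
      rw [badNorm_eq (g := g) (F := F) S (fun v => by
        rw [hS, Set.Finite.mem_toFinset]; rfl)]
      have hSb : ∀ v ∈ S, minExp g F v ≠ 0 := fun v hv => by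
        rw [hS, Set.Finite.mem_toFinset] at hv; exact hv
      have e1 : ∏ p ∈ cB, p = ∏ p ∈ cB.attach, (p : ℕ) := (Finset.prod_attach cB (fun p => p)).symm
      have hBp : ∀ p ∈ cB, p.Prime := fun p hp =>
        Nat.prime_of_mem_primeFactors (Finset.mem_filter.mp hp).1
      have hinj : Function.Injective fun p : {x // x ∈ cB} => vp p.1 (hBp p.1 p.2) := by
        intro p q h
        have := congrArg pv h
        simp only [pv_vp] at this
        exact Subtype.ext this
      have e2 : ∏ p ∈ cB.attach, (p : ℕ) =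
          ∏ v ∈ cB.attach.map ⟨_, hinj⟩, pv v := by
        rw [Finset.prod_map]
        exact Finset.prod_congr rfl fun p _ => (pv_vp _ _).symm
      rw [e1, e2]
      calc ∏ v ∈ cB.attach.map ⟨_, hinj⟩, pv v ≤ ∏ v ∈ S, pv v := by
            refine Finset.prod_le_prod_of_subset_of_one_le' (fun v hv => ?_)
              fun v _ _ => (pv_prime v).one_le
            rw [Finset.mem_map] at hv
            obtain ⟨p, -, rfl⟩ := hv
            rw [hS, Set.Finite.mem_toFinset]
            have h1 := (Finset.mem_filter.mp p.2).2.2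
            rw [he] at h1
            simp only [hBp p.1 p.2, dite_true] at h1
            exact h1
        _ = ∏ v ∈ S, Ideal.absNorm v.asIdeal :=
            Finset.prod_congr rfl fun v _ => (absNorm_eq v).symm
    have h2 : ∏ p ∈ D.primeFactors.filter (fun p => p = 2), p ≤ 2 := by
      rw [Finset.filter_eq']
      split_ifs <;> simp
    have h3 : rad D = (∏ p ∈ D.primeFactors.filter (fun p => p = 2), p) *
        ((∏ p ∈ cA, p) * ∏ p ∈ cB, p) := by
      unfold rad
      rw [← Finset.prod_filter_mul_prod_filter_not D.primeFactors (fun p => p = 2)]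
      congr 1
      rw [← Finset.prod_filter_mul_prod_filter_not (D.primeFactors.filter fun p => ¬ p = 2)
        (fun p => e p = 0), Finset.filter_filter, Finset.filter_filter]
    rw [h3]
    calc (∏ p ∈ D.primeFactors.filter (fun p => p = 2), p) * ((∏ p ∈ cA, p) * ∏ p ∈ cB, p)
        ≤ 2 * (A * badNorm g F) := Nat.mul_le_mul h2 (Nat.mul_le_mul le_rfl hB)
      _ = 2 * badNorm g F * A := by ring

end Pool.Agent.TH4.HS
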