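import Pool.Agent.TH4.HS.Cnt2
import Pool.Agent.TH4.HS.Glob3

/-!
# Rational critical points of high multiplicity, general multiplicity
-/

namespace Pool.Agent.TH4.HS

open Polynomial Finset

variable {f : ℤ[X]} {g n : ℕ}

/-- either `f` has a rational critical point of high multiplicity, or all the primes in question
divide a fixed number -/
theorem crit_cases2 (hn2 : 2 ≤ n) (hn : n ≤ 2 * g + 2) (hf : f.Monic)
    (hd : f.natDegree = n) {B : ℝ} (hB : 1 ≤ B)
    (hcf : ∀ i, i < n → |((f.coeff i : ℤ) : ℝ)| ≤ B ^ (n - i)) :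
    (∃ a : ℤ, ∀ t : ℤ, |(t : ℝ)| ≤ B ^ n → a + (n : ℤ) ^ n * t ≠ 0 → ∀ A : ℕ, Squarefree A →
      (∀ p ∈ A.primeFactors, Deep f g p t) → (A : ℝ) ^ (g + 2) ≤ K5 g n * B ^ n) ∨
    (∃ N : ℕ, N ≠ 0 ∧ (N : ℝ) ≤ n * (4 * n * B) ^ (n * n) ∧ ∀ (t : ℤ) (A : ℕ), Squarefree A →
      (∀ p ∈ A.primeFactors, Deep f g p t) → A ∣ N) := by
  classical
  obtain ⟨H, hHm, hHd, hH⟩ := exists_H hf hd (by omega)
  rcases dichotomy (g := g) (m := n - 1) (by omega) hHm hHd with ⟨c, hc⟩ | ⟨R, hRm, hRH, hHR, hsq⟩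
  · left
    refine ⟨(sc n f).eval c, fun t ht hne A hA hdeep => ?_⟩
    have hcr : H.eval c = 0 := by
      obtain ⟨S, hS⟩ := (dvd_pow_self (X - C c) (Nat.succ_ne_zero g)).trans hc
      rw [hS, eval_mul, eval_sub, eval_X, eval_C, sub_self, zero_mul]
    set τ : ℤ := (sc n f).eval c + (n : ℤ) ^ n * t with hτ
    set c1 := A.primeFactors.filter fun p => ¬ p ∣ n with hc1
    set c2 := A.primeFactors.filter fun p => p ∣ n with hc2
    have hAeq : A = (∏ p ∈ c2, p) * ∏ p ∈ c1, p := by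
      rw [hc1, hc2, Finset.prod_filter_mul_prod_filter_not]
      exact (Nat.prod_primeFactors_of_squarefree hA).symm
    have hc2le : ∏ p ∈ c2, p ≤ n := by
      apply Nat.le_of_dvd (by omega)
      apply Finset.prod_primes_dvd
      · intro p hp
        exact (Nat.prime_of_mem_primeFactors (Finset.mem_filter.mp hp).1).prime
      · intro p hp
        exact (Finset.mem_filter.mp hp).2
    have hc1p : ∀ p ∈ c1, p.Prime := fun p hp =>
      Nat.prime_of_mem_primeFactors (Finset.mem_filter.mp hp).1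
    have h1 : (((∏ p ∈ c1, p) ^ (g + 2) : ℕ) : ℤ) ∣ τ := by
      have h2 : (((∏ p ∈ c1, p) ^ (g + 2) : ℕ) : ℤ) = ∏ p ∈ c1, (p : ℤ) ^ (g + 2) := by
        rw [Finset.prod_pow]; push_cast; rfl
      rw [h2]
      apply Finset.prod_dvd_of_coprime
      · intro p hp q hq hpq
        apply IsCoprime.pow
        exact Nat.isCoprime_iff_coprime.mpr ((Nat.coprime_primes (hc1p p hp) (hc1p q hq)).mpr hpq)
      · intro p hp
        have : Fact p.Prime := ⟨hc1p p hp⟩
        obtain ⟨hp1, hp2⟩ := Finset.mem_filter.mp hp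
        obtain ⟨r, hr⟩ := hdeep p hp1
        exact deep_tau hp2 hd (by omega) (by omega) hHm hHd hH hc hr
    have h2 : (∏ p ∈ c1, p) ^ (g + 2) ≤ τ.natAbs :=
      Nat.le_of_dvd (Nat.pos_of_ne_zero (Int.natAbs_ne_zero.mpr hne)) (Int.natCast_dvd.mp h1)
    have h3 := tau_le hf hd (by omega) (by linarith : 0 < B) hcf hH hcr ht
    have h4 : ((∏ p ∈ c1, p : ℕ) : ℝ) ^ (g + 2) ≤ (n : ℝ) ^ n * (3 * 2 ^ n * B ^ n) := by
      calc ((∏ p ∈ c1, p : ℕ) : ℝ) ^ (g + 2) ≤ (τ.natAbs : ℝ) := by exact_mod_cast h2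
        _ ≤ _ := h3
    calc (A : ℝ) ^ (g + 2) = ((∏ p ∈ c2, p : ℕ) : ℝ) ^ (g + 2) * ((∏ p ∈ c1, p : ℕ) : ℝ) ^ (g + 2) := by
          rw [← mul_pow, ← Nat.cast_mul, ← hAeq]
      _ ≤ (n : ℝ) ^ (g + 2) * ((n : ℝ) ^ n * (3 * 2 ^ n * B ^ n)) := by
          apply mul_le_mul _ h4 (by positivity) (by positivity)
          exact pow_le_pow_left₀ (by positivity) (by exact_mod_cast hc2le) _
      _ = K5 g n * B ^ n := by unfold K5; ring
  · right
    have hRd : 1 ≤ R.natDegree := by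
      by_contra hcon
      have h1 : R = 1 := hRm.natDegree_eq_zero.mp (by omega)
      rw [h1, one_pow] at hHR
      have h2 := natDegree_le_of_dvd hHR one_ne_zero
      rw [natDegree_one, hHd] at h2
      omega
    have hres := res_ne_zero hRm hRd hsq
    refine ⟨n * (res R).natAbs, mul_ne_zero (by omega) (Int.natAbs_ne_zero.mpr hres), ?_, ?_⟩
    · rw [Nat.cast_mul]
      exact mul_le_mul_of_nonneg_left (res_le' hf hd (by omega) hB hcf hHm hHd hH hRm hRH)
        (by positivity)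
    · intro t A hA hdeep
      rw [← Nat.prod_primeFactors_of_squarefree hA]
      apply Finset.prod_primes_dvd
      · intro p hp
        exact (Nat.prime_of_mem_primeFactors hp).prime
      · intro p hp
        have hpp := Nat.prime_of_mem_primeFactors hp
        have : Fact p.Prime := ⟨hpp⟩
        by_cases hpn : p ∣ n
        · exact hpn.mul_right _
        · obtain ⟨r, hr⟩ := hdeep p hp
          have h1 := deep_mult (g := g) hpn hd hH hr
          exact (Int.natCast_dvd.mp (local_mult hRm hHR h1)).mul_left _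

end Pool.Agent.TH4.HS
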