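import Mathlib

/-!
# Roots of high multiplicity modulo primes
-/

namespace Pool.Agent.TH4.HS

open Polynomial Finset UniqueFactorizationMonoid

theorem dichotomy {g m : ℕ} (hm : m ≤ 2 * g + 1) {H : ℤ[X]} (hH : H.Monic)
    (hd : H.natDegree = m) :
    (∃ c : ℤ, (X - C c) ^ (g + 1) ∣ H) ∨
      (∃ R : ℤ[X], R.Monic ∧ R ∣ H ∧ H ∣ R ^ g ∧ Squarefree (R.map (Int.castRingHom ℚ))) := by
  classical
  set K : ℚ[X] := H.map (Int.castRingHom ℚ) with hKdef
  have hK : K.Monic := hH.map _
  have hK0 : K ≠ 0 := hK.ne_zero
  have hKd : K.natDegree = m := by rw [hKdef, hH.natDegree_map, hd]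
  have hassoc := prod_normalizedFactors hK0
  have hmonic : ∀ q ∈ normalizedFactors K, q.Monic := by
    intro q hq
    have h1 := normalize_normalized_factor q hq
    have h2 : q ≠ 0 := (irreducible_of_normalized_factor q hq).ne_zero
    rw [← h1]
    exact monic_normalize h2
  by_cases hq : ∃ q ∈ normalizedFactors K, g + 1 ≤ (normalizedFactors K).count q
  · left
    obtain ⟨q, hq1, hq2⟩ := hq
    have hirr := irreducible_of_normalized_factor q hq1
    have hqm := hmonic q hq1
    have hdvd : q ^ (g + 1) ∣ K := by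
      rw [Multiset.le_count_iff_replicate_le] at hq2
      have h1 := Multiset.prod_dvd_prod_of_le hq2
      rw [Multiset.prod_replicate] at h1
      exact h1.trans hassoc.dvd
    have h1 : (g + 1) * q.natDegree ≤ m := by
      rw [← hKd, ← natDegree_pow]
      exact natDegree_le_of_dvd hdvd hK0
    have h2 : 0 < q.natDegree := hirr.natDegree_pos
    have h3 : q.natDegree = 1 := by
      by_contra hcon
      have h4 : 2 ≤ q.natDegree := by omega
      have : (g + 1) * 2 ≤ (g + 1) * q.natDegree := Nat.mul_le_mul_left _ h4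
      omega
    have h4 := hqm.eq_X_add_C h3
    set c' : ℚ := -q.coeff 0 with hc'
    have hroot : aeval c' H = 0 := by
      have h5 : K.eval c' = 0 := by
        obtain ⟨s, hs⟩ := (dvd_pow_self q (Nat.succ_ne_zero g)).trans hdvd
        rw [hs, eval_mul, h4]
        simp [hc']
      rw [hKdef, eval_map] at h5
      exact h5
    obtain ⟨c, hc⟩ := isInteger_of_is_root_of_monic hH hroot
    refine ⟨c, ?_⟩
    rw [← map_dvd_map (Int.castRingHom ℚ) (RingHom.injective_int _)
      ((monic_X_sub_C c).pow _)]
    have h6 : ((X - C c) ^ (g + 1)).map (Int.castRingHom ℚ) = q ^ (g + 1) := by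
      rw [Polynomial.map_pow, Polynomial.map_sub, map_X, map_C]
      congr 1
      have : (Int.castRingHom ℚ) c = c' := hc
      rw [this, hc', C_neg, sub_neg_eq_add]
      exact h4.symm
    rw [h6]
    exact hdvd
  · right
    push Not at hq
    have hrad : radical K = (normalizedFactors K).dedup.prod := by
      unfold radical
      rw [← Finset.prod_val]
      have h1 : (primeFactors K).val = (normalizedFactors K).dedup := by
        unfold primeFactors
        have h2 : ∀ (i1 i2 : DecidableEq ℚ[X]) (s : Multiset ℚ[X]),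
            (@Multiset.toFinset _ i1 s).val = @Multiset.dedup _ i2 s := by
          intro i1 i2 s
          have : i1 = i2 := Subsingleton.elim _ _
          subst this
          rfl
        exact h2 _ _ _
      rw [h1]
    have hradm : (radical K).Monic := by
      rw [hrad]
      have := monic_multiset_prod_of_monic (normalizedFactors K).dedup id fun q hq' =>
        hmonic q (Multiset.mem_dedup.mp hq')
      simpa using this
    obtain ⟨R, hR⟩ := IsIntegrallyClosed.eq_map_mul_C_of_dvd ℚ hH
      (g := radical K) radical_dvd_self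
    rw [hradm.leadingCoeff, C_1, mul_one] at hR
    have hR' : R.map (Int.castRingHom ℚ) = radical K := hR
    have hRm : R.Monic := monic_of_injective (RingHom.injective_int (Int.castRingHom ℚ))
      (by rw [hR']; exact hradm)
    refine ⟨R, hRm, ?_, ?_, ?_⟩
    · rw [← map_dvd_map (Int.castRingHom ℚ) (RingHom.injective_int _) hRm, hR']
      exact radical_dvd_self
    · rw [← map_dvd_map (Int.castRingHom ℚ) (RingHom.injective_int _) hH, Polynomial.map_pow, hR',
        hrad, ← Multiset.prod_nsmul]
      refine hassoc.symm.dvd.trans (Multiset.prod_dvd_prod_of_le ?_)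
      rw [Multiset.le_iff_count]
      intro q
      rw [Multiset.count_nsmul]
      by_cases hqm : q ∈ normalizedFactors K
      · have h1 := hq q hqm
        have h2 : 1 ≤ (normalizedFactors K).dedup.count q :=
          Multiset.one_le_count_iff_mem.mpr (Multiset.mem_dedup.mpr hqm)
        nlinarith
      · rw [Multiset.count_eq_zero_of_notMem hqm]
        exact Nat.zero_le _
    · rw [hR']
      exact squarefree_radical

/-- the resultant of `R` and its derivative -/
noncomputable def res (R : ℤ[X]) : ℤ := R.resultant (derivative R) R.natDegree (R.natDegree - 1)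

theorem local_mult {p : ℕ} [Fact p.Prime] {R H : ℤ[X]} {g : ℕ} (hRm : R.Monic)
    (hHR : H ∣ R ^ g) {ρ : ZMod p}
    (h : (X - C ρ) ^ (g + 1) ∣ H.map (Int.castRingHom (ZMod p))) : (p : ℤ) ∣ res R := by
  classical
  set φ := Int.castRingHom (ZMod p) with hφ
  have hRb : (R.map φ).Monic := hRm.map _
  have h1 : (X - C ρ) ^ (g + 1) ∣ (R.map φ) ^ g := by
    rw [← Polynomial.map_pow]
    exact h.trans (Polynomial.map_dvd φ hHR)
  have h2 : g + 1 ≤ ((R.map φ) ^ g).rootMultiplicity ρ :=
    (le_rootMultiplicity_iff (pow_ne_zero _ hRb.ne_zero)).mpr h1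
  rw [← count_roots, roots_pow, Multiset.count_nsmul, count_roots] at h2
  have h3 : 2 ≤ (R.map φ).rootMultiplicity ρ := by
    by_contra hcon
    have h4 : (R.map φ).rootMultiplicity ρ ≤ 1 := by omega
    have : g * (R.map φ).rootMultiplicity ρ ≤ g * 1 := Nat.mul_le_mul_left _ h4
    omega
  have h4 : (X - C ρ) ^ 2 ∣ R.map φ := (le_rootMultiplicity_iff hRb.ne_zero).mp h3
  obtain ⟨S, hS⟩ := h4
  have h5 : (R.map φ).eval ρ = 0 := by rw [hS]; simp
  have h6 : (derivative (R.map φ)).eval ρ = 0 := by
    rw [hS, derivative_mul, derivative_pow]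
    simp
  have hdeg : R.natDegree ≠ 0 := by
    intro h0
    have h7 : R = 1 := hRm.natDegree_eq_zero.mp h0
    rw [h7, Polynomial.map_one, eval_one] at h5
    exact one_ne_zero h5
  obtain ⟨P, Q, -, -, hPQ⟩ := exists_mul_add_mul_eq_C_resultant R (derivative R)
    (m := R.natDegree) (n := R.natDegree - 1) le_rfl (natDegree_derivative_le R) (Or.inl hdeg)
  have h7 := congrArg (fun T => (T.map φ).eval ρ) hPQ
  simp only [Polynomial.map_add, Polynomial.map_mul, eval_add, eval_mul, Polynomial.map_C,
    eval_C] at h7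
  rw [← derivative_map, h5, h6, zero_mul, zero_mul, add_zero] at h7
  have h8 : ((res R : ℤ) : ZMod p) = 0 := h7.symm
  exact (ZMod.intCast_zmod_eq_zero_iff_dvd _ _).mp h8

theorem res_ne_zero {R : ℤ[X]} (hRm : R.Monic) (hd : 1 ≤ R.natDegree)
    (hsq : Squarefree (R.map (Int.castRingHom ℚ))) : res R ≠ 0 := by
  set F := R.map (Int.castRingHom ℚ) with hF
  have hFm : F.Monic := hRm.map _
  have hFd : F.natDegree = R.natDegree := by rw [hF, hRm.natDegree_map]
  intro h0
  have h1 : resultant F (derivative F) F.natDegree (F.natDegree - 1) = 0 := by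
    rw [hFd, hF, derivative_map, resultant_map_map]
    have : R.resultant (derivative R) R.natDegree (R.natDegree - 1) = 0 := h0
    rw [this, map_zero]
  have h5 : (derivative F).natDegree = F.natDegree - 1 := by
    have := degree_derivative (p := F) (by omega)
    exact natDegree_eq_of_degree_eq_some this
  rw [← h5, resultant_eq_zero_iff] at h1
  exact h1.2 (PerfectField.separable_iff_squarefree.mpr hsq)

theorem norm_prod_le (s : Multiset ℂ) (φ : ℂ → ℂ) {L : ℝ} (hL : 0 ≤ L)
    (h : ∀ x ∈ s, ‖φ x‖ ≤ L) : ‖(s.map φ).prod‖ ≤ L ^ Multiset.card s := by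
  induction s using Multiset.induction_on with
  | empty => simp
  | cons a s ih =>
    rw [Multiset.map_cons, Multiset.prod_cons, norm_mul, Multiset.card_cons, pow_succ, mul_comm]
    exact mul_le_mul (ih fun c hc => h c (Multiset.mem_cons_of_mem hc))
      (h a (Multiset.mem_cons_self a s)) (norm_nonneg _) (by positivity)

theorem res_le {R : ℤ[X]} (hRm : R.Monic) {L : ℝ} (hL : 0 ≤ L)
    (hroots : ∀ z : ℂ, (R.map (Int.castRingHom ℂ)).eval z = 0 → ‖z‖ ≤ L) :
    ((res R).natAbs : ℝ) ≤ ((2 * L) ^ (R.natDegree - 1)) ^ R.natDegree := by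
  classical
  set F := R.map (Int.castRingHom ℂ) with hF
  have hFm : F.Monic := hRm.map _
  have hFd : F.natDegree = R.natDegree := by rw [hF, hRm.natDegree_map]
  have h1 : ((res R : ℤ) : ℂ) = resultant F (derivative F) F.natDegree (F.natDegree - 1) := by
    rw [hFd, hF, derivative_map, resultant_map_map]
    rfl
  have hspl : F.Splits := IsAlgClosed.splits F
  have h2 := resultant_eq_prod_eval F (derivative F) (F.natDegree - 1)
    (natDegree_derivative_le F) hspl
  rw [hFm.leadingCoeff, one_pow, one_mul] at h2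
  have h3 : ((res R).natAbs : ℝ) = ‖((res R : ℤ) : ℂ)‖ := by
    rw [Complex.norm_intCast, Nat.cast_natAbs, Int.cast_abs]
  rw [h3, h1, h2]
  have hcard : Multiset.card F.roots = R.natDegree := by
    rw [← hspl.natDegree_eq_card_roots, hFd]
  have hrt : ∀ z ∈ F.roots, ‖z‖ ≤ L := fun z hz => hroots z ((mem_roots hFm.ne_zero).mp hz)
  rw [← hcard]
  apply norm_prod_le _ _ (by positivity)
  intro x hx
  rw [hspl.eval_root_derivative hFm hx]
  have h4 : Multiset.card (F.roots.erase x) = Multiset.card F.roots - 1 :=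
    Multiset.card_erase_of_mem hx
  rw [← h4]
  apply norm_prod_le _ _ (by positivity)
  intro y hy
  calc ‖x - y‖ ≤ ‖x‖ + ‖y‖ := norm_sub_le _ _
    _ ≤ 2 * L := by linarith [hrt x hx, hrt y (Multiset.mem_of_mem_erase hy)]

end Pool.Agent.TH4.HS
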