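import Pool.Agent.W318.LocalMin

/-!
# The discriminant of a binary form under substitutions, over the rational numbers
-/

namespace Pool.Agent.TH4.HS

open Polynomial Pool.Agent.W318

theorem abs_discN_act_aux {M : Type} [Field M] [Infinite M] [Algebra ℚ M] [IsAlgClosed M]
    (A : AbsoluteValue M ℝ) (hA : ∀ x : ℚ, A (algebraMap ℚ M x) = ((|x| : ℚ) : ℝ))
    {h : ℕ} (hh : 2 ≤ h) {F : ℚ[X]} (hF : GoodForm h F) {a b c d l : ℚ}
    (hdet : a * d - b * c ≠ 0) (hl : l ≠ 0) (N : ℕ) (hN : N = 2 * (h + h - 1)) :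
    ((|discN (h + h) (C (l ^ 2) * act (h + h) a b c d F)| : ℚ) : ℝ) =
      (((l ^ 2 * |a * d - b * c| ^ h) ^ N * |discN (h + h) F| : ℚ) : ℝ) := by
  obtain ⟨u, α, β, hu, _, hne, hfac⟩ := exists_factor_form (K := ℚ) (M := M)
    A (by omega : 1 ≤ h) hF.2 hF.1 (IsAlgClosed.splits _)
  have hdet' : algebraMap ℚ M a * algebraMap ℚ M d - algebraMap ℚ M b * algebraMap ℚ M c ≠ 0 := by
    rw [← map_mul, ← map_mul, ← map_sub, Ne, map_eq_zero]
    exact hdet
  have hl' : algebraMap ℚ M l ≠ 0 := by rwa [Ne, map_eq_zero]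
  have h1 := disc_sq_act (A := A) hu hne hh hdet' hl'
  rw [← hfac, ← act_map, ← map_pow (algebraMap ℚ M) l 2, ← Polynomial.map_C,
    ← Polynomial.map_mul, discN_map, discN_map, hA, hA, hA, ← map_mul, ← map_mul, ← map_sub, hA,
    ← hN] at h1
  rw [h1]
  push_cast
  rw [sq_abs]

theorem abs_discN_act {h : ℕ} (hh : 2 ≤ h) {F : ℚ[X]} (hF : GoodForm h F) {a b c d l : ℚ}
    (hdet : a * d - b * c ≠ 0) (hl : l ≠ 0) :
    |discN (h + h) (C (l ^ 2) * act (h + h) a b c d F)| =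
      (l ^ 2 * |a * d - b * c| ^ h) ^ (2 * (h + h - 1)) * |discN (h + h) F| := by
  have h1 := abs_discN_act_aux (M := ℂ) (NormedField.toAbsoluteValue ℂ) (fun x => by
    have : (NormedField.toAbsoluteValue ℂ) (algebraMap ℚ ℂ x) = ‖((x : ℚ) : ℂ)‖ := rfl
    rw [this, Complex.norm_ratCast]
    push_cast
    rfl) hh hF hdet hl (2 * (h + h - 1)) rfl
  exact Rat.cast_injective h1

end Pool.Agent.TH4.HS
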