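import Pool.Agent.TH4.HS.Key
import Pool.Agent.TH4.HS.Cls
import Pool.Agent.W318.GlobalSzp
import Pool.Agent.H785R2.ABC.Defs

/-!
# Minimal discriminant and bad primes of `y² = f + t`
-/

namespace Pool.Agent.TH4.HS

open Polynomial NumberField IsDedekindDomain WithZero Pool.Agent.W318
open Pool.Agent.H785R2.ABC (rad)

theorem pv_inj {v w : HeightOneSpectrum (𝓞 ℚ)} (h : pv v = pv w) : v = w := by
  apply HeightOneSpectrum.ext
  rw [asIdeal_eq, asIdeal_eq, h]

variable {g n : ℕ} {P : ℤ[X]}

theorem isHyp_of (hn : n = 2 * g + 1 ∨ n = 2 * g + 2) (hP : P.Monic) (hd : P.natDegree = n)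
    (hD : P.discr ≠ 0) : IsHyp g (P.map (Int.castRingHom ℚ)) := by
  set F := P.map (Int.castRingHom ℚ) with hF
  have h1 : F.natDegree = n := by rw [hF, hP.natDegree_map, hd]
  have h2 : F.Monic := hP.map _
  refine ⟨?_, by omega⟩
  have h3 : F.discr ≠ 0 := by
    rw [hF, discr_map_of_injective (Int.castRingHom ℚ) (RingHom.injective_int _) P]
    simpa using hD
  have h4 := resultant_deriv (f := F) (natDegree_pos_iff_degree_pos.mp (by omega))
  have h5 : (derivative F).natDegree = F.natDegree - 1 := by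
    have := degree_derivative (p := F) (by omega)
    exact natDegree_eq_of_degree_eq_some this
  have h6 : F.Separable := by
    by_contra hcon
    have h7 : resultant F (derivative F) F.natDegree (F.natDegree - 1) = 0 := by
      rw [← h5]
      rw [resultant_eq_zero_iff]
      exact ⟨Or.inl h2.ne_zero, hcon⟩
    rw [h4] at h7
    have h8 : (-1 : ℚ) ^ (F.natDegree * (F.natDegree - 1) / 2) * F.leadingCoeff ≠ 0 := by
      rw [h2.leadingCoeff, mul_one]
      exact pow_ne_zero _ (by norm_num)
    exact (mul_ne_zero h8 h3) h7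
  exact h6.squarefree

/-- the minimal discriminant is at most the discriminant of the given equation -/
theorem discNorm_le (hn : n = 2 * g + 1 ∨ n = 2 * g + 2) (hP : P.Monic) (hd : P.natDegree = n)
    (hD : P.discr ≠ 0) :
    discNorm g (P.map (Int.castRingHom ℚ)) ≤ 2 ^ (4 * g) * P.discr.natAbs := by
  classical
  set F := P.map (Int.castRingHom ℚ) with hFdef
  have hF : IsHyp g F := isHyp_of hn hP hd hD
  have hmon : F.Monic := hP.map _
  have hdis : F.discr = ((P.discr : ℤ) : ℚ) :=
    discr_map_of_injective (Int.castRingHom ℚ) (RingHom.injective_int _) P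
  have hdiv : ∀ v : HeightOneSpectrum (𝓞 ℚ), (pv v : ℤ) ^ minExp g F v ∣ 2 ^ (4 * g) * P.discr := by
    intro v
    obtain ⟨t, ht⟩ := exists_two_exp (K := ℚ) v
    have hint : ∀ i, v.valuation ℚ (F.coeff i) ≤ 1 := by
      intro i
      rw [hFdef, coeff_map]
      exact val_int_le_one v _
    obtain ⟨k, hk, _, hle⟩ := minExp_le hF v (Eqv.refl (by have := hF.2; omega)) hint ht
    rw [← val_le_iff]
    have h1 : (((2 ^ (4 * g) * P.discr : ℤ)) : ℚ) = 2 ^ (4 * g) * F.discr := by
      rw [hdis]; push_cast; ring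
    rw [h1, map_mul, map_pow, ht, ← discN_monic (g := g) hmon, hk, ← exp_nsmul, ← exp_add]
    rw [exp_le_exp]
    simp only [nsmul_eq_mul]
    push_cast
    have h2 : (minExp g F v : ℤ) ≤ 4 * g * t + k := by exact_mod_cast hle
    linarith
  set S := (finite_bad hF).toFinset with hS
  have h1 := discNorm_eq (g := g) (F := F) S (fun v hv => by
    rw [hS, Set.Finite.mem_toFinset]; exact hv)
  have h2 : ((∏ v ∈ S, (pv v) ^ minExp g F v : ℕ) : ℤ) ∣ 2 ^ (4 * g) * P.discr := by
    push_cast
    apply Finset.prod_dvd_of_coprime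
    · intro v _ w _ hvw
      apply IsCoprime.pow
      refine Nat.isCoprime_iff_coprime.mpr ((Nat.coprime_primes (pv_prime v) (pv_prime w)).mpr ?_)
      exact fun h => hvw (pv_inj h)
    · intro v _
      exact hdiv v
  have h3 : 2 ^ (4 * g) * P.discr ≠ 0 := mul_ne_zero (by positivity) hD
  have h4 := Int.natAbs_dvd_natAbs.mpr h2
  rw [Int.natAbs_natCast, Int.natAbs_mul, Int.natAbs_pow] at h4
  have h5 := Nat.le_of_dvd (Nat.pos_of_ne_zero (mul_ne_zero (by positivity)
    (Int.natAbs_ne_zero.mpr hD))) h4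
  rw [h1]
  have h6 : ∏ v ∈ S, Ideal.absNorm v.asIdeal ^ minExp g F v = ∏ v ∈ S, (pv v) ^ minExp g F v :=
    Finset.prod_congr rfl fun v _ => by rw [absNorm_eq]
  rw [h6]
  exact h5

/-- the structure of the primes dividing the discriminant -/
theorem exists_A {f : ℤ[X]} (hg : 2 ≤ g) (hn : n = 2 * g + 1 ∨ n = 2 * g + 2) (hf : f.Monic)
    (hd : f.natDegree = n) {t : ℤ} (hD : (f + C t).discr ≠ 0) :
    ∃ A : ℕ, Squarefree A ∧ (∀ p ∈ A.primeFactors, Hit f (g + 2) p t) ∧
      A ^ (4 * g + 2) ≤ (f + C t).discr.natAbs ∧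
      rad (f + C t).discr.natAbs ≤
        2 * badNorm g ((f + C t).map (Int.castRingHom ℚ)) * A := by
  classical
  set P := f + C t with hPdef
  have hPm : P.Monic := by
    apply hf.add_of_left
    rw [degree_eq_natDegree hf.ne_zero, hd]
    exact lt_of_le_of_lt degree_C_le (by exact_mod_cast (by omega : 0 < n))
  have hPd : P.natDegree = n := by rw [hPdef, natDegree_add_C, hd]
  set F := P.map (Int.castRingHom ℚ) with hFdef
  have hF : IsHyp g F := isHyp_of hn hPm hPd hD
  set D := P.discr.natAbs with hDdef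
  have hD0 : D ≠ 0 := Int.natAbs_ne_zero.mpr hD
  set e : ℕ → ℕ := fun p => if h : p.Prime then minExp g F (vp p h) else 0 with he
  set cA := D.primeFactors.filter fun p => p ≠ 2 ∧ e p = 0 with hcA
  set cB := D.primeFactors.filter fun p => p ≠ 2 ∧ e p ≠ 0 with hcB
  have hApr : ∀ p ∈ cA, p.Prime := fun p hp =>
    Nat.prime_of_mem_primeFactors (Finset.mem_filter.mp hp).1
  set A := ∏ p ∈ cA, p with hA
  have hAf : A.primeFactors = cA := Nat.primeFactors_prod hApr
  have hkey : ∀ p ∈ cA, Hit f (g + 2) p t ∧ (p : ℤ) ^ (4 * g + 2) ∣ P.discr := by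
    intro p hp
    have hpp := hApr p hp
    rw [hcA, Finset.mem_filter] at hp
    obtain ⟨hp1, hp2, hp3⟩ := hp
    rw [he] at hp3
    simp only [hpp, dite_true] at hp3
    have hpd : (pv (vp p hpp) : ℤ) ∣ P.discr := by
      rw [pv_vp]
      exact Int.natCast_dvd.mpr (Nat.dvd_of_mem_primeFactors hp1)
    obtain ⟨⟨r, hr⟩, h2⟩ := local_key (vp p hpp) hg hn hPm hPd (by rw [pv_vp]; exact hp2) hF hp3 hpd
    rw [pv_vp] at h2
    refine ⟨?_, h2⟩
    refine hit_of hpp.pos (by omega) (r := r) fun j hj => ?_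
    have := hr j (by omega)
    rwa [pv_vp] at this
  refine ⟨A, ?_, ?_, ?_, ?_⟩
  · rw [hA]
    refine Finset.squarefree_prod_of_pairwise_isCoprime (fun p hp q hq hpq => ?_) fun p hp =>
      (hApr p hp).squarefree
    exact Nat.coprime_iff_isRelPrime.mp
      ((Nat.coprime_primes (hApr p hp) (hApr q hq)).mpr hpq)
  · intro p hp
    rw [hAf] at hp
    exact (hkey p hp).1
  · have h1 : ((A ^ (4 * g + 2) : ℕ) : ℤ) ∣ P.discr := by
      have h2 : ((A ^ (4 * g + 2) : ℕ) : ℤ) = ∏ p ∈ cA, (p : ℤ) ^ (4 * g + 2) := by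
        rw [hA, Finset.prod_pow]; push_cast; rfl
      rw [h2]
      apply Finset.prod_dvd_of_coprime
      · intro p hp q hq hpq
        apply IsCoprime.pow
        exact Nat.isCoprime_iff_coprime.mpr ((Nat.coprime_primes (hApr p hp) (hApr q hq)).mpr hpq)
      · intro p hp
        exact (hkey p hp).2
    exact Nat.le_of_dvd (Nat.pos_of_ne_zero hD0) (Int.natCast_dvd.mp h1)
  · have hB : ∏ p ∈ cB, p ≤ badNorm g F := by
      set S := (finite_bad hF).toFinset with hS
      rw [badNorm_eq (g := g) (F := F) S (fun v => by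
        rw [hS, Set.Finite.mem_toFinset]; rfl)]
      have hSb : ∀ v ∈ S, minExp g F v ≠ 0 := fun v hv => by
        rw [hS, Set.Finite.mem_toFinset] at hv; exact hv
      have e1 : ∏ p ∈ cB, p = ∏ p ∈ cB.attach, (p : ℕ) := (Finset.prod_attach cB (fun p => p)).symm
      have hBp : ∀ p ∈ cB, p.Prime := fun p hp =>
        Nat.prime_of_mem_primeFactors (Finset.mem_filter.mp hp).1
      have hinj : Function.Injective fun p : {x // x ∈ cB} => vp p.1 (hBp p.1 p.2) := by
        intro p q h
        have := congrArg pv h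
        simp only [pv_vp] at this
        exact Subtype.ext this
      have e2 : ∏ p ∈ cB.attach, (p : ℕ) =
          ∏ v ∈ cB.attach.map ⟨_, hinj⟩, pv v := by
        rw [Finset.prod_map]
        exact Finset.prod_congr rfl fun p _ => (pv_vp _ _).symm
      rw [e1, e2]
      calc ∏ v ∈ cB.attach.map ⟨_, hinj⟩, pv v ≤ ∏ v ∈ S, pv v := by
            refine Finset.prod_le_prod_of_subset_of_one_le' (fun v hv => ?_)
              fun v _ _ => (pv_prime v).one_le
            rw [Finset.mem_map] at hv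
            obtain ⟨p, -, rfl⟩ := hv
            rw [hS, Set.Finite.mem_toFinset]
            have h1 := (Finset.mem_filter.mp p.2).2.2
            rw [he] at h1
            simp only [hBp p.1 p.2, dite_true] at h1
            exact h1
        _ = ∏ v ∈ S, Ideal.absNorm v.asIdeal :=
            Finset.prod_congr rfl fun v _ => (absNorm_eq v).symm
    have h2 : ∏ p ∈ D.primeFactors.filter (fun p => p = 2), p ≤ 2 := by
      rw [Finset.filter_eq']
      split_ifs <;> simp
    have h3 : rad D = (∏ p ∈ D.primeFactors.filter (fun p => p = 2), p) *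
        ((∏ p ∈ cA, p) * ∏ p ∈ cB, p) := by
      unfold rad
      rw [← Finset.prod_filter_mul_prod_filter_not D.primeFactors (fun p => p = 2)]
      congr 1
      rw [← Finset.prod_filter_mul_prod_filter_not (D.primeFactors.filter fun p => ¬ p = 2)
        (fun p => e p = 0), Finset.filter_filter, Finset.filter_filter]
    rw [h3]
    calc (∏ p ∈ D.primeFactors.filter (fun p => p = 2), p) * ((∏ p ∈ cA, p) * ∏ p ∈ cB, p)
        ≤ 2 * (A * badNorm g F) := Nat.mul_le_mul h2 (Nat.mul_le_mul le_rfl hB)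
      _ = 2 * badNorm g F * A := by ring

end Pool.Agent.TH4.HS
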