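import Pool.Agent.TH4.HS.Loc

/-!
# The structure of a non-minimal equation at a prime of good reduction
-/

namespace Pool.Agent.TH4.HS

open Polynomial NumberField IsDedekindDomain WithZero Pool.Agent.W318

variable (v : HeightOneSpectrum (𝓞 ℚ))

/-- at an odd prime of good reduction some form equivalent to `F` is integral with unit
discriminant -/
theorem exists_good_form {g : ℕ} (hg : 2 ≤ g) {F : ℚ[X]} (hF : IsHyp g F) (h2 : pv v ≠ 2)
    (h0 : minExp g F v = 0) :
    ∃ G : ℚ[X], Eqv (g + 1) F G ∧ IntP v G ∧ absW v (discN (g + 1 + (g + 1)) G) = 1 := by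
  obtain ⟨f, f₂, hM, hn⟩ := exists_min_model hF v
  obtain ⟨φ⟩ := hM.iso
  have hbr := bridge hg hF.1 hF.2 hM.upper φ
  have hgood' : GoodForm (g + 1) (4 * f + f₂ ^ 2) := hbr.good (by omega) hF.good
  refine ⟨4 * f + f₂ ^ 2, hbr, int_comb v hM.int hM.int₂, ?_⟩
  have hA2 : absW v (2 : ℚ) = 1 := by
    have h3 : ¬ (pv v : ℤ) ∣ (2 : ℤ) := by
      intro h4
      have h5 : pv v ∣ 2 := by exact_mod_cast h4
      exact h2 ((Nat.prime_dvd_prime_iff_eq (pv_prime v) Nat.prime_two).mp h5)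
    have := absW_int_eq_one v h3
    simpa using this
  rw [h0] at hn
  have hn' : absW v (modelDisc g f f₂) = 1 := by
    have := absW_exp v hn
    simpa using this
  have h4 : (1 / 4 : ℚ) ≠ 0 := by norm_num
  rw [modelDisc_eq, four_mul_form, discN_C_mul (by omega) h4 hgood'.2, map_mul, map_mul,
    map_pow, map_pow, hA2] at hn'
  have h5 : absW v (1 / 4 : ℚ) = 1 := by
    have : (1 / 4 : ℚ) = (2 * 2)⁻¹ := by norm_num
    rw [this, map_inv₀, map_mul, hA2]
    norm_num
  rw [h5] at hn'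
  simpa using hn'

theorem discN_monic {g : ℕ} {F : ℚ[X]} (hF : F.Monic) : discN (g + 1 + (g + 1)) F = F.discr := by
  unfold discN
  split_ifs
  · rfl
  · rw [hF.leadingCoeff]; ring

theorem e5aux {L D E : ℝ} (hD : D ≠ 0) (k : ℕ) :
    L ^ 2 * D ^ (k + k) * (E / D / D) ^ k = L ^ 2 * E ^ k := by
  rw [div_pow, div_pow, pow_add]
  have := pow_ne_zero k hD
  field_simp

/-- reduction to an affine substitution -/
theorem exists_affine {g : ℕ} (hg : 2 ≤ g) {F : ℚ[X]} (hF : IsHyp g F) (hmon : F.Monic)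
    (h2 : pv v ≠ 2) (h0 : minExp g F v = 0) :
    ∃ μ α β : ℚ, μ ≠ 0 ∧ α ≠ 0 ∧ IntP v (C μ * F.comp (C α * X + C β)) ∧
      (absW v μ * absW v α ^ (g + 1)) ^ (4 * g + 2) * absW v F.discr = 1 := by
  obtain ⟨G, ⟨a, b, c, d, l, hdet, hl, hG⟩, hint, hdisc⟩ := exists_good_form v hg hF h2 h0
  have hdeg : F.natDegree ≤ g + 1 + (g + 1) := by have := hF.2; omega
  have h1 := abs_discN_act (by omega : 2 ≤ g + 1) hF.good hdet hl
  rw [← hG, discN_monic hmon] at h1
  have h3 := congrArg (absW v) h1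
  rw [absW_abs, hdisc, map_mul, absW_abs, map_pow, map_mul, map_pow, map_pow, absW_abs] at h3
  have hN : 2 * (g + 1 + (g + 1) - 1) = 4 * g + 2 := by omega
  rw [hN] at h3
  have hle : ∀ x : ℚ, absW v x ≤ 1 → v.valuation ℚ x ≤ 1 := fun x hx =>
    (absW_le_one_iff v x).mp hx
  by_cases hcd : absW v c ≤ absW v d
  · have hd : d ≠ 0 := by
      rintro rfl
      rw [map_zero] at hcd
      have hc : c = 0 := by
        have := le_antisymm hcd (AbsoluteValue.nonneg _ _)
        exact (AbsoluteValue.eq_zero _).mp this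
      exact hdet (by rw [hc]; ring)
    have hcd' : absW v (-c / d) ≤ 1 := by
      rw [map_div₀, AbsoluteValue.map_neg]
      exact div_le_one_of_le₀ hcd (AbsoluteValue.nonneg _ _)
    have hI := intP_act v (n := g + 1 + (g + 1)) hint (a := 1) (b := 0) (c := -c / d) (d := 1)
      (by simp) (by simp) (hle _ hcd') (by simp)
    rw [hG, act_C_mul, act_act hdeg hdet (by simp)] at hI
    have e1 : a * 1 + b * (-c / d) = (a * d - b * c) / d := by field_simp; ring
    have e2 : a * 0 + b * 1 = b := by ring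
    have e3 : c * 1 + d * (-c / d) = 0 := by field_simp; ring
    have e4 : c * 0 + d * 1 = d := by ring
    rw [e1, e2, e3, e4, act_affine hd hdeg, ← mul_assoc, ← C_mul] at hI
    refine ⟨l ^ 2 * d ^ (g + 1 + (g + 1)), (a * d - b * c) / d / d, b / d,
      mul_ne_zero (pow_ne_zero _ hl) (pow_ne_zero _ hd),
      div_ne_zero (div_ne_zero hdet hd) hd, hI, ?_⟩
    have hd' : absW v d ≠ 0 := by rwa [Ne, AbsoluteValue.eq_zero]
    have e5 : absW v (l ^ 2 * d ^ (g + 1 + (g + 1))) * absW v ((a * d - b * c) / d / d) ^ (g + 1) =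
        absW v l ^ 2 * absW v (a * d - b * c) ^ (g + 1) := by
      rw [map_mul, map_pow, map_pow, map_div₀, map_div₀]
      exact e5aux hd' _
    rw [e5]
    exact h3.symm
  · push Not at hcd
    have hc : c ≠ 0 := by
      rintro rfl
      rw [map_zero] at hcd
      exact absurd hcd (not_lt.mpr (AbsoluteValue.nonneg _ _))
    have hcd' : absW v (-d / c) ≤ 1 := by
      rw [map_div₀, AbsoluteValue.map_neg]
      exact div_le_one_of_le₀ hcd.le (AbsoluteValue.nonneg _ _)
    have hI := intP_act v (n := g + 1 + (g + 1)) hint (a := -d / c) (b := 1) (c := 1) (d := 0)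
      (hle _ hcd') (by simp) (by simp) (by simp)
    rw [hG, act_C_mul, act_act hdeg hdet (by simp)] at hI
    have e1 : a * (-d / c) + b * 1 = -(a * d - b * c) / c := by field_simp; ring
    have e2 : a * 1 + b * 0 = a := by ring
    have e3 : c * (-d / c) + d * 1 = 0 := by field_simp; ring
    have e4 : c * 1 + d * 0 = c := by ring
    rw [e1, e2, e3, e4, act_affine hc hdeg, ← mul_assoc, ← C_mul] at hI
    refine ⟨l ^ 2 * c ^ (g + 1 + (g + 1)), -(a * d - b * c) / c / c, a / c,
      mul_ne_zero (pow_ne_zero _ hl) (pow_ne_zero _ hc),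
      div_ne_zero (div_ne_zero (neg_ne_zero.mpr hdet) hc) hc, hI, ?_⟩
    have hc' : absW v c ≠ 0 := by rwa [Ne, AbsoluteValue.eq_zero]
    have e5 : absW v (l ^ 2 * c ^ (g + 1 + (g + 1))) * absW v (-(a * d - b * c) / c / c) ^ (g + 1) =
        absW v l ^ 2 * absW v (a * d - b * c) ^ (g + 1) := by
      rw [map_mul, map_pow, map_pow, map_div₀, map_div₀, AbsoluteValue.map_neg]
      exact e5aux hc' _
    rw [e5]
    exact h3.symm

/-- coefficients of `F (α x + β)` -/
theorem coeff_comp_affine (F : ℚ[X]) (α β : ℚ) (j : ℕ) :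
    (F.comp (C α * X + C β)).coeff j = (hasseDeriv j F).eval β * α ^ j := by
  have h1 : F.comp (C α * X + C β) = (taylor β F).comp (C α * X) := by
    rw [taylor_apply, comp_assoc]
    simp
  rw [h1, comp_C_mul_X_coeff, taylor_coeff]

theorem abs_eval_large {F : ℚ[X]} (hmon : F.Monic) (hint : IntP v F) {β : ℚ} (hβ : 1 < absW v β) :
    1 ≤ absW v (F.eval β) := by
  have hna := absW_na v
  rcases Nat.eq_zero_or_pos F.natDegree with h0 | hpos
  · have : F = 1 := by
      have h1 := eq_C_of_natDegree_eq_zero h0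
      have h2 : F.coeff 0 = 1 := by
        have := hmon.coeff_natDegree
        rwa [h0] at this
      rw [h1, h2, C_1]
    rw [this]; simp
  set n := F.natDegree with hn
  have e1 : F.eval β = β ^ n - (-∑ i ∈ Finset.range n, F.coeff i * β ^ i) := by
    rw [eval_eq_sum_range, Finset.sum_range_succ, ← hn, hmon.coeff_natDegree]
    ring
  have h2 : absW v (∑ i ∈ Finset.range n, F.coeff i * β ^ i) ≤ absW v β ^ (n - 1) := by
    refine na_sum_le hna _ _ (by positivity) fun i hi => ?_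
    rw [Finset.mem_range] at hi
    rw [map_mul, map_pow]
    have h3 : absW v (F.coeff i) ≤ 1 := (absW_le_one_iff v _).mpr (hint i)
    calc absW v (F.coeff i) * absW v β ^ i ≤ 1 * absW v β ^ i :=
          mul_le_mul_of_nonneg_right h3 (by positivity)
      _ = absW v β ^ i := one_mul _
      _ ≤ absW v β ^ (n - 1) := pow_le_pow_right₀ hβ.le (by omega)
  have h3 : absW v (-∑ i ∈ Finset.range n, F.coeff i * β ^ i) < absW v (β ^ n) := by
    rw [AbsoluteValue.map_neg, map_pow]
    refine lt_of_le_of_lt h2 ?_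
    exact pow_lt_pow_right₀ hβ (by omega)
  rw [e1, na_sub_eq hna h3, map_pow]
  exact one_le_pow₀ hβ.le

theorem hasseDeriv_map' {R S : Type*} [CommRing R] [CommRing S] (f : R →+* S) (j : ℕ) (P : R[X]) :
    (hasseDeriv j P).map f = hasseDeriv j (P.map f) := by
  ext i
  rw [coeff_map, hasseDeriv_coeff, hasseDeriv_coeff, coeff_map]
  simp

/-- the key local fact -/
theorem local_key {g n : ℕ} (hg : 2 ≤ g) (hn : n = 2 * g + 1 ∨ n = 2 * g + 2) {P : ℤ[X]}
    (hP : P.Monic) (hd : P.natDegree = n) (h2 : pv v ≠ 2)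
    (hF : IsHyp g (P.map (Int.castRingHom ℚ))) (h0 : minExp g (P.map (Int.castRingHom ℚ)) v = 0)
    (hbad : (pv v : ℤ) ∣ P.discr) :
    (∃ r : ℤ, ∀ j ≤ g + 1, (pv v : ℤ) ^ (g + 2 - j) ∣ (hasseDeriv j P).eval r) ∧
      (pv v : ℤ) ^ (4 * g + 2) ∣ P.discr := by
  set F := P.map (Int.castRingHom ℚ) with hFdef
  have hmon : F.Monic := hP.map _
  have hdF : F.natDegree = n := by rw [hFdef, hP.natDegree_map, hd]
  have hintF : IntP v F := by
    intro i
    rw [hFdef, coeff_map]
    exact val_int_le_one v _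
  have hna := absW_na v
  obtain ⟨μ, α, β, hμ, hα, hI, hdisc⟩ := exists_affine v hg hF hmon h2 h0
  have hdis : F.discr = ((P.discr : ℤ) : ℚ) :=
    discr_map_of_injective (Int.castRingHom ℚ) (RingHom.injective_int _) P
  rw [hdis] at hdisc
  have hD1 : absW v ((P.discr : ℤ) : ℚ) ≤ 2 ^ (-((1 : ℕ) : ℤ)) :=
    (absW_int_le v _ 1).mpr (by simpa using hbad)
  set m := absW v μ with hm
  set a := absW v α with ha
  have hm0 : 0 < m := AbsoluteValue.pos _ hμ
  have ha0 : 0 < a := AbsoluteValue.pos _ hα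
  have hB0 : 0 < m * a ^ (g + 1) := by positivity
  have hB1 : 1 < m * a ^ (g + 1) := by
    by_contra hcon
    push Not at hcon
    have h3 : (m * a ^ (g + 1)) ^ (4 * g + 2) ≤ 1 := pow_le_one₀ hB0.le hcon
    have h4 : (m * a ^ (g + 1)) ^ (4 * g + 2) * absW v ((P.discr : ℤ) : ℚ) ≤
        1 * 2 ^ (-((1 : ℕ) : ℤ)) := mul_le_mul h3 hD1 (AbsoluteValue.nonneg _ _) (by norm_num)
    rw [hdisc] at h4
    norm_num at h4
  -- the coefficients
  have hco : ∀ j, m * (absW v ((hasseDeriv j F).eval β) * a ^ j) ≤ 1 := by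
    intro j
    have h3 := hI j
    rw [coeff_C_mul, coeff_comp_affine] at h3
    have h4 := (absW_le_one_iff v _).mpr h3
    rwa [map_mul, map_mul, map_pow] at h4
  have ha1 : a < 1 := by
    by_contra hcon
    push Not at hcon
    have h3 := hco n
    have h4 : (hasseDeriv n F).eval β = 1 := by
      rw [← taylor_coeff, ← hdF, coeff_taylor_natDegree]
      exact hmon.leadingCoeff
    rw [h4, map_one, one_mul] at h3
    have h5 : a ^ (g + 1) ≤ a ^ n := pow_le_pow_right₀ hcon (by omega)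
    have h6 : m * a ^ (g + 1) ≤ m * a ^ n := mul_le_mul_of_nonneg_left h5 hm0.le
    linarith
  have ha2 : a ≤ 2 ^ (-(1 : ℤ)) := by
    have := absW_lt v (x := α) (k := 0) (by simpa using ha1)
    simpa using this
  have hβ1 : absW v β ≤ 1 := by
    by_contra hcon
    push Not at hcon
    have h3 := abs_eval_large v hmon hintF hcon
    have h4 := hco 0
    rw [hasseDeriv_zero, LinearMap.id_apply, pow_zero, mul_one] at h4
    have h5 : m ≤ 1 := by nlinarith
    have h6 : a ^ (g + 1) ≤ 1 := pow_le_one₀ ha0.le ha1.le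
    nlinarith
  have hsm : ∀ j ≤ g + 1, absW v ((hasseDeriv j F).eval β) ≤ 2 ^ (-((g + 2 - j : ℕ) : ℤ)) := by
    intro j hj
    have h3 := hco j
    have h4 : absW v ((hasseDeriv j F).eval β) < a ^ (g + 1 - j) := by
      have h5 : m * a ^ (g + 1) = m * a ^ j * a ^ (g + 1 - j) := by
        rw [mul_assoc, ← pow_add]; congr 2; omega
      rw [h5] at hB1
      have h6 : (m * a ^ j) * absW v ((hasseDeriv j F).eval β) < (m * a ^ j) * a ^ (g + 1 - j) := by
        calc (m * a ^ j) * absW v ((hasseDeriv j F).eval β)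
            = m * (absW v ((hasseDeriv j F).eval β) * a ^ j) := by ring
          _ ≤ 1 := h3
          _ < _ := hB1
      exact lt_of_mul_lt_mul_left h6 (by positivity)
    have h5 : a ^ (g + 1 - j) ≤ 2 ^ (-((g + 1 - j : ℕ) : ℤ)) := by
      calc a ^ (g + 1 - j) ≤ ((2 : ℝ) ^ (-(1 : ℤ))) ^ (g + 1 - j) :=
            pow_le_pow_left₀ ha0.le ha2 _
        _ = 2 ^ (-((g + 1 - j : ℕ) : ℤ)) := by
            rw [← zpow_natCast, ← zpow_mul]
            congr 1
            ring
    have h6 := absW_lt v (lt_of_lt_of_le h4 h5)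
    have h7 : (-((g + 1 - j : ℕ) : ℤ)) - 1 = -((g + 2 - j : ℕ) : ℤ) := by
      push_cast [Nat.cast_sub hj, Nat.cast_sub (by omega : j ≤ g + 2)]
      ring
    rwa [h7] at h6
  constructor
  · obtain ⟨r, hr⟩ := exists_int_close v hβ1 (g + 2)
    refine ⟨r, fun j hj => ?_⟩
    rw [← absW_int_le]
    have h3 : (((hasseDeriv j P).eval r : ℤ) : ℚ) = (hasseDeriv j F).eval (r : ℚ) := by
      rw [hFdef, ← hasseDeriv_map', eval_intCast_map]
      rfl
    have h4 := eval_close v (hasseDeriv j P) (x := (r : ℚ)) (y := β) (absW_int_le_one v r) hβ1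
    have h5 : (hasseDeriv j P).map (Int.castRingHom ℚ) = hasseDeriv j F := by
      rw [hFdef, hasseDeriv_map']
    rw [h5] at h4
    have h6 : absW v ((r : ℚ) - β) ≤ 2 ^ (-((g + 2 : ℕ) : ℤ)) := by
      rw [← AbsoluteValue.map_neg, neg_sub]; exact hr
    rw [h3]
    have h7 : (hasseDeriv j F).eval (r : ℚ) =
        ((hasseDeriv j F).eval (r : ℚ) - (hasseDeriv j F).eval β) + (hasseDeriv j F).eval β := by
      ring
    rw [h7]
    refine (hna _ _).trans (max_le ?_ (hsm j hj))
    refine (h4.trans h6).trans ?_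
    exact (zpow_le_zpow_iff_right₀ (by norm_num : (1 : ℝ) < 2)).mpr (by omega)
  · rw [← absW_int_le]
    obtain ⟨k, hk⟩ := absW_pow2 v (x := μ * α ^ (g + 1)) (mul_ne_zero hμ (pow_ne_zero _ hα))
    rw [map_mul, map_pow, ← hm, ← ha] at hk
    rw [hk] at hB1 hdisc
    have hk1 : 1 ≤ k := by
      have h3 : (2 : ℝ) ^ (0 : ℤ) < 2 ^ k := by simpa using hB1
      have := (zpow_lt_zpow_iff_right₀ (by norm_num : (1 : ℝ) < 2)).mp h3
      omega
    have h3 : absW v ((P.discr : ℤ) : ℚ) = 2 ^ (-(k * (4 * g + 2 : ℕ))) := by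
      have h4 : ((2 : ℝ) ^ k) ^ (4 * g + 2) = 2 ^ (k * (4 * g + 2 : ℕ)) := by
        rw [zpow_mul, zpow_natCast]
      rw [h4] at hdisc
      rw [zpow_neg]
      exact eq_inv_of_mul_eq_one_right hdisc
    rw [h3]
    refine (zpow_le_zpow_iff_right₀ (by norm_num : (1 : ℝ) < 2)).mpr ?_
    have h5 : (1 : ℤ) * (4 * g + 2 : ℕ) ≤ k * (4 * g + 2 : ℕ) :=
      mul_le_mul_of_nonneg_right hk1 (by positivity)
    linarith

end Pool.Agent.TH4.HS
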