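import Pool.Agent.TH4.HS.Pl
import Pool.Agent.TH4.HS.Dis

/-!
# Good reduction of a hyperelliptic curve whose equation is not minimal at a prime
-/

namespace Pool.Agent.TH4.HS

open Polynomial NumberField IsDedekindDomain WithZero Pool.Agent.W318

variable (v : HeightOneSpectrum (𝓞 ℚ))

/-- integral coefficients at `v` -/
def IntP (P : ℚ[X]) : Prop := ∀ i, v.valuation ℚ (P.coeff i) ≤ 1

theorem intP_iff (P : ℚ[X]) :
    IntP v P ↔ P ∈ (mapRingHom (Subring.subtype (v.valuation ℚ).integer)).range := by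
  rw [Polynomial.mem_map_range]
  unfold IntP
  refine forall_congr' fun i => ?_
  constructor
  · intro h
    exact ⟨⟨P.coeff i, h⟩, rfl⟩
  · rintro ⟨x, hx⟩
    rw [← hx]
    exact x.2

theorem intP_act {n : ℕ} {a b c d : ℚ} {P : ℚ[X]} (hP : IntP v P) (ha : v.valuation ℚ a ≤ 1)
    (hb : v.valuation ℚ b ≤ 1) (hc : v.valuation ℚ c ≤ 1) (hd : v.valuation ℚ d ≤ 1) :
    IntP v (act n a b c d P) := by
  have hC : ∀ x : ℚ, v.valuation ℚ x ≤ 1 →
      (C x : ℚ[X]) ∈ (mapRingHom (Subring.subtype (v.valuation ℚ).integer)).range := by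
    intro x hx
    rw [← intP_iff]
    intro i
    rw [coeff_C]
    split_ifs
    · exact hx
    · simp
  have hX : (X : ℚ[X]) ∈ (mapRingHom (Subring.subtype (v.valuation ℚ).integer)).range :=
    ⟨X, by simp⟩
  rw [intP_iff]
  unfold act
  refine sum_mem fun i _ => ?_
  refine mul_mem (mul_mem (hC _ (hP i)) (pow_mem (add_mem (mul_mem (hC _ ha) hX) (hC _ hb)) _))
    (pow_mem (add_mem (mul_mem (hC _ hc) hX) (hC _ hd)) _)

theorem act_affine {n : ℕ} {a b d : ℚ} (hd : d ≠ 0) {F : ℚ[X]} (hF : F.natDegree ≤ n) :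
    act n a b 0 d F = C (d ^ n) * F.comp (C (a / d) * X + C (b / d)) := by
  refine poly_eq_of_eval (c := 0) (d := d) (Or.inr hd) fun x hx => ?_
  rw [eval_act hF hx]
  simp only [eval_mul, eval_C, eval_comp, eval_add, eval_X, zero_mul, zero_add]
  congr 2
  field_simp

theorem absW_abs (x : ℚ) : absW v |x| = absW v x := by
  rcases abs_choice x with h | h
  · rw [h]
  · rw [h, AbsoluteValue.map_neg]

theorem absW_pow2 {x : ℚ} (hx : x ≠ 0) : ∃ k : ℤ, absW v x = 2 ^ k := by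
  obtain ⟨k, hk⟩ := exists_exp v hx
  exact ⟨k, absW_exp v hk⟩

theorem absW_lt {x : ℚ} {k : ℤ} (h : absW v x < 2 ^ k) : absW v x ≤ 2 ^ (k - 1) := by
  rcases eq_or_ne x 0 with rfl | hx
  · rw [map_zero]; positivity
  · obtain ⟨j, hj⟩ := absW_pow2 v hx
    rw [hj] at h ⊢
    have h1 : j < k := (zpow_lt_zpow_iff_right₀ (by norm_num : (1 : ℝ) < 2)).mp h
    exact (zpow_le_zpow_iff_right₀ (by norm_num : (1 : ℝ) < 2)).mpr (by omega)

theorem absW_int_le (m : ℤ) (k : ℕ) :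
    absW v (m : ℚ) ≤ 2 ^ (-(k : ℤ)) ↔ (pv v : ℤ) ^ k ∣ m := by
  rw [absW_le_iff, val_le_iff]

theorem absW_int_le_one (m : ℤ) : absW v (m : ℚ) ≤ 1 :=
  (absW_le_one_iff v _).mpr (val_int_le_one v m)

theorem absW_int_eq_one {m : ℤ} (h : ¬ (pv v : ℤ) ∣ m) : absW v (m : ℚ) = 1 := by
  apply le_antisymm (absW_int_le_one v m)
  by_contra hcon
  push Not at hcon
  have h1 := absW_lt v (k := 0) (by simpa using hcon)
  have h2 := (absW_int_le v m 1).mp (by simpa using h1)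
  rw [pow_one] at h2
  exact h h2

/-- a `v`-integral rational number is close to an integer -/
theorem exists_int_close {x : ℚ} (hx : absW v x ≤ 1) (k : ℕ) :
    ∃ r : ℤ, absW v (x - r) ≤ 2 ^ (-(k : ℤ)) := by
  have hp := pv_prime v
  have hden : ¬ (pv v : ℤ) ∣ (x.den : ℤ) := by
    intro h
    have h1 : absW v ((x.den : ℤ) : ℚ) ≤ 2 ^ (-((1 : ℕ) : ℤ)) := (absW_int_le v _ 1).mpr (by simpa using h)
    have h2 : ¬ (pv v : ℤ) ∣ x.num := by
      intro h3
      have h4 := Int.natAbs_dvd_natAbs.mpr h3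
      have h5 := Int.natAbs_dvd_natAbs.mpr h
      rw [Int.natAbs_natCast] at h4 h5
      rw [Int.natAbs_natCast] at h5
      have h6 := Nat.dvd_gcd h4 h5
      rw [x.reduced] at h6
      exact hp.one_lt.ne' (Nat.dvd_one.mp h6)
    have h3 := absW_int_eq_one v h2
    have h4 : (x.num : ℚ) = x * ((x.den : ℤ) : ℚ) := by
      push_cast
      exact (Rat.mul_den_eq_num x).symm
    rw [h4, map_mul] at h3
    have h5 : absW v x * absW v ((x.den : ℤ) : ℚ) ≤ 1 * 2 ^ (-((1 : ℕ) : ℤ)) :=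
      mul_le_mul hx h1 (AbsoluteValue.nonneg _ _) (by norm_num)
    rw [h3] at h5
    norm_num at h5
  have hcop : IsCoprime ((x.den : ℤ)) ((pv v : ℤ) ^ k) := by
    apply IsCoprime.pow_right
    exact (((Nat.prime_iff_prime_int.mp hp).coprime_iff_not_dvd).mpr hden).symm
  obtain ⟨s, t, hst⟩ := hcop
  refine ⟨x.num * s, ?_⟩
  have hd0 : (x.den : ℚ) ≠ 0 := by exact_mod_cast x.den_ne_zero
  have h1 : x - ((x.num * s : ℤ) : ℚ) = x * ((t * (pv v : ℤ) ^ k : ℤ) : ℚ) := by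
    have h2 : ((s * x.den + t * (pv v : ℤ) ^ k : ℤ) : ℚ) = 1 := by
      have := congrArg (fun z : ℤ => (z : ℚ)) hst
      simpa using this
    have h3 : (x.num : ℚ) = x * x.den := (Rat.mul_den_eq_num x).symm
    push_cast at h2 ⊢
    rw [h3]
    linear_combination (-x) * h2
  rw [h1, map_mul]
  have h4 : absW v ((t * (pv v : ℤ) ^ k : ℤ) : ℚ) ≤ 2 ^ (-(k : ℤ)) :=
    (absW_int_le v _ k).mpr (dvd_mul_left _ _)
  calc absW v x * absW v ((t * (pv v : ℤ) ^ k : ℤ) : ℚ) ≤ 1 * 2 ^ (-(k : ℤ)) :=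
        mul_le_mul hx h4 (AbsoluteValue.nonneg _ _) (by norm_num)
    _ = 2 ^ (-(k : ℤ)) := one_mul _

theorem eval_close (Q : ℤ[X]) {x y : ℚ} (hx : absW v x ≤ 1) (hy : absW v y ≤ 1) :
    absW v ((Q.map (Int.castRingHom ℚ)).eval x - (Q.map (Int.castRingHom ℚ)).eval y) ≤
      absW v (x - y) := by
  set O := (v.valuation ℚ).integer with hO
  set x' : O := ⟨x, (absW_le_one_iff v x).mp hx⟩ with hx'
  set y' : O := ⟨y, (absW_le_one_iff v y).mp hy⟩ with hy'
  obtain ⟨c, hc⟩ := Polynomial.sub_dvd_eval_sub x' y' (Q.map (Int.castRingHom O))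
  have h1 := congrArg (Subring.subtype O) hc
  have e : ∀ z : O, Subring.subtype O ((Q.map (Int.castRingHom O)).eval z) =
      (Q.map (Int.castRingHom ℚ)).eval (z : ℚ) := by
    intro z
    rw [← Polynomial.eval_map_apply, Polynomial.map_map]
    congr 2
  rw [map_sub, map_mul, e, e, map_sub] at h1
  have h2 : (Subring.subtype O) x' = x := rfl
  have h3 : (Subring.subtype O) y' = y := rfl
  rw [h2, h3] at h1
  have h4 : absW v ((Subring.subtype O) c) ≤ 1 := (absW_le_one_iff v _).mpr c.2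
  change absW v ((Q.map (Int.castRingHom ℚ)).eval x - (Q.map (Int.castRingHom ℚ)).eval y) ≤ _
  rw [h1, map_mul]
  exact mul_le_of_le_one_right (AbsoluteValue.nonneg _ _) h4

end Pool.Agent.TH4.HS
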