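import Pool.Agent.TH4.HS.Glob
import Pool.Agent.TH4.HS.Cnt

/-!
# Szpiro's inequality for `y² = f(x) + t`, uniformly in `f`
-/

namespace Pool.Agent.TH4.HS

open Polynomial Finset Pool.Agent.W318
open Pool.Agent.H785R2.ABC (rad stmtA1 stmtA2 stmtA3_of stmtA4_of A345_harm)

/-- Szpiro's inequality for the curve `y² = F(x)` -/
def Good (g : ℕ) (c κ : ℝ) (F : ℚ[X]) : Prop :=
  IsHyp g F ∧ (discNorm g F : ℝ) ≤ c * (badNorm g F : ℝ) ^ κ

section

variable {g n : ℕ} {κ c : ℝ}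

/-- the constant of the bound for the discriminant -/
noncomputable def K1 (n : ℕ) : ℝ := (n : ℝ) ^ n * (3 * 2 ^ n) ^ (n - 1)

theorem one_le_K1 (hn : 1 ≤ n) : 1 ≤ K1 n := by
  unfold K1
  have h1 : (1 : ℝ) ≤ n := by exact_mod_cast hn
  have h2 : (1 : ℝ) ≤ 3 * 2 ^ n := by
    have : (1 : ℝ) ≤ 2 ^ n := one_le_pow₀ (by norm_num)
    linarith
  exact one_le_mul_of_one_le_of_one_le (one_le_pow₀ h1) (one_le_pow₀ h2)

/-- the conductor of an exceptional curve is small -/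
theorem bad_le (hg : 2 ≤ g) (hn : n = 2 * g + 1 ∨ n = 2 * g + 2) (hκ : 0 < κ) (hc : 0 < c)
    {f : ℤ[X]} (hf : f.Monic) (hd : f.natDegree = n) {t : ℤ} {H : ℝ} (hH : 1 ≤ H)
    (hD : (f + C t).discr ≠ 0) (hD1 : ((f + C t).discr.natAbs : ℝ) ≤ K1 n * H ^ (n - 1))
    (hE : ¬ Good g c κ ((f + C t).map (Int.castRingHom ℚ))) :
    (badNorm g ((f + C t).map (Int.castRingHom ℚ)) : ℝ) ≤
      (2 ^ (4 * g) * K1 n / c) ^ (1 / κ) * H ^ (((n : ℝ) - 1) / κ) := by
  have hn5 : 5 ≤ n := by omega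
  have hK1 := one_le_K1 (n := n) (by omega)
  have hH0 : 0 < H := by linarith
  have hPm : (f + C t).Monic := by
    apply hf.add_of_left
    rw [degree_eq_natDegree hf.ne_zero, hd]
    exact lt_of_le_of_lt degree_C_le (by exact_mod_cast (by omega : 0 < n))
  have hPd : (f + C t).natDegree = n := by rw [natDegree_add_C, hd]
  set F := (f + C t).map (Int.castRingHom ℚ) with hF
  have h1 : IsHyp g F := isHyp_of hn hPm hPd hD
  have h2 : c * (badNorm g F : ℝ) ^ κ < discNorm g F := by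
    by_contra hcon
    push Not at hcon
    exact hE ⟨h1, hcon⟩
  have h3 : (discNorm g F : ℝ) ≤ 2 ^ (4 * g) * ((f + C t).discr.natAbs : ℝ) := by
    exact_mod_cast discNorm_le hn hPm hPd hD
  have h4 : (badNorm g F : ℝ) ^ κ ≤ 2 ^ (4 * g) * K1 n / c * H ^ (n - 1) := by
    have h5 : c * (badNorm g F : ℝ) ^ κ ≤ 2 ^ (4 * g) * (K1 n * H ^ (n - 1)) := by
      refine h2.le.trans (h3.trans ?_)
      exact mul_le_mul_of_nonneg_left hD1 (by positivity)
    rw [div_mul_eq_mul_div, le_div_iff₀ hc]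
    linarith
  have h5 : ((badNorm g F : ℝ) ^ κ) ^ (1 / κ) ≤ (2 ^ (4 * g) * K1 n / c * H ^ (n - 1)) ^ (1 / κ) :=
    Real.rpow_le_rpow (by positivity) h4 (by positivity)
  rw [← Real.rpow_mul (by positivity), mul_one_div_cancel hκ.ne', Real.rpow_one,
    Real.mul_rpow (by positivity) (by positivity)] at h5
  refine h5.trans (le_of_eq ?_)
  congr 1
  rw [← Real.rpow_natCast, ← Real.rpow_mul hH0.le]
  congr 1
  rw [Nat.cast_sub (by omega)]
  push_cast
  ring

theorem A_le (hg : 2 ≤ g) (hn : n = 2 * g + 1 ∨ n = 2 * g + 2) {A D : ℕ} {H : ℝ} (hH : 1 ≤ H)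
    (hA : A ^ (4 * g + 2) ≤ D) (hD1 : (D : ℝ) ≤ K1 n * H ^ (n - 1)) :
    (A : ℝ) ≤ K1 n * √H := by
  have hK1 := one_le_K1 (n := n) (by omega)
  have hH0 : 0 < H := by linarith
  have h1 : (A : ℝ) ^ (4 * g + 2) ≤ (K1 n * √H) ^ (4 * g + 2) := by
    calc (A : ℝ) ^ (4 * g + 2) ≤ D := by exact_mod_cast hA
      _ ≤ K1 n * H ^ (n - 1) := hD1
      _ ≤ K1 n ^ (4 * g + 2) * H ^ (2 * g + 1) := by
          apply mul_le_mul _ (pow_le_pow_right₀ hH (by omega)) (by positivity) (by positivity)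
          calc K1 n = K1 n ^ 1 := (pow_one _).symm
            _ ≤ K1 n ^ (4 * g + 2) := pow_le_pow_right₀ hK1 (by omega)
      _ = (K1 n * √H) ^ (4 * g + 2) := by
          rw [mul_pow]
          congr 1
          have e1 : 4 * g + 2 = 2 * (2 * g + 1) := by ring
          rw [e1, pow_mul, Real.sq_sqrt hH0.le]
  exact le_of_pow_le_pow_left₀ (by omega) (by positivity) h1

end

/-- **Main theorem.** -/
theorem uniform (g n : ℕ) (hg : 2 ≤ g) (hn : n = 2 * g + 1 ∨ n = 2 * g + 2) (κ c δ : ℝ)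
    (hκ : (n : ℝ) - 1 < κ) (hc : 0 < c) (hδ1 : δ < 1 / 2)
    (hδ2 : δ < ((g : ℝ) + 1) / (g + 2) * (1 - ((n : ℝ) - 1) / κ)) :
    ∃ K : ℝ, ∀ B : ℝ, 1 ≤ B → ∀ f : ℤ[X], f.Monic → f.natDegree = n →
      (∀ i, i < n → |((f.coeff i : ℤ) : ℝ)| ≤ B ^ (n - i)) →
        ({t : ℤ | |(t : ℝ)| ≤ B ^ n ∧
          ¬ Good g c κ ((f + C t).map (Int.castRingHom ℚ))}.ncard : ℝ) ≤
            K * B ^ ((n : ℝ) * (1 - δ)) := by
  classical
  have hn5 : 5 ≤ n := by omega
  have hg' : (2 : ℝ) ≤ g := by exact_mod_cast hg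
  have hN5 : (5 : ℝ) ≤ n := by exact_mod_cast hn5
  have hκ0 : 0 < κ := by linarith
  have hK1 := one_le_K1 (n := n) (by omega)
  set ρ : ℝ := ((n : ℝ) - 1) / κ with hρ
  have hρ0 : 0 < ρ := div_pos (by linarith) hκ0
  have hρ1 : ρ < 1 := by rw [hρ, div_lt_one hκ0]; linarith
  set θ : ℝ := ((g : ℝ) + 1) / (g + 2) * (1 - ρ) with hθ
  have hθ1 : θ ≤ 1 := by
    have h1 : ((g : ℝ) + 1) / (g + 2) ≤ 1 := by
      rw [div_le_one (by linarith)]; linarith
    have h2 : (0 : ℝ) ≤ ((g : ℝ) + 1) / (g + 2) := by positivity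
    nlinarith
  set ε : ℝ := min ((θ - δ) / n) (1 / 2 - δ) with hε
  have hε0 : 0 < ε := lt_min (div_pos (by linarith) (by linarith)) (by linarith)
  have hεN : ε * n ≤ θ - δ := by
    have := min_le_left ((θ - δ) / n) (1 / 2 - δ)
    calc ε * n ≤ (θ - δ) / n * n := mul_le_mul_of_nonneg_right this (by linarith)
      _ = θ - δ := div_mul_cancel₀ _ (by linarith)
  have hεh : ε ≤ 1 / 2 - δ := min_le_right _ _
  obtain ⟨D1, hD1, hA4⟩ := stmtA4_of (stmtA3_of stmtA2) ε hε0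
  obtain ⟨D2, hD2, hA1⟩ := stmtA1 n (by linarith) ε hε0
  set K3 : ℝ := (2 ^ (4 * g) * K1 n / c) ^ (1 / κ) with hK3
  have hK30 : 0 ≤ K3 := by positivity
  refine ⟨2 * n + (2 * n * (D1 * K1 n ^ ε * (2 * K3)) +
    D2 * K1 n ^ ε * (3 * (1 + 1 / ε) * K1 n ^ ε + K1 n)), ?_⟩
  intro B hB f hf hd hcf
  set H : ℝ := B ^ n with hH
  have hH1 : 1 ≤ H := one_le_pow₀ hB
  have hH0 : 0 < H := by linarith
  have htarget : B ^ ((n : ℝ) * (1 - δ)) = H ^ (1 - δ) := by
    rw [Real.rpow_mul (by linarith), Real.rpow_natCast]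
  rw [htarget]
  have hmono : ∀ {x y : ℝ}, x ≤ y → H ^ x ≤ H ^ y := fun h =>
    Real.rpow_le_rpow_of_exponent_le hH1 h
  -- the exceptional set as a finite set
  set T : ℤ := ⌊H⌋ with hT
  have hT0 : 0 ≤ T := Int.floor_nonneg.mpr hH0.le
  have hTH : (T : ℝ) ≤ H := Int.floor_le H
  set E : Finset ℤ := (Icc (-T) T).filter
    (fun t => ¬ Good g c κ ((f + C t).map (Int.castRingHom ℚ))) with hE
  have hEq : {t : ℤ | |(t : ℝ)| ≤ H ∧
      ¬ Good g c κ ((f + C t).map (Int.castRingHom ℚ))} = (E : Set ℤ) := by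
    ext t
    rw [Set.mem_setOf_eq, Finset.mem_coe, hE, mem_filter, mem_Icc, ← abs_le, hT, Int.le_floor,
      Int.cast_abs]
  rw [hEq, Set.ncard_coe_finset]
  have hEH : ∀ t ∈ E, |t| ≤ T ∧ |(t : ℝ)| ≤ H := by
    intro t ht
    rw [hE, mem_filter, mem_Icc, ← abs_le] at ht
    refine ⟨ht.1, ?_⟩
    have := ht.1
    rw [hT, Int.le_floor, Int.cast_abs] at this
    exact this
  have hDle : ∀ t ∈ E, ((f + C t).discr.natAbs : ℝ) ≤ K1 n * H ^ (n - 1) := by
    intro t ht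
    have h1 := discr_le hf hd (by omega) (by linarith : 0 < B) hcf (hEH t ht).2
    refine h1.trans (le_of_eq ?_)
    unfold K1
    rw [mul_pow, ← hH]
    ring
  set Y : ℝ := H ^ ((1 - ρ) / (g + 2)) with hY
  have hY0 : 0 < Y := by positivity
  set R : ℝ := 2 * (K3 * H ^ ρ) * Y with hR
  set M0 : ℕ := ⌊K1 n * H ^ (n - 1)⌋₊ with hM0
  set M : ℕ := ⌊K1 n * √H⌋₊ with hM
  set Z0 := E.filter (fun t => (f + C t).discr = 0) with hZ0
  set Z1 := E.filter (fun t => (f + C t).discr ≠ 0 ∧ (rad (f + C t).discr.natAbs : ℝ) ≤ R) with hZ1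
  set Z2 := E.filter (fun t => ∃ A : ℕ, Squarefree A ∧ A ≤ M ∧ Y < A ∧
      ∀ p ∈ A.primeFactors, Hit f (g + 2) p t) with hZ2
  have hcover : E ⊆ Z0 ∪ (Z1 ∪ Z2) := by
    intro t ht
    rw [mem_union, mem_union]
    by_cases hD : (f + C t).discr = 0
    · exact Or.inl (mem_filter.mpr ⟨ht, hD⟩)
    · right
      have hEt : ¬ Good g c κ ((f + C t).map (Int.castRingHom ℚ)) := (mem_filter.mp ht).2
      obtain ⟨A, hA1, hA2, hA3, hA4'⟩ := exists_A hg hn hf hd hD
      have hb := bad_le hg hn hκ0 hc hf hd hH1 hD (hDle t ht) hEt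
      by_cases hAY : (A : ℝ) ≤ Y
      · left
        rw [hZ1, mem_filter]
        refine ⟨ht, hD, ?_⟩
        calc (rad (f + C t).discr.natAbs : ℝ) ≤
              2 * (badNorm g ((f + C t).map (Int.castRingHom ℚ)) : ℝ) * A := by
              exact_mod_cast hA4'
          _ ≤ 2 * (K3 * H ^ ρ) * Y := by
              apply mul_le_mul _ hAY (by positivity) (by positivity)
              exact mul_le_mul_of_nonneg_left hb (by norm_num)
      · right
        push Not at hAY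
        rw [hZ2, mem_filter]
        exact ⟨ht, A, hA1, Nat.le_floor (A_le hg hn hH1 hA3 (hDle t ht)), hAY, hA2⟩
  -- the three parts
  have hZ0c : (Z0.card : ℝ) ≤ 2 * n * H ^ (1 - δ) := by
    have h1 := card_fibre hf hd (by omega) 0 Z0 fun t ht => by
      rw [(mem_filter.mp ht).2]; rfl
    have h2 : (Z0.card : ℝ) ≤ 2 * n := by
      have : Z0.card ≤ 2 * n := by omega
      exact_mod_cast this
    have h3 : 1 ≤ H ^ (1 - δ) := Real.one_le_rpow hH1 (by linarith)
    nlinarith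
  have hZ1c : (Z1.card : ℝ) ≤ 2 * n * (D1 * K1 n ^ ε * (2 * K3)) * H ^ (1 - δ) := by
    have hM01 : 1 ≤ M0 := by
      rw [hM0]
      apply Nat.le_floor
      rw [Nat.cast_one]
      exact one_le_mul_of_one_le_of_one_le hK1 (one_le_pow₀ hH1)
    have h1 := count_rad hf hd (by omega) M0 R Z1 fun t ht => by
      rw [hZ1, mem_filter] at ht
      refine ⟨ht.2.1, Nat.le_floor (hDle t ht.1), ht.2.2⟩
    have h2 := hA4 M0 hM01 R (by positivity)
    have h3 : (M0 : ℝ) ^ ε ≤ K1 n ^ ε * H ^ (ε * (n - 1)) := by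
      calc (M0 : ℝ) ^ ε ≤ (K1 n * H ^ (n - 1)) ^ ε :=
            Real.rpow_le_rpow (by positivity) (Nat.floor_le (by positivity)) hε0.le
        _ = K1 n ^ ε * H ^ (ε * (n - 1)) := by
            rw [Real.mul_rpow (by positivity) (by positivity), ← Real.rpow_natCast,
              ← Real.rpow_mul hH0.le, Nat.cast_sub (by omega)]
            congr 2
            push_cast
            ring
    calc (Z1.card : ℝ) ≤ ((2 * (n - 1) * ((Icc 1 M0).filter fun d => (rad d : ℝ) ≤ R).card : ℕ) : ℝ) := by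
          exact_mod_cast h1
      _ ≤ 2 * n * (((Icc 1 M0).filter fun d => (rad d : ℝ) ≤ R).card : ℝ) := by
          push_cast [Nat.cast_sub (by omega : 1 ≤ n)]
          apply mul_le_mul_of_nonneg_right _ (by positivity)
          linarith
      _ ≤ 2 * n * (D1 * (M0 : ℝ) ^ ε * R) := mul_le_mul_of_nonneg_left h2 (by positivity)
      _ ≤ 2 * n * (D1 * (K1 n ^ ε * H ^ (ε * (n - 1))) * R) := by
          apply mul_le_mul_of_nonneg_left _ (by positivity)
          apply mul_le_mul_of_nonneg_right _ (by positivity)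
          exact mul_le_mul_of_nonneg_left h3 hD1.le
      _ = 2 * n * (D1 * K1 n ^ ε * (2 * K3)) * H ^ (ε * (n - 1) + ρ + (1 - ρ) / (g + 2)) := by
          rw [Real.rpow_add hH0, Real.rpow_add hH0, hR, hY]
          ring
      _ ≤ 2 * n * (D1 * K1 n ^ ε * (2 * K3)) * H ^ (1 - δ) := by
          apply mul_le_mul_of_nonneg_left _ (by positivity)
          apply hmono
          have h4 : θ = (1 - ρ) - (1 - ρ) / (g + 2) := by
            rw [hθ]; field_simp; ring
          nlinarith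
  have hZ2c : (Z2.card : ℝ) ≤ D2 * K1 n ^ ε * (3 * (1 + 1 / ε) * K1 n ^ ε + K1 n) * H ^ (1 - δ) := by
    have hM1 : 1 ≤ M := by
      rw [hM]
      apply Nat.le_floor
      rw [Nat.cast_one]
      exact one_le_mul_of_one_le_of_one_le hK1 (Real.one_le_sqrt.mpr hH1)
    have hMle : (M : ℝ) ≤ K1 n * √H := Nat.floor_le (by positivity)
    have hMε : (M : ℝ) ^ ε ≤ K1 n ^ ε * H ^ (ε / 2) := by
      calc (M : ℝ) ^ ε ≤ (K1 n * √H) ^ ε := Real.rpow_le_rpow (by positivity) hMle hε0.le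
        _ = K1 n ^ ε * H ^ (ε / 2) := by
            rw [Real.mul_rpow (by positivity) (by positivity), Real.sqrt_eq_rpow,
              ← Real.rpow_mul hH0.le]
            congr 2
            ring
    have h1 := count_big hf hd (by omega) (k := g + 2) (by omega) T hT0 M Y hY0 Z2 (fun t ht => by
        rw [hZ2, mem_filter] at ht
        exact ⟨(hEH t ht.1).1, ht.2⟩) (W := D2 * (M : ℝ) ^ ε) (fun A hA => by
        rw [mem_Icc] at hA
        refine (hA1 A hA.1).trans ?_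
        apply mul_le_mul_of_nonneg_left _ hD2.le
        exact Real.rpow_le_rpow (by positivity) (by exact_mod_cast hA.2) hε0.le) (by positivity)
    have h2 := A345_harm ε hε0 M hM1
    have h3 : Y ^ (g + 2 - 1) = H ^ θ := by
      rw [hY, ← Real.rpow_natCast, ← Real.rpow_mul hH0.le]
      congr 1
      rw [hθ, Nat.cast_sub (by omega)]
      push_cast
      field_simp
      ring
    rw [h3] at h1
    have h4 : (2 * (T : ℝ) + 1) / H ^ θ ≤ 3 * H ^ (1 - θ) := by
      rw [Real.rpow_sub hH0, Real.rpow_one, ← mul_div_assoc]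
      apply div_le_div_of_nonneg_right _ (by positivity)
      linarith
    have h5 : (0 : ℝ) ≤ 1 + 1 / ε := by positivity
    calc (Z2.card : ℝ) ≤ D2 * (M : ℝ) ^ ε * ((2 * T + 1) / H ^ θ * (∑ A ∈ Icc 1 M, 1 / (A : ℝ)) + M) := h1
      _ ≤ D2 * (K1 n ^ ε * H ^ (ε / 2)) *
          (3 * H ^ (1 - θ) * ((1 + 1 / ε) * (K1 n ^ ε * H ^ (ε / 2))) + K1 n * H ^ (1 / 2 : ℝ)) := by
          apply mul_le_mul (mul_le_mul_of_nonneg_left hMε hD2.le) _ (by positivity) (by positivity)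
          apply add_le_add
          · apply mul_le_mul h4 _ (by positivity) (by positivity)
            exact h2.trans (mul_le_mul_of_nonneg_left hMε h5)
          · rw [← Real.sqrt_eq_rpow]; exact hMle
      _ = D2 * K1 n ^ ε * (3 * (1 + 1 / ε) * K1 n ^ ε) * H ^ (ε / 2 + ε / 2 + (1 - θ)) +
          D2 * K1 n ^ ε * K1 n * H ^ (ε / 2 + 1 / 2) := by
          rw [Real.rpow_add hH0, Real.rpow_add hH0, Real.rpow_add hH0]
          ring
      _ ≤ D2 * K1 n ^ ε * (3 * (1 + 1 / ε) * K1 n ^ ε) * H ^ (1 - δ) +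
          D2 * K1 n ^ ε * K1 n * H ^ (1 - δ) := by
          apply add_le_add
          · apply mul_le_mul_of_nonneg_left _ (by positivity)
            apply hmono
            nlinarith
          · apply mul_le_mul_of_nonneg_left _ (by positivity)
            apply hmono
            linarith
      _ = D2 * K1 n ^ ε * (3 * (1 + 1 / ε) * K1 n ^ ε + K1 n) * H ^ (1 - δ) := by ring
  have hsum : (E.card : ℝ) ≤ Z0.card + (Z1.card + Z2.card) := by
    have h1 := (card_le_card hcover).trans ((card_union_le _ _).trans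
      (Nat.add_le_add_left (card_union_le _ _) _))
    exact_mod_cast h1
  calc (E.card : ℝ) ≤ Z0.card + (Z1.card + Z2.card) := hsum
    _ ≤ 2 * n * H ^ (1 - δ) + (2 * n * (D1 * K1 n ^ ε * (2 * K3)) * H ^ (1 - δ) +
        D2 * K1 n ^ ε * (3 * (1 + 1 / ε) * K1 n ^ ε + K1 n) * H ^ (1 - δ)) :=
        add_le_add hZ0c (add_le_add hZ1c hZ2c)
    _ = _ := by ring

end Pool.Agent.TH4.HS
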