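import Pool.Agent.TH4.HS.Main
import Pool.Agent.TH4.HS.Cnt2

/-!
# Szpiro's inequality for `y² = f(x) + t`, uniformly in `f`, with the full power saving
-/

namespace Pool.Agent.TH4.HS

open Polynomial Finset Pool.Agent.W318
open Pool.Agent.H785R2.ABC (rad stmtA1 stmtA2 stmtA3_of stmtA4_of A345_harm)

section

variable {g n : ℕ} {ρ θ δ ε : ℝ}

/-- first part -/
theorem part1 {f : ℤ[X]} (hn : 5 ≤ n) (hf : f.Monic) (hd : f.natDegree = n) {H K3 D1 : ℝ}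
    (hH1 : 1 ≤ H) (hK3 : 0 ≤ K3) (hε0 : 0 < ε) (hD1 : 0 < D1)
    (hA4 : ∀ X : ℕ, 1 ≤ X → ∀ R : ℝ, 0 ≤ R →
      (((Icc 1 X).filter fun d => (rad d : ℝ) ≤ R).card : ℝ) ≤ D1 * (X : ℝ) ^ ε * R)
    (hexp : ε * (n - 1) + ρ + (1 - ρ) / (g + 2) ≤ 1 - δ) (Z : Finset ℤ)
    (hZ : ∀ t ∈ Z, (f + C t).discr ≠ 0 ∧ ((f + C t).discr.natAbs : ℝ) ≤ K1 n * H ^ (n - 1) ∧
      (rad (f + C t).discr.natAbs : ℝ) ≤ 2 * (K3 * H ^ ρ) * H ^ ((1 - ρ) / (g + 2))) :
    (Z.card : ℝ) ≤ 2 * n * (D1 * K1 n ^ ε * (2 * K3)) * H ^ (1 - δ) := by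
  have hK1 := one_le_K1 (n := n) (by omega)
  have hH0 : 0 < H := by linarith
  set Y : ℝ := H ^ ((1 - ρ) / (g + 2)) with hY
  set R : ℝ := 2 * (K3 * H ^ ρ) * Y with hR
  set M0 : ℕ := ⌊K1 n * H ^ (n - 1)⌋₊ with hM0
  have hM01 : 1 ≤ M0 := by
    rw [hM0]
    apply Nat.le_floor
    rw [Nat.cast_one]
    exact one_le_mul_of_one_le_of_one_le hK1 (one_le_pow₀ hH1)
  have h1 := count_rad hf hd (by omega) M0 R Z fun t ht => by
    obtain ⟨h1, h2, h3⟩ := hZ t ht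
    exact ⟨h1, Nat.le_floor h2, h3⟩
  have h2 := hA4 M0 hM01 R (by positivity)
  have h3 : (M0 : ℝ) ^ ε ≤ K1 n ^ ε * H ^ (ε * (n - 1)) := by
    calc (M0 : ℝ) ^ ε ≤ (K1 n * H ^ (n - 1)) ^ ε :=
          Real.rpow_le_rpow (by positivity) (Nat.floor_le (by positivity)) hε0.le
      _ = K1 n ^ ε * H ^ (ε * (n - 1)) := by
          rw [Real.mul_rpow (by positivity) (by positivity), ← Real.rpow_natCast,
            ← Real.rpow_mul hH0.le, Nat.cast_sub (by omega)]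
          congr 2
          push_cast
          ring
  calc (Z.card : ℝ) ≤ ((2 * (n - 1) * ((Icc 1 M0).filter fun d => (rad d : ℝ) ≤ R).card : ℕ) : ℝ) := by
        exact_mod_cast h1
    _ ≤ 2 * n * (((Icc 1 M0).filter fun d => (rad d : ℝ) ≤ R).card : ℝ) := by
        push_cast [Nat.cast_sub (by omega : 1 ≤ n)]
        apply mul_le_mul_of_nonneg_right _ (by positivity)
        linarith
    _ ≤ 2 * n * (D1 * (M0 : ℝ) ^ ε * R) := mul_le_mul_of_nonneg_left h2 (by positivity)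
    _ ≤ 2 * n * (D1 * (K1 n ^ ε * H ^ (ε * (n - 1))) * R) := by
        apply mul_le_mul_of_nonneg_left _ (by positivity)
        apply mul_le_mul_of_nonneg_right _ (by positivity)
        exact mul_le_mul_of_nonneg_left h3 hD1.le
    _ = 2 * n * (D1 * K1 n ^ ε * (2 * K3)) * H ^ (ε * (n - 1) + ρ + (1 - ρ) / (g + 2)) := by
        rw [Real.rpow_add hH0, Real.rpow_add hH0, hR, hY]
        ring
    _ ≤ 2 * n * (D1 * K1 n ^ ε * (2 * K3)) * H ^ (1 - δ) := by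
        apply mul_le_mul_of_nonneg_left _ (by positivity)
        exact Real.rpow_le_rpow_of_exponent_le hH1 hexp

/-- second part, rational critical point of high multiplicity -/
theorem part2a {f : ℤ[X]} (hn : 5 ≤ n) (hf : f.Monic) (hd : f.natDegree = n) {H D2 : ℝ}
    (hH1 : 1 ≤ H) (hε0 : 0 < ε) (hD2 : 0 < D2)
    (hA1 : ∀ m : ℕ, 1 ≤ m → (n : ℝ) ^ m.primeFactors.card ≤ D2 * (m : ℝ) ^ ε)
    (hθ : θ = (1 - ρ) / (g + 2) * (g + 1))
    (hexp1 : ε / 2 + ε / 2 + (1 - θ) ≤ 1 - δ) (hexp2 : ε / 2 + 1 / (g + 2) ≤ 1 - δ)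
    {T : ℤ} (hT0 : 0 ≤ T) (hTH : (T : ℝ) ≤ H) (Z : Finset ℤ)
    (hZ : ∀ t ∈ Z, |t| ≤ T ∧ ∃ A : ℕ, Squarefree A ∧ (A : ℝ) ^ (g + 2) ≤ K5 g n * H ∧
      H ^ ((1 - ρ) / (g + 2)) < A ∧ ∀ p ∈ A.primeFactors, Hit f (g + 2) p t) :
    (Z.card : ℝ) ≤ D2 * K5 g n ^ ε * (3 * (1 + 1 / ε) * K5 g n ^ ε + K5 g n) * H ^ (1 - δ) := by
  have hK5 := one_le_K5 (g := g) (n := n) (by omega)
  have hH0 : 0 < H := by linarith
  set Y : ℝ := H ^ ((1 - ρ) / (g + 2)) with hY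
  have hY0 : 0 < Y := by positivity
  have hmono : ∀ {x y : ℝ}, x ≤ y → H ^ x ≤ H ^ y := fun h =>
    Real.rpow_le_rpow_of_exponent_le hH1 h
  set e : ℝ := 1 / (g + 2) with he
  have he0 : 0 < e := by positivity
  have he1 : e ≤ 1 / 2 := by
    rw [he]
    apply one_div_le_one_div_of_le (by norm_num)
    have : (0 : ℝ) ≤ g := Nat.cast_nonneg g
    linarith
  set M : ℕ := ⌊K5 g n * H ^ e⌋₊ with hM
  have hroot : (H ^ e) ^ (g + 2) = H := by
    rw [← Real.rpow_natCast, ← Real.rpow_mul hH0.le, he]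
    have : 1 / ((g : ℝ) + 2) * ((g + 2 : ℕ) : ℝ) = 1 := by
      push_cast
      field_simp
    rw [this, Real.rpow_one]
  have hM1 : 1 ≤ M := by
    rw [hM]
    apply Nat.le_floor
    rw [Nat.cast_one]
    exact one_le_mul_of_one_le_of_one_le hK5 (Real.one_le_rpow hH1 he0.le)
  have hMle : (M : ℝ) ≤ K5 g n * H ^ e := Nat.floor_le (by positivity)
  have hMε : (M : ℝ) ^ ε ≤ K5 g n ^ ε * H ^ (ε / 2) := by
    calc (M : ℝ) ^ ε ≤ (K5 g n * H ^ e) ^ ε := Real.rpow_le_rpow (by positivity) hMle hε0.le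
      _ = K5 g n ^ ε * H ^ (e * ε) := by
          rw [Real.mul_rpow (by positivity) (by positivity), ← Real.rpow_mul hH0.le]
      _ ≤ K5 g n ^ ε * H ^ (ε / 2) := by
          apply mul_le_mul_of_nonneg_left (hmono _) (by positivity)
          nlinarith
  have hAM : ∀ A : ℕ, (A : ℝ) ^ (g + 2) ≤ K5 g n * H → A ≤ M := by
    intro A hA
    apply Nat.le_floor
    apply le_of_pow_le_pow_left₀ (n := g + 2) (by omega) (by positivity)
    refine hA.trans ?_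
    rw [mul_pow, hroot]
    apply mul_le_mul_of_nonneg_right _ hH0.le
    calc K5 g n = K5 g n ^ 1 := (pow_one _).symm
      _ ≤ K5 g n ^ (g + 2) := pow_le_pow_right₀ hK5 (by omega)
  have h1 := count_big hf hd (by omega) (k := g + 2) (by omega) T hT0 M Y hY0 Z (fun t ht => by
      obtain ⟨h1, A, h2, h3, h4, h5⟩ := hZ t ht
      exact ⟨h1, A, h2, hAM A h3, h4, h5⟩) (W := D2 * (M : ℝ) ^ ε) (fun A hA => by
      rw [mem_Icc] at hA
      refine (hA1 A hA.1).trans ?_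
      apply mul_le_mul_of_nonneg_left _ hD2.le
      exact Real.rpow_le_rpow (by positivity) (by exact_mod_cast hA.2) hε0.le) (by positivity)
  have h2 := A345_harm ε hε0 M hM1
  have h3 : Y ^ (g + 2 - 1) = H ^ θ := by
    rw [hY, ← Real.rpow_natCast, ← Real.rpow_mul hH0.le]
    congr 1
    rw [hθ, Nat.cast_sub (by omega)]
    push_cast
    ring
  rw [h3] at h1
  have h4 : (2 * (T : ℝ) + 1) / H ^ θ ≤ 3 * H ^ (1 - θ) := by
    rw [Real.rpow_sub hH0, Real.rpow_one, ← mul_div_assoc]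
    apply div_le_div_of_nonneg_right _ (by positivity)
    linarith
  have h5 : (0 : ℝ) ≤ 1 + 1 / ε := by positivity
  have hT' : (0 : ℝ) ≤ T := by exact_mod_cast hT0
  calc (Z.card : ℝ) ≤ D2 * (M : ℝ) ^ ε * ((2 * T + 1) / H ^ θ * (∑ A ∈ Icc 1 M, 1 / (A : ℝ)) + M) := h1
    _ ≤ D2 * (K5 g n ^ ε * H ^ (ε / 2)) *
        (3 * H ^ (1 - θ) * ((1 + 1 / ε) * (K5 g n ^ ε * H ^ (ε / 2))) + K5 g n * H ^ e) := by
        apply mul_le_mul (mul_le_mul_of_nonneg_left hMε hD2.le) _ (by positivity) (by positivity)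
        apply add_le_add
        · apply mul_le_mul h4 _ (by positivity) (by positivity)
          exact h2.trans (mul_le_mul_of_nonneg_left hMε h5)
        · exact hMle
    _ = D2 * K5 g n ^ ε * (3 * (1 + 1 / ε) * K5 g n ^ ε) * H ^ (ε / 2 + ε / 2 + (1 - θ)) +
        D2 * K5 g n ^ ε * K5 g n * H ^ (ε / 2 + e) := by
        rw [Real.rpow_add hH0, Real.rpow_add hH0, Real.rpow_add hH0]
        ring
    _ ≤ D2 * K5 g n ^ ε * (3 * (1 + 1 / ε) * K5 g n ^ ε) * H ^ (1 - δ) +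
        D2 * K5 g n ^ ε * K5 g n * H ^ (1 - δ) := by
        apply add_le_add
        · exact mul_le_mul_of_nonneg_left (hmono hexp1) (by positivity)
        · exact mul_le_mul_of_nonneg_left (hmono hexp2) (by positivity)
    _ = _ := by ring

/-- second part, all primes dividing a fixed number -/
theorem part2b {f : ℤ[X]} (hn : 5 ≤ n) (hf : f.Monic) (hd : f.natDegree = n) {B H D3 : ℝ}
    (hB : 1 ≤ B) (hH : H = B ^ n) (hH1 : 1 ≤ H) (hε0 : 0 < ε) (hD3 : 0 < D3)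
    (hA1 : ∀ m : ℕ, 1 ≤ m → (2 * n : ℝ) ^ m.primeFactors.card ≤ D3 * (m : ℝ) ^ ε)
    (hexp1 : ε * n + ρ ≤ 1 - δ) (hexp2 : ε * n ≤ 1 - δ)
    {T : ℤ} (hT0 : 0 ≤ T) (hTH : (T : ℝ) ≤ H) (N : ℕ) (hN0 : N ≠ 0)
    (hN : (N : ℝ) ≤ n * (4 * n * B) ^ (n * n)) (Z : Finset ℤ)
    (hZ : ∀ t ∈ Z, |t| ≤ T ∧ ∃ A : ℕ, Squarefree A ∧ A ∣ N ∧
      H ^ ((1 - ρ) / (g + 2)) < A ∧ ∀ p ∈ A.primeFactors, Hit f (g + 2) p t) :
    (Z.card : ℝ) ≤ D3 * (n * (4 * n) ^ (n * n) : ℝ) ^ ε * 4 * H ^ (1 - δ) := by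
  have hH0 : 0 < H := by linarith
  set Y : ℝ := H ^ ((1 - ρ) / (g + 2)) with hY
  have hY0 : 0 < Y := by positivity
  have hmono : ∀ {x y : ℝ}, x ≤ y → H ^ x ≤ H ^ y := fun h =>
    Real.rpow_le_rpow_of_exponent_le hH1 h
  have hT' : (0 : ℝ) ≤ T := by exact_mod_cast hT0
  have h1 := count_div hf hd (by omega) (k := g + 2) T hT0 N hN0 Y hY0 Z hZ
  have h2 : (2 * n : ℝ) ^ N.primeFactors.card ≤
      D3 * (n * (4 * n) ^ (n * n) : ℝ) ^ ε * H ^ (ε * n) := by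
    refine (hA1 N (Nat.one_le_iff_ne_zero.mpr hN0)).trans ?_
    rw [mul_assoc]
    apply mul_le_mul_of_nonneg_left _ hD3.le
    calc (N : ℝ) ^ ε ≤ (n * (4 * n * B) ^ (n * n)) ^ ε :=
          Real.rpow_le_rpow (by positivity) hN hε0.le
      _ = ((n * (4 * n) ^ (n * n)) * H ^ n) ^ ε := by
          congr 1
          rw [mul_pow, hH, ← pow_mul]
          ring
      _ = (n * (4 * n) ^ (n * n) : ℝ) ^ ε * H ^ (ε * n) := by
          rw [Real.mul_rpow (by positivity) (by positivity), ← Real.rpow_natCast H n,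
            ← Real.rpow_mul hH0.le, mul_comm (n : ℝ) ε]
  have h3 : Y ^ (g + 2) = H ^ (1 - ρ) := by
    rw [hY, ← Real.rpow_natCast, ← Real.rpow_mul hH0.le]
    congr 1
    push_cast
    field_simp
  rw [h3] at h1
  have h4 : (2 * (T : ℝ) + 1) / H ^ (1 - ρ) ≤ 3 * H ^ ρ := by
    rw [div_le_iff₀ (by positivity), mul_assoc, ← Real.rpow_add hH0]
    have : ρ + (1 - ρ) = 1 := by ring
    rw [this, Real.rpow_one]
    linarith
  calc (Z.card : ℝ) ≤ (2 * n : ℝ) ^ N.primeFactors.card * ((2 * T + 1) / H ^ (1 - ρ) + 1) := h1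
    _ ≤ (D3 * (n * (4 * n) ^ (n * n) : ℝ) ^ ε * H ^ (ε * n)) * (3 * H ^ ρ + 1) :=
        mul_le_mul h2 (by linarith) (by positivity) (by positivity)
    _ = D3 * (n * (4 * n) ^ (n * n) : ℝ) ^ ε * (3 * H ^ (ε * n + ρ) + H ^ (ε * n)) := by
        rw [Real.rpow_add hH0]; ring
    _ ≤ D3 * (n * (4 * n) ^ (n * n) : ℝ) ^ ε * (3 * H ^ (1 - δ) + H ^ (1 - δ)) := by
        apply mul_le_mul_of_nonneg_left _ (by positivity)
        exact add_le_add (mul_le_mul_of_nonneg_left (hmono hexp1) (by norm_num)) (hmono hexp2)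
    _ = _ := by ring

end

/-- **Main theorem.** -/
theorem uniform2 (g n : ℕ) (hg : 2 ≤ g) (hn : n = 2 * g + 1 ∨ n = 2 * g + 2) (κ c δ : ℝ)
    (hκ : (n : ℝ) - 1 < κ) (hc : 0 < c)
    (hδ2 : δ < ((g : ℝ) + 1) / (g + 2) * (1 - ((n : ℝ) - 1) / κ)) :
    ∃ K : ℝ, ∀ B : ℝ, 1 ≤ B → ∀ f : ℤ[X], f.Monic → f.natDegree = n →
      (∀ i, i < n → |((f.coeff i : ℤ) : ℝ)| ≤ B ^ (n - i)) →
        ({t : ℤ | |(t : ℝ)| ≤ B ^ n ∧
          ¬ Good g c κ ((f + C t).map (Int.castRingHom ℚ))}.ncard : ℝ) ≤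
            K * B ^ ((n : ℝ) * (1 - δ)) := by
  classical
  have hn5 : 5 ≤ n := by omega
  have hg' : (2 : ℝ) ≤ g := by exact_mod_cast hg
  have hN5 : (5 : ℝ) ≤ n := by exact_mod_cast hn5
  have hκ0 : 0 < κ := by linarith
  have hK1 := one_le_K1 (n := n) (by omega)
  have hK5 := one_le_K5 (g := g) (n := n) (by omega)
  set ρ : ℝ := ((n : ℝ) - 1) / κ with hρ
  have hρ0 : 0 < ρ := div_pos (by linarith) hκ0
  have hρ1 : ρ < 1 := by rw [hρ, div_lt_one hκ0]; linarith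
  set θ : ℝ := ((g : ℝ) + 1) / (g + 2) * (1 - ρ) with hθ
  have hθ' : θ = (1 - ρ) - (1 - ρ) / (g + 2) := by rw [hθ]; field_simp; ring
  have hθ'' : θ = (1 - ρ) / (g + 2) * (g + 1) := by rw [hθ]; ring
  have hq0 : 0 < (1 - ρ) / ((g : ℝ) + 2) := div_pos (by linarith) (by linarith)
  have hθρ : θ ≤ 1 - ρ := by linarith
  have hθe : 1 / ((g : ℝ) + 2) ≤ 1 - θ := by
    have h1 : θ ≤ ((g : ℝ) + 1) / (g + 2) := by
      rw [hθ]
      have : (0 : ℝ) ≤ ((g : ℝ) + 1) / (g + 2) := by positivity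
      nlinarith
    have h2 : ((g : ℝ) + 1) / (g + 2) = 1 - 1 / (g + 2) := by field_simp; ring
    linarith
  set ε : ℝ := (θ - δ) / n with hε
  have hε0 : 0 < ε := div_pos (by linarith) (by linarith)
  have hεN : ε * n = θ - δ := div_mul_cancel₀ _ (by linarith)
  have hε1 : ε ≤ θ - δ := by nlinarith
  obtain ⟨D1, hD1, hA4⟩ := stmtA4_of (stmtA3_of stmtA2) ε hε0
  obtain ⟨D2, hD2, hA1⟩ := stmtA1 n (by linarith) ε hε0
  obtain ⟨D3, hD3, hA1'⟩ := stmtA1 (2 * n) (by linarith) ε hε0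
  set K3 : ℝ := (2 ^ (4 * g) * K1 n / c) ^ (1 / κ) with hK3
  have hK30 : 0 ≤ K3 := by positivity
  set k1 : ℝ := 2 * n * (D1 * K1 n ^ ε * (2 * K3)) with hk1
  set k2 : ℝ := D2 * K5 g n ^ ε * (3 * (1 + 1 / ε) * K5 g n ^ ε + K5 g n) with hk2
  set k3 : ℝ := D3 * (n * (4 * n) ^ (n * n) : ℝ) ^ ε * 4 with hk3
  have hk20 : 0 ≤ k2 := by positivity
  have hk30 : 0 ≤ k3 := by positivity
  refine ⟨2 * n + 1 + k1 + (k2 + k3), ?_⟩
  intro B hB f hf hd hcf
  set H : ℝ := B ^ n with hH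
  have hH1 : 1 ≤ H := one_le_pow₀ hB
  have hH0 : 0 < H := by linarith
  have htarget : B ^ ((n : ℝ) * (1 - δ)) = H ^ (1 - δ) := by
    rw [Real.rpow_mul (by linarith), Real.rpow_natCast]
  rw [htarget]
  have hpos : 0 < H ^ (1 - δ) := by positivity
  have hone : 1 ≤ H ^ (1 - δ) := Real.one_le_rpow hH1 (by linarith)
  -- the exceptional set as a finite set
  set T : ℤ := ⌊H⌋ with hT
  have hT0 : 0 ≤ T := Int.floor_nonneg.mpr hH0.le
  have hTH : (T : ℝ) ≤ H := Int.floor_le H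
  set E : Finset ℤ := (Icc (-T) T).filter
    (fun t => ¬ Good g c κ ((f + C t).map (Int.castRingHom ℚ))) with hE
  have hEq : {t : ℤ | |(t : ℝ)| ≤ H ∧
      ¬ Good g c κ ((f + C t).map (Int.castRingHom ℚ))} = (E : Set ℤ) := by
    ext t
    rw [Set.mem_setOf_eq, Finset.mem_coe, hE, mem_filter, mem_Icc, ← abs_le, hT, Int.le_floor,
      Int.cast_abs]
  rw [hEq, Set.ncard_coe_finset]
  have hEH : ∀ t ∈ E, |t| ≤ T ∧ |(t : ℝ)| ≤ H := by
    intro t ht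
    rw [hE, mem_filter, mem_Icc, ← abs_le] at ht
    refine ⟨ht.1, ?_⟩
    have := ht.1
    rw [hT, Int.le_floor, Int.cast_abs] at this
    exact this
  have hDle : ∀ t ∈ E, ((f + C t).discr.natAbs : ℝ) ≤ K1 n * H ^ (n - 1) := by
    intro t ht
    have h1 := discr_le hf hd (by omega) (by linarith : 0 < B) hcf (hEH t ht).2
    refine h1.trans (le_of_eq ?_)
    unfold K1
    rw [mul_pow, ← hH]
    ring
  set Y : ℝ := H ^ ((1 - ρ) / (g + 2)) with hY
  set R : ℝ := 2 * (K3 * H ^ ρ) * Y with hR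
  set Z0 := E.filter (fun t => (f + C t).discr = 0) with hZ0
  set Z1 := E.filter (fun t => (f + C t).discr ≠ 0 ∧ (rad (f + C t).discr.natAbs : ℝ) ≤ R) with hZ1
  set Z2 := E.filter (fun t => ∃ A : ℕ, Squarefree A ∧ Y < A ∧
      ∀ p ∈ A.primeFactors, Hit f (g + 2) p t ∧ Deep f g p t) with hZ2
  have hcover : E ⊆ Z0 ∪ (Z1 ∪ Z2) := by
    intro t ht
    rw [mem_union, mem_union]
    by_cases hD : (f + C t).discr = 0
    · exact Or.inl (mem_filter.mpr ⟨ht, hD⟩)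
    · right
      have hEt : ¬ Good g c κ ((f + C t).map (Int.castRingHom ℚ)) := (mem_filter.mp ht).2
      obtain ⟨A, hA1, hA2, hA3, hA4'⟩ := exists_A2 hg hn hf hd hD
      have hb := bad_le hg hn hκ0 hc hf hd hH1 hD (hDle t ht) hEt
      by_cases hAY : (A : ℝ) ≤ Y
      · left
        rw [hZ1, mem_filter]
        refine ⟨ht, hD, ?_⟩
        calc (rad (f + C t).discr.natAbs : ℝ) ≤
              2 * (badNorm g ((f + C t).map (Int.castRingHom ℚ)) : ℝ) * A := by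
              exact_mod_cast hA4'
          _ ≤ 2 * (K3 * H ^ ρ) * Y := by
              apply mul_le_mul _ hAY (by positivity) (by positivity)
              exact mul_le_mul_of_nonneg_left hb (by norm_num)
      · right
        push Not at hAY
        rw [hZ2, mem_filter]
        exact ⟨ht, A, hA1, hAY, hA2⟩
  -- the parts
  have hZ0c : (Z0.card : ℝ) ≤ 2 * n * H ^ (1 - δ) := by
    have h1 := card_fibre hf hd (by omega) 0 Z0 fun t ht => by
      rw [(mem_filter.mp ht).2]; rfl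
    have h2 : (Z0.card : ℝ) ≤ 2 * n := by
      have : Z0.card ≤ 2 * n := by omega
      exact_mod_cast this
    nlinarith
  have hZ1c : (Z1.card : ℝ) ≤ k1 * H ^ (1 - δ) := by
    refine part1 (g := g) (ρ := ρ) hn5 hf hd hH1 hK30 hε0 hD1 hA4 ?_ Z1 fun t ht => ?_
    · nlinarith
    · rw [hZ1, mem_filter] at ht
      exact ⟨ht.2.1, hDle t ht.1, ht.2.2⟩
  have hZ2c : (Z2.card : ℝ) ≤ (1 + (k2 + k3)) * H ^ (1 - δ) := by
    rcases crit_cases hg hn hf hd hB hcf with ⟨a, ha⟩ | ⟨N, hN0, hN, hdiv⟩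
    · set Z3 := Z2.filter (fun t => a + (n : ℤ) ^ n * t = 0) with hZ3
      set Z4 := Z2.filter (fun t => ¬ a + (n : ℤ) ^ n * t = 0) with hZ4
      have h34 : Z2.card = Z3.card + Z4.card := by
        rw [hZ3, hZ4, card_filter_add_card_filter_not]
      have h3 : Z3.card ≤ 1 := by
        rw [card_le_one]
        intro s hs t ht
        have h1 := (mem_filter.mp hs).2
        have h2 := (mem_filter.mp ht).2
        have hn0 : (n : ℤ) ^ n ≠ 0 := pow_ne_zero _ (by omega)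
        exact mul_left_cancel₀ hn0 (by linarith)
      have h4 : (Z4.card : ℝ) ≤ k2 * H ^ (1 - δ) := by
        refine part2a (g := g) (ρ := ρ) (θ := θ) hn5 hf hd hH1 hε0 hD2 hA1 hθ'' ?_ ?_ hT0 hTH Z4
          fun t ht => ?_
        · linarith
        · linarith
        · obtain ⟨ht2, hne⟩ := mem_filter.mp ht
          obtain ⟨htE, A, hA1, hA2, hA3⟩ := mem_filter.mp ht2
          exact ⟨(hEH t htE).1, A, hA1,
            ha t (hEH t htE).2 hne A hA1 (fun p hp => (hA3 p hp).2), hA2,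
            fun p hp => (hA3 p hp).1⟩
      have h5 : (Z2.card : ℝ) ≤ 1 + k2 * H ^ (1 - δ) := by
        rw [h34]; push_cast
        have : (Z3.card : ℝ) ≤ 1 := by exact_mod_cast h3
        linarith
      nlinarith [mul_nonneg hk30 hpos.le]
    · have h4 : (Z2.card : ℝ) ≤ k3 * H ^ (1 - δ) := by
        refine part2b (g := g) (ρ := ρ) hn5 hf hd hB hH hH1 hε0 hD3 hA1' ?_ ?_ hT0 hTH N hN0 hN Z2
          fun t ht => ?_
        · rw [hεN]; linarith
        · rw [hεN]; linarith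
        · obtain ⟨htE, A, hA1, hA2, hA3⟩ := mem_filter.mp ht
          exact ⟨(hEH t htE).1, A, hA1, hdiv t A hA1 (fun p hp => (hA3 p hp).2), hA2,
            fun p hp => (hA3 p hp).1⟩
      nlinarith [mul_nonneg hk20 hpos.le]
  have hsum : (E.card : ℝ) ≤ Z0.card + (Z1.card + Z2.card) := by
    have h1 := (card_le_card hcover).trans ((card_union_le _ _).trans
      (Nat.add_le_add_left (card_union_le _ _) _))
    exact_mod_cast h1
  calc (E.card : ℝ) ≤ Z0.card + (Z1.card + Z2.card) := hsum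
    _ ≤ 2 * n * H ^ (1 - δ) + (k1 * H ^ (1 - δ) + (1 + (k2 + k3)) * H ^ (1 - δ)) :=
        add_le_add hZ0c (add_le_add hZ1c hZ2c)
    _ = _ := by ring

end Pool.Agent.TH4.HS
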