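import Pool.Agent.TH4.HS.Main2
import Pool.Agent.TH4.HS.Cnt3

/-!
# Szpiro's inequality for `y² = f(x) + t`, uniformly in `f`: the exponent `2 g / (2 g + 1)`
-/

namespace Pool.Agent.TH4.HS

open Polynomial Finset Pool.Agent.W318
open Pool.Agent.H785R2.ABC (rad stmtA1 stmtA2 stmtA3_of stmtA4_of A345_harm)

/-- **Main theorem.** -/
theorem uniform3 (g n : ℕ) (hg : 2 ≤ g) (hn : n = 2 * g + 1 ∨ n = 2 * g + 2) (κ c δ : ℝ)
    (hκ : (n : ℝ) - 1 < κ) (hc : 0 < c)
    (hδ2 : δ < 2 * (g : ℝ) / (2 * g + 1) * (1 - ((n : ℝ) - 1) / κ)) :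
    ∃ K : ℝ, ∀ B : ℝ, 1 ≤ B → ∀ f : ℤ[X], f.Monic → f.natDegree = n →
      (∀ i, i < n → |((f.coeff i : ℤ) : ℝ)| ≤ B ^ (n - i)) →
        ({t : ℤ | |(t : ℝ)| ≤ B ^ n ∧
          ¬ Good g c κ ((f + C t).map (Int.castRingHom ℚ))}.ncard : ℝ) ≤
            K * B ^ ((n : ℝ) * (1 - δ)) := by
  classical
  have hn5 : 5 ≤ n := by omega
  obtain ⟨q, hq⟩ : ∃ q : ℕ, q = 2 * g - 1 := ⟨_, rfl⟩
  have hqR : (q : ℝ) = 2 * g - 1 := by
    rw [hq, Nat.cast_sub (by omega)]
    push_cast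
    ring
  have hg' : (2 : ℝ) ≤ g := by exact_mod_cast hg
  have hN5 : (5 : ℝ) ≤ n := by exact_mod_cast hn5
  have hκ0 : 0 < κ := by linarith
  have hK1 := one_le_K1 (n := n) (by omega)
  have hK5 := one_le_K5 (g := q) (n := n) (by omega)
  set ρ : ℝ := ((n : ℝ) - 1) / κ with hρ
  have hρ0 : 0 < ρ := div_pos (by linarith) hκ0
  have hρ1 : ρ < 1 := by rw [hρ, div_lt_one hκ0]; linarith
  set θ : ℝ := ((q : ℝ) + 1) / (q + 2) * (1 - ρ) with hθ
  have hδ3 : δ < θ := by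
    rw [hθ, hqR]
    have e1 : (2 * (g : ℝ) - 1 + 1) = 2 * g := by ring
    have e2 : (2 * (g : ℝ) - 1 + 2) = 2 * g + 1 := by ring
    rw [e1, e2]
    exact hδ2
  have hq0' : (0 : ℝ) ≤ q := Nat.cast_nonneg q
  have hθ' : θ = (1 - ρ) - (1 - ρ) / (q + 2) := by rw [hθ]; field_simp; ring
  have hθ'' : θ = (1 - ρ) / (q + 2) * (q + 1) := by rw [hθ]; ring
  have hq0 : 0 < (1 - ρ) / ((q : ℝ) + 2) := div_pos (by linarith) (by linarith)
  have hθρ : θ ≤ 1 - ρ := by linarith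
  have hθe : 1 / ((q : ℝ) + 2) ≤ 1 - θ := by
    have h1 : θ ≤ ((q : ℝ) + 1) / (q + 2) := by
      rw [hθ]
      have : (0 : ℝ) ≤ ((q : ℝ) + 1) / (q + 2) := by positivity
      nlinarith
    have h2 : ((q : ℝ) + 1) / (q + 2) = 1 - 1 / (q + 2) := by field_simp; ring
    linarith
  set ε : ℝ := (θ - δ) / n with hε
  have hε0 : 0 < ε := div_pos (by linarith) (by linarith)
  have hεN : ε * n = θ - δ := div_mul_cancel₀ _ (by linarith)
  have hε1 : ε ≤ θ - δ := div_le_self (by linarith) (by linarith)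
  obtain ⟨D1, hD1, hA4⟩ := stmtA4_of (stmtA3_of stmtA2) ε hε0
  obtain ⟨D2, hD2, hA1⟩ := stmtA1 n (by linarith) ε hε0
  obtain ⟨D3, hD3, hA1'⟩ := stmtA1 (2 * n) (by linarith) ε hε0
  set K3 : ℝ := (2 ^ (4 * g) * K1 n / c) ^ (1 / κ) with hK3
  have hK30 : 0 ≤ K3 := by positivity
  set k1 : ℝ := 2 * n * (D1 * K1 n ^ ε * (2 * K3)) with hk1
  set k2 : ℝ := D2 * K5 q n ^ ε * (3 * (1 + 1 / ε) * K5 q n ^ ε + K5 q n) with hk2
  set k3 : ℝ := D3 * (n * (4 * n) ^ (n * n) : ℝ) ^ ε * 4 with hk3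
  have hk20 : 0 ≤ k2 := by positivity
  have hk30 : 0 ≤ k3 := by positivity
  refine ⟨2 * n + 1 + k1 + (k2 + k3), ?_⟩
  intro B hB f hf hd hcf
  set H : ℝ := B ^ n with hH
  have hH1 : 1 ≤ H := one_le_pow₀ hB
  have hH0 : 0 < H := by linarith
  have htarget : B ^ ((n : ℝ) * (1 - δ)) = H ^ (1 - δ) := by
    rw [Real.rpow_mul (by linarith), Real.rpow_natCast]
  rw [htarget]
  have hpos : 0 < H ^ (1 - δ) := by positivity
  have hone : 1 ≤ H ^ (1 - δ) := Real.one_le_rpow hH1 (by linarith)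
  -- the exceptional set as a finite set
  set T : ℤ := ⌊H⌋ with hT
  have hT0 : 0 ≤ T := Int.floor_nonneg.mpr hH0.le
  have hTH : (T : ℝ) ≤ H := Int.floor_le H
  set E : Finset ℤ := (Icc (-T) T).filter
    (fun t => ¬ Good g c κ ((f + C t).map (Int.castRingHom ℚ))) with hE
  have hEq : {t : ℤ | |(t : ℝ)| ≤ H ∧
      ¬ Good g c κ ((f + C t).map (Int.castRingHom ℚ))} = (E : Set ℤ) := by
    ext t
    rw [Set.mem_setOf_eq, Finset.mem_coe, hE, mem_filter, mem_Icc, ← abs_le, hT, Int.le_floor,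
      Int.cast_abs]
  rw [hEq, Set.ncard_coe_finset]
  have hEH : ∀ t ∈ E, |t| ≤ T ∧ |(t : ℝ)| ≤ H := by
    intro t ht
    rw [hE, mem_filter, mem_Icc, ← abs_le] at ht
    refine ⟨ht.1, ?_⟩
    have := ht.1
    rw [hT, Int.le_floor, Int.cast_abs] at this
    exact this
  have hDle : ∀ t ∈ E, ((f + C t).discr.natAbs : ℝ) ≤ K1 n * H ^ (n - 1) := by
    intro t ht
    have h1 := discr_le hf hd (by omega) (by linarith : 0 < B) hcf (hEH t ht).2
    refine h1.trans (le_of_eq ?_)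
    unfold K1
    rw [mul_pow, ← hH]
    ring
  set Y : ℝ := H ^ ((1 - ρ) / (q + 2)) with hY
  set R : ℝ := 2 * (K3 * H ^ ρ) * Y with hR
  set Z0 := E.filter (fun t => (f + C t).discr = 0) with hZ0
  set Z1 := E.filter (fun t => (f + C t).discr ≠ 0 ∧ (rad (f + C t).discr.natAbs : ℝ) ≤ R) with hZ1
  set Z2 := E.filter (fun t => ∃ A : ℕ, Squarefree A ∧ Y < A ∧
      ∀ p ∈ A.primeFactors, Hit f (q + 2) p t ∧ Deep f q p t) with hZ2
  have hcover : E ⊆ Z0 ∪ (Z1 ∪ Z2) := by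
    intro t ht
    rw [mem_union, mem_union]
    by_cases hD : (f + C t).discr = 0
    · exact Or.inl (mem_filter.mpr ⟨ht, hD⟩)
    · right
      have hEt : ¬ Good g c κ ((f + C t).map (Int.castRingHom ℚ)) := (mem_filter.mp ht).2
      obtain ⟨A, hA1, hA2, hA3, hA4'⟩ := exists_A3 hg hn hf hd hD
      have hb := bad_le hg hn hκ0 hc hf hd hH1 hD (hDle t ht) hEt
      by_cases hAY : (A : ℝ) ≤ Y
      · left
        rw [hZ1, mem_filter]
        refine ⟨ht, hD, ?_⟩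
        calc (rad (f + C t).discr.natAbs : ℝ) ≤
              2 * (badNorm g ((f + C t).map (Int.castRingHom ℚ)) : ℝ) * A := by
              exact_mod_cast hA4'
          _ ≤ 2 * (K3 * H ^ ρ) * Y := by
              apply mul_le_mul _ hAY (by positivity) (by positivity)
              exact mul_le_mul_of_nonneg_left hb (by norm_num)
      · right
        push Not at hAY
        rw [hZ2, mem_filter]
        refine ⟨ht, A, hA1, hAY, ?_⟩
        rw [hq]
        exact hA2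
  -- the parts
  have hZ0c : (Z0.card : ℝ) ≤ 2 * n * H ^ (1 - δ) := by
    have h1 := card_fibre hf hd (by omega) 0 Z0 fun t ht => by
      rw [(mem_filter.mp ht).2]; rfl
    have h2 : (Z0.card : ℝ) ≤ 2 * n := by
      have : Z0.card ≤ 2 * n := by omega
      exact_mod_cast this
    calc (Z0.card : ℝ) ≤ 2 * n * 1 := by rw [mul_one]; exact h2
      _ ≤ 2 * n * H ^ (1 - δ) := mul_le_mul_of_nonneg_left hone (by positivity)
  have hZ1c : (Z1.card : ℝ) ≤ k1 * H ^ (1 - δ) := by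
    refine part1 (g := q) (ρ := ρ) hn5 hf hd hH1 hK30 hε0 hD1 hA4 ?_ Z1 fun t ht => ?_
    · have e1 : ε * ((n : ℝ) - 1) = ε * n - ε := by ring
      rw [e1, hεN]
      linarith
    · rw [hZ1, mem_filter] at ht
      exact ⟨ht.2.1, hDle t ht.1, ht.2.2⟩
  have hZ2c : (Z2.card : ℝ) ≤ (1 + (k2 + k3)) * H ^ (1 - δ) := by
    rcases crit_cases2 (g := q) (by omega) (by omega) hf hd hB hcf with ⟨a, ha⟩ | ⟨N, hN0, hN, hdiv⟩
    · set Z3 := Z2.filter (fun t => a + (n : ℤ) ^ n * t = 0) with hZ3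
      set Z4 := Z2.filter (fun t => ¬ a + (n : ℤ) ^ n * t = 0) with hZ4
      have h34 : Z2.card = Z3.card + Z4.card := by
        rw [hZ3, hZ4, card_filter_add_card_filter_not]
      have h3 : Z3.card ≤ 1 := by
        rw [card_le_one]
        intro s hs t ht
        have h1 := (mem_filter.mp hs).2
        have h2 := (mem_filter.mp ht).2
        have hn0 : (n : ℤ) ^ n ≠ 0 := pow_ne_zero _ (by omega)
        exact mul_left_cancel₀ hn0 (by linarith)
      have h4 : (Z4.card : ℝ) ≤ k2 * H ^ (1 - δ) := by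
        refine part2a (g := q) (ρ := ρ) (θ := θ) hn5 hf hd hH1 hε0 hD2 hA1 hθ'' ?_ ?_ hT0 hTH Z4
          fun t ht => ?_
        · linarith
        · linarith
        · obtain ⟨ht2, hne⟩ := mem_filter.mp ht
          obtain ⟨htE, A, hA1, hA2, hA3⟩ := mem_filter.mp ht2
          exact ⟨(hEH t htE).1, A, hA1,
            ha t (hEH t htE).2 hne A hA1 (fun p hp => (hA3 p hp).2), hA2,
            fun p hp => (hA3 p hp).1⟩
      have h5 : (Z2.card : ℝ) ≤ 1 + k2 * H ^ (1 - δ) := by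
        rw [h34]; push_cast
        have : (Z3.card : ℝ) ≤ 1 := by exact_mod_cast h3
        linarith
      have e1 : (1 + (k2 + k3)) * H ^ (1 - δ) =
          H ^ (1 - δ) + k2 * H ^ (1 - δ) + k3 * H ^ (1 - δ) := by ring
      have e2 := mul_nonneg hk30 hpos.le
      rw [e1]
      linarith
    · have h4 : (Z2.card : ℝ) ≤ k3 * H ^ (1 - δ) := by
        refine part2b (g := q) (ρ := ρ) hn5 hf hd hB hH hH1 hε0 hD3 hA1' ?_ ?_ hT0 hTH N hN0 hN Z2
          fun t ht => ?_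
        · rw [hεN]; linarith
        · rw [hεN]; linarith
        · obtain ⟨htE, A, hA1, hA2, hA3⟩ := mem_filter.mp ht
          exact ⟨(hEH t htE).1, A, hA1, hdiv t A hA1 (fun p hp => (hA3 p hp).2), hA2,
            fun p hp => (hA3 p hp).1⟩
      have e1 : (1 + (k2 + k3)) * H ^ (1 - δ) =
          H ^ (1 - δ) + k2 * H ^ (1 - δ) + k3 * H ^ (1 - δ) := by ring
      have e2 := mul_nonneg hk20 hpos.le
      rw [e1]
      linarith
  have hsum : (E.card : ℝ) ≤ Z0.card + (Z1.card + Z2.card) := by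
    have h1 := (card_le_card hcover).trans ((card_union_le _ _).trans
      (Nat.add_le_add_left (card_union_le _ _) _))
    exact_mod_cast h1
  calc (E.card : ℝ) ≤ Z0.card + (Z1.card + Z2.card) := hsum
    _ ≤ 2 * n * H ^ (1 - δ) + (k1 * H ^ (1 - δ) + (1 + (k2 + k3)) * H ^ (1 - δ)) :=
        add_le_add hZ0c (add_le_add hZ1c hZ2c)
    _ = _ := by ring

end Pool.Agent.TH4.HS
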