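import Pool.Agent.W318.LocalMin

/-!
# Places of the rational numbers
-/

namespace Pool.Agent.TH4.HS

open Polynomial NumberField IsDedekindDomain WithZero Pool.Agent.W318

/-- the prime number below `v` -/
noncomputable def pv (v : HeightOneSpectrum (𝓞 ℚ)) : ℕ := Rat.HeightOneSpectrum.natGenerator v

theorem pv_prime (v : HeightOneSpectrum (𝓞 ℚ)) : (pv v).Prime :=
  Rat.HeightOneSpectrum.prime_natGenerator v

/-- the place of a prime number -/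
noncomputable def vp (p : ℕ) (hp : p.Prime) : HeightOneSpectrum (𝓞 ℚ) :=
  (Rat.HeightOneSpectrum.primesEquiv (R := 𝓞 ℚ)).symm ⟨p, hp⟩

theorem pv_vp (p : ℕ) (hp : p.Prime) : pv (vp p hp) = p := by
  have h := (Rat.HeightOneSpectrum.primesEquiv (R := 𝓞 ℚ)).apply_symm_apply ⟨p, hp⟩
  exact congrArg Subtype.val h

theorem mem_pow_iff (v : HeightOneSpectrum (𝓞 ℚ)) (m : ℤ) (k : ℕ) :
    ((m : ℤ) : 𝓞 ℚ) ∈ v.asIdeal ^ k ↔ (pv v : ℤ) ^ k ∣ m := by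
  set e := Rat.IsIntegralClosure.intEquiv (𝓞 ℚ) with he
  have h1 : (v.asIdeal ^ k).map e = Ideal.span {((pv v : ℤ)) ^ k} := by
    rw [Ideal.map_pow, ← Ideal.span_singleton_pow]
    congr 1
    exact (Rat.HeightOneSpectrum.span_natGenerator v).symm
  rw [← Ideal.apply_mem_of_equiv_iff (f := e), h1, Ideal.mem_span_singleton, map_intCast]
  rfl

theorem val_le_iff (v : HeightOneSpectrum (𝓞 ℚ)) (m : ℤ) (k : ℕ) :
    v.valuation ℚ (m : ℚ) ≤ exp (-(k : ℤ)) ↔ (pv v : ℤ) ^ k ∣ m := by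
  rw [← mem_pow_iff, ← v.intValuation_le_pow_iff_mem, ← v.valuation_of_algebraMap (K := ℚ)]
  simp

theorem val_int_le_one (v : HeightOneSpectrum (𝓞 ℚ)) (m : ℤ) : v.valuation ℚ (m : ℚ) ≤ 1 := by
  have := (val_le_iff v m 0).mpr (by simp)
  simpa using this

theorem asIdeal_eq (v : HeightOneSpectrum (𝓞 ℚ)) : v.asIdeal = Ideal.span {((pv v : ℤ) : 𝓞 ℚ)} := by
  ext x
  obtain ⟨m, rfl⟩ := Rat.int_algebraMap_surjective (𝓞 ℚ) x
  have h1 := mem_pow_iff v m 1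
  rw [pow_one, pow_one] at h1
  have e1 : algebraMap ℤ (𝓞 ℚ) m = ((m : ℤ) : 𝓞 ℚ) := by simp
  rw [e1, h1, Ideal.mem_span_singleton]
  constructor
  · rintro ⟨c, rfl⟩
    exact ⟨(c : 𝓞 ℚ), by push_cast; ring⟩
  · rintro ⟨c, hc⟩
    obtain ⟨c, rfl⟩ := Rat.int_algebraMap_surjective (𝓞 ℚ) c
    refine ⟨c, ?_⟩
    have h2 : algebraMap ℤ (𝓞 ℚ) m = algebraMap ℤ (𝓞 ℚ) ((pv v : ℤ) * c) := by
      rw [map_mul]; simpa using hc
    exact Rat.int_algebraMap_injective (𝓞 ℚ) h2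

theorem absNorm_eq (v : HeightOneSpectrum (𝓞 ℚ)) : Ideal.absNorm v.asIdeal = pv v := by
  rw [asIdeal_eq, Ideal.absNorm_span_singleton]
  have h1 : (((pv v : ℤ) : ℤ) : 𝓞 ℚ) = algebraMap ℤ (𝓞 ℚ) (pv v : ℤ) := by simp
  rw [h1, Algebra.norm_algebraMap, RingOfIntegers.rank, Module.finrank_self, pow_one]
  simp

end Pool.Agent.TH4.HS
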